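import Pool.Agent.Lib.MP_7dd29b_gt.AbsFlow

/-! Closing lemma for periodic Euler polygons of a flow, and sums round a cycle. -/

open Set Filter Topology

namespace Pool.Agent.Lib.MP_ce3247_an.Sm

open Pool.Agent.Lib.MP_7dd29b_gt

variable {F : Type} [NormedAddCommGroup F]

theorem cyc_sum {N : ℕ} [NeZero N] {g : ZMod N → ℝ} (hg : ∀ i, 0 ≤ g i) {j : ℕ} (hj : j ≤ N) :
    ∑ l ∈ Finset.range j, g l ≤ ∑ i, g i := by
  rw [← Finset.sum_image (s := Finset.range j) (g := fun l : ℕ => (l : ZMod N)) (f := g)]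
  · exact Finset.sum_le_sum_of_subset_of_nonneg (Finset.subset_univ _) fun i _ _ => hg i
  · intro a ha b hb h
    have h1 := congrArg ZMod.val h
    have ha' : a < N := (Finset.mem_range.1 ha).trans_le hj
    have hb' : b < N := (Finset.mem_range.1 hb).trans_le hj
    rwa [ZMod.val_cast_of_lt ha', ZMod.val_cast_of_lt hb'] at h1

theorem cyc_var {N : ℕ} [NeZero N] (f : ZMod N → F) (j : ZMod N) :
    ‖f j - f 0‖ ≤ ∑ i, ‖f (i + 1) - f i‖ := by
  have h1 := Finset.sum_range_sub (fun l : ℕ => f l) j.val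
  simp only [ZMod.natCast_zmod_val, Nat.cast_zero, Nat.cast_add, Nat.cast_one] at h1
  rw [← h1]
  exact (norm_sum_le _ _).trans
    (cyc_sum (g := fun i => ‖f (i + 1) - f i‖) (fun _ => norm_nonneg _) (ZMod.val_lt j).le)

variable [NormedSpace ℝ F] [FiniteDimensional ℝ F]

theorem closing {V : F → F} (hV : ContDiff ℝ 1 V) {ψ : F → ℝ → F} (hψ : IsFlow V univ ψ)
    {S : Set F} (hS : IsClosed S) {a : F} {R : ℝ}
    (h : ∀ N : ℕ, 0 < N → ∃ z : ℕ → F, z 0 ∈ S ∧ z N = z 0 + a ∧ (∀ n ≤ N, ‖z n‖ ≤ R) ∧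
      ∀ n < N, ‖z (n + 1) - z n - (N : ℝ)⁻¹ • V (z n)‖ ≤ (N : ℝ)⁻¹ * ‖V (z (n + 1)) - V (z n)‖) :
    ∃ w ∈ S, ψ w 1 = w + a := by
  have hc : Continuous fun p : F × ℝ => ψ p.1 p.2 := by
    have := hψ.cont
    rwa [univ_prod_univ, continuousOn_univ] at this
  obtain ⟨R₁, hR₁⟩ := ((isCompact_closedBall (0 : F) R).prod
    (isCompact_Icc (a := (0 : ℝ)) (b := 1))).exists_bound_of_continuousOn hc.continuousOn
  set B := Metric.closedBall (0 : F) (max R R₁) with hB
  obtain ⟨L, hL⟩ := (hV.contDiffOn (s := B)).exists_lipschitzOnWith one_ne_zero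
    (convex_closedBall _ _) (isCompact_closedBall _ _)
  obtain ⟨M₀, hM₀⟩ := (isCompact_closedBall (0 : F) (max R R₁)).exists_bound_of_continuousOn
    hV.continuous.continuousOn
  set M := max M₀ 0 with hMdef
  have hM : ∀ x ∈ B, ‖V x‖ ≤ M := fun x hx => (hM₀ x hx).trans (le_max_left _ _)
  have hM0 : 0 ≤ M := le_max_right _ _
  have hL' : ∀ x ∈ B, ∀ y ∈ B, ‖V x - V y‖ ≤ L * ‖x - y‖ := fun x hx y hy => hL.norm_sub_le hx hy
  have hL0 : (0 : ℝ) ≤ L := L.2
  have key : ∀ N : ℕ, 0 < N → ∃ w ∈ S ∩ Metric.closedBall 0 R,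
      ‖ψ w 1 - (w + a)‖ ≤ 4 * L * M * Real.exp L / N := by
    intro N hN
    obtain ⟨z, z0, zN, zR, zs⟩ := h N hN
    have hN' : (0 : ℝ) < N := by exact_mod_cast hN
    set ε : ℝ := (N : ℝ)⁻¹ with hε
    have hε0 : 0 < ε := inv_pos.2 hN'
    have hεN : N * ε = 1 := mul_inv_cancel₀ hN'.ne'
    have z0R : z 0 ∈ Metric.closedBall (0 : F) R := mem_closedBall_zero_iff.2 (zR 0 N.zero_le)
    have zB : ∀ n ≤ N, z n ∈ B := fun n hn =>
      mem_closedBall_zero_iff.2 ((zR n hn).trans (le_max_left _ _))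
    have γB : ∀ s ∈ Icc (0 : ℝ) 1, ψ (z 0) s ∈ B := fun s hs =>
      mem_closedBall_zero_iff.2 ((hR₁ (z 0, s) ⟨z0R, hs⟩).trans (le_max_right _ _))
    have loc : ∀ t, 0 ≤ t → t + ε ≤ 1 →
        ‖ψ (z 0) (t + ε) - ψ (z 0) t - ε • V (ψ (z 0) t)‖ ≤ L * M * ε * ε := by
      intro t t0 t1
      have m1 : ∀ s ∈ Icc t (t + ε), s ∈ Icc (0 : ℝ) 1 := fun s hs =>
        ⟨t0.trans hs.1, hs.2.trans t1⟩
      have a1 := norm_image_sub_le_of_norm_deriv_le_segment' (f := ψ (z 0)) (a := t) (b := t + ε)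
        (f' := fun s => V (ψ (z 0) s)) (C := M)
        (fun s _ => (hψ.deriv _ trivial s).hasDerivWithinAt)
        (fun s hs => hM _ (γB s (m1 s (Ico_subset_Icc_self hs))))
      have a2 := norm_image_sub_le_of_norm_deriv_le_segment'
        (f := fun s => ψ (z 0) s - s • V (ψ (z 0) t)) (a := t) (b := t + ε)
        (f' := fun s => V (ψ (z 0) s) - V (ψ (z 0) t)) (C := L * M * ε)
        (fun s _ => ((hψ.deriv _ trivial s).sub (by
          simpa using (hasDerivAt_id s).smul_const (V (ψ (z 0) t)))).hasDerivWithinAt)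
        (fun s hs => by
          have b1 := a1 s (Ico_subset_Icc_self hs)
          have b2 := hL' _ (γB s (m1 s (Ico_subset_Icc_self hs))) _
            (γB t (m1 t ⟨le_rfl, by linarith⟩))
          have b3 : M * (s - t) ≤ M * ε := mul_le_mul_of_nonneg_left (by linarith [hs.2]) hM0
          calc _ ≤ L * (M * ε) := b2.trans (mul_le_mul_of_nonneg_left (b1.trans b3) hL0)
            _ = _ := by ring) (t + ε) ⟨by linarith, le_rfl⟩
      rw [add_sub_cancel_left] at a2
      convert a2 using 2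
      rw [add_smul]
      abel
    have err : ∀ n ≤ N, ‖ψ (z 0) (n * ε) - z n‖ ≤ 4 * L * M * ε * ε * n * (1 + L * ε) ^ n := by
      intro n
      induction n with
      | zero => intro _; simp [hψ.zero _ trivial]
      | succ n ih =>
        intro hn
        have hn' : ((n : ℝ) + 1) * ε ≤ 1 := by
          exact (mul_le_mul_of_nonneg_right (by exact_mod_cast hn) hε0.le).trans hεN.le
        have t0 : 0 ≤ (n : ℝ) * ε := by positivity
        have b1 := loc (n * ε) t0 (by linarith)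
        have b2 := zs n (by omega)
        have b3 := hL' _ (zB (n + 1) hn) _ (zB n (by omega))
        have b4 : ‖z (n + 1) - z n‖ ≤ 3 * M * ε := by
          have c1 := norm_add_le (z (n + 1) - z n - ε • V (z n)) (ε • V (z n))
          rw [sub_add_cancel, norm_smul, Real.norm_of_nonneg hε0.le] at c1
          have c2 := norm_sub_le (V (z (n + 1))) (V (z n))
          have c3 := hM _ (zB (n + 1) hn)
          have c4 := hM _ (zB n (by omega))
          nlinarith
        have b5 := hL' _ (γB (n * ε) ⟨t0, by linarith⟩) _ (zB n (by omega))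
        have b6 := ih (by omega)
        have e : ψ (z 0) (((n + 1 : ℕ) : ℝ) * ε) - z (n + 1) =
            (ψ (z 0) (n * ε + ε) - ψ (z 0) (n * ε) - ε • V (ψ (z 0) (n * ε))) +
            (ψ (z 0) (n * ε) - z n) + ε • (V (ψ (z 0) (n * ε)) - V (z n)) -
            (z (n + 1) - z n - ε • V (z n)) := by
          rw [Nat.cast_add_one, add_mul, one_mul, smul_sub]
          abel
        have q1 : (1 : ℝ) ≤ (1 + L * ε) ^ (n + 1) := one_le_pow₀ (by nlinarith)
        have q2 : 0 ≤ L * M * ε * ε := by positivity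
        have b7 : ε * ‖V (z (n + 1)) - V (z n)‖ ≤ 3 * (L * M * ε * ε) := by
          have := mul_le_mul_of_nonneg_left (b3.trans (mul_le_mul_of_nonneg_left b4 hL0)) hε0.le
          linarith
        have b8 : ‖ε • (V (ψ (z 0) (n * ε)) - V (z n))‖ ≤ L * ε * ‖ψ (z 0) (n * ε) - z n‖ := by
          rw [norm_smul, Real.norm_of_nonneg hε0.le]
          have := mul_le_mul_of_nonneg_left b5 hε0.le
          linarith
        have b9 := mul_le_mul_of_nonneg_left b6 (show 0 ≤ 1 + L * ε by positivity)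
        rw [e]
        refine (norm_sub_le _ _).trans ((add_le_add (norm_add₃_le) le_rfl).trans ?_)
        rw [pow_succ] at q1 ⊢
        push_cast
        nlinarith
    refine ⟨z 0, ⟨z0, z0R⟩, ?_⟩
    have b1 := err N le_rfl
    rw [hεN, zN] at b1
    have b2 : (1 + L * ε) ^ N ≤ Real.exp L := by
      calc (1 + L * ε) ^ N ≤ Real.exp (L * ε) ^ N := by
            gcongr
            linarith [Real.add_one_le_exp (L * ε)]
        _ = Real.exp L := by
            rw [← Real.exp_nat_mul]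
            congr 1
            linear_combination (L : ℝ) * hεN
    calc _ ≤ 4 * L * M * ε * ε * N * Real.exp L := b1.trans (by gcongr)
      _ = 4 * L * M * Real.exp L / N := by
          rw [div_eq_mul_inv, ← hε]
          linear_combination 4 * L * M * ε * Real.exp L * hεN
  obtain ⟨w₁, hw₁, -⟩ := key 1 one_pos
  obtain ⟨w, hw, hmin⟩ := ((isCompact_closedBall (0 : F) R).inter_left hS).exists_isMinOn
    (f := fun w => ‖ψ w 1 - (w + a)‖) ⟨w₁, hw₁⟩
    (((hc.comp (Continuous.prodMk_left 1)).sub (continuous_id.add continuous_const)).norm.continuousOn)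
  refine ⟨w, hw.1, sub_eq_zero.1 (norm_le_zero_iff.1 ?_)⟩
  refine ge_of_tendsto (tendsto_const_div_atTop_nhds_zero_nat (4 * L * M * Real.exp L)) ?_
  filter_upwards [eventually_gt_atTop 0] with N hN
  obtain ⟨w', hw', h'⟩ := key N hN
  exact (hmin hw').trans h'

end Pool.Agent.Lib.MP_ce3247_an.Sm
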