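import Pool.Agent.Lib.MP_ce3247_an.Per

/-! Periodisation of smooth functions with compact support. -/

open Filter Topology Set
open scoped ContDiff Manifold Pointwise

namespace Pool.Agent.Lib.MP_ce3247_an.Sm

variable {d : ℕ}

/-- The lattice of deck transformations. -/
def lat (g : (Fin d → ℤ) × ℤ) : E d × ℝ := (ic g.1, (g.2 : ℝ))

theorem ic_zero : ic (0 : Fin d → ℤ) = 0 := funext fun _ => Int.cast_zero

theorem ic_add (z z' : Fin d → ℤ) : ic (z + z') = ic z + ic z' := funext fun _ => Int.cast_add _ _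

theorem ic_sub (z z' : Fin d → ℤ) : ic (z - z') = ic z - ic z' := funext fun _ => Int.cast_sub _ _

theorem lat_zero : lat (0 : (Fin d → ℤ) × ℤ) = 0 := Prod.ext ic_zero Int.cast_zero

theorem lat_add (g g' : (Fin d → ℤ) × ℤ) : lat (g + g') = lat g + lat g' :=
  Prod.ext (ic_add _ _) (Int.cast_add _ _)

theorem lat_neg (g : (Fin d → ℤ) × ℤ) : lat (-g) = -lat g :=
  eq_neg_of_add_eq_zero_left (by rw [← lat_add, neg_add_cancel, lat_zero])

theorem shift_eq (z : Fin d → ℤ) (m : ℤ) (y : E d × ℝ) : shift z m y = y + lat (z, m) := rfl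

theorem lat_finite (R : ℝ) : {g : (Fin d → ℤ) × ℤ | ‖lat g‖ ≤ R}.Finite := by
  have k : ∀ n : ℤ, ‖(n : ℝ)‖ ≤ R → n ∈ Icc (-⌈R⌉) ⌈R⌉ := fun n hn => by
    have h := abs_le.1 (hn.trans (Int.le_ceil R))
    exact ⟨by exact_mod_cast h.1, by exact_mod_cast h.2⟩
  refine ((Finite.pi' fun _ : Fin d => finite_Icc (-⌈R⌉) ⌈R⌉).prod
    (finite_Icc (-⌈R⌉) ⌈R⌉)).subset fun g hg => ⟨fun i => k _ ?_, k _ ?_⟩
  · exact (norm_le_pi_norm (ic g.1) i).trans ((norm_fst_le (lat g)).trans hg)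
  · exact (norm_snd_le (lat g)).trans hg

theorem lat_closed (S : Set ((Fin d → ℤ) × ℤ)) : IsClosed (lat '' S) := by
  refine isClosed_of_closure_subset fun y hy => ?_
  have h1 : (lat '' S ∩ Metric.ball y 1).Finite := by
    refine ((lat_finite (‖y‖ + 1)).image lat).subset ?_
    rintro _ ⟨⟨g, -, rfl⟩, hg⟩
    refine ⟨g, ?_, rfl⟩
    have := norm_sub_norm_le (lat g) y
    rw [mem_ball_iff_norm] at hg
    show ‖lat g‖ ≤ ‖y‖ + 1
    linarith
  have h2 := Metric.isOpen_ball.closure_inter (s := lat '' S) ⟨hy, Metric.mem_ball_self one_pos⟩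
  rw [h1.isClosed.closure_eq] at h2
  exact h2.1

section per

variable {F : Type} [NormedAddCommGroup F]

/-- The sum over all translates. -/
noncomputable def per (f : E d × ℝ → F) (y : E d × ℝ) : F := ∑ᶠ g, f (y - lat g)

theorem per_shift (f : E d × ℝ → F) (z : Fin d → ℤ) (m : ℤ) (y : E d × ℝ) :
    per f (shift z m y) = per f y := by
  unfold per
  rw [← finsum_comp_equiv (Equiv.addRight (z, m))]
  refine finsum_congr fun g => ?_
  rw [Equiv.coe_addRight, lat_add, shift_eq, add_sub_add_right_eq_sub]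

theorem per_loc {f : E d × ℝ → F} {R : ℝ} (hR : ∀ y, R ≤ ‖y‖ → f y = 0) (y : E d × ℝ) :
    ∃ s : Finset ((Fin d → ℤ) × ℤ), ∀ᶠ y' in 𝓝 y, ∀ g, g ∉ s → f (y' - lat g) = 0 := by
  refine ⟨(lat_finite (‖y‖ + 1 + R)).toFinset, ?_⟩
  filter_upwards [Metric.ball_mem_nhds y one_pos] with y' hy' g hg
  refine hR _ ?_
  rw [Finite.mem_toFinset, mem_ofPred_eq, not_le] at hg
  have h1 := norm_sub_norm_le y' y
  have h2 := norm_sub_norm_le (lat g) y'
  rw [mem_ball_iff_norm] at hy'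
  rw [norm_sub_rev] at h2
  linarith

theorem per_smooth [NormedSpace ℝ F] {f : E d × ℝ → F} (hf : ContDiff ℝ ∞ f) {R : ℝ}
    (hR : ∀ y, R ≤ ‖y‖ → f y = 0) : ContDiff ℝ ∞ (per f) :=
  contDiff_infty.2 fun r => contDiff_finsum' (fun g => (contDiff_infty.1 hf r).comp
    (contDiff_id.sub contDiff_const)) (per_loc hR)

theorem per_single {f : E d × ℝ → F} {y : E d × ℝ} (h : ∀ g, g ≠ 0 → f (y - lat g) = 0) :
    per f y = f y := by
  unfold per
  rw [finsum_eq_single _ 0 h, lat_zero, sub_zero]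

theorem per_zero {f : E d × ℝ → F} {y : E d × ℝ} (h : ∀ g, f (y - lat g) = 0) : per f y = 0 := by
  unfold per
  simp [h]

theorem le_per {f : E d × ℝ → ℝ} {R : ℝ} (hR : ∀ y, R ≤ ‖y‖ → f y = 0) (h0 : ∀ y, 0 ≤ f y)
    (y : E d × ℝ) : f y ≤ per f y := by
  obtain ⟨s, hs⟩ := per_loc hR y
  have hfin : (Function.support fun g => f (y - lat g)).Finite :=
    s.finite_toSet.subset fun g hg => by
      by_contra h
      exact hg (hs.self_of_nhds g h)
  have := single_le_finsum (0 : (Fin d → ℤ) × ℤ) hfin fun g => h0 (y - lat g)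
  rwa [lat_zero, sub_zero] at this

end per

theorem exists_cut {K Z : Set (E d × ℝ)} (hK : IsCompact K) (hZ : IsClosed Z)
    (h : ∀ y ∈ K, y ∉ Z) : ∃ (f : E d × ℝ → ℝ) (R : ℝ), ContDiff ℝ ∞ f ∧
      (∀ y, R ≤ ‖y‖ → f y = 0) ∧ (∀ y ∈ K, f y = 1) ∧ (∀ y ∈ Z, f y = 0) ∧ ∀ y, 0 ≤ f y := by
  obtain ⟨R, hR⟩ := hK.isBounded.subset_ball (0 : E d × ℝ)
  obtain ⟨f, h0, h1, h2⟩ := exists_contMDiffMap_zero_one_of_isClosed (n := (⊤ : ℕ∞))
    𝓘(ℝ, E d × ℝ) (hZ.union Metric.isOpen_ball.isClosed_compl) hK.isClosed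
    (Set.disjoint_left.2 fun y hy hy' => hy.elim (h y hy') fun h' => h' (hR hy'))
  exact ⟨f, R, f.contMDiff.contDiff, fun y hy => h0 (Or.inr (by simpa using hy)),
    fun y hy => h1 hy, fun y hy => h0 (Or.inl hy), fun y => (h2 y).1⟩

theorem exists_X {B : Type} [Fintype B] {K : B → Set (E d × ℝ)} (hK : ∀ β, IsCompact (K β))
    {V : B → E d × ℝ → E d} (hV : ∀ β, ContDiff ℝ ∞ (V β))
    (hd : ∀ β β' g y, y ∈ K β → y - lat g ∈ K β' → β = β' ∧ g = 0) :
    ∃ X : E d × ℝ → E d, ContDiff ℝ ∞ X ∧ (∀ z m y, X (shift z m y) = X y) ∧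
      (∀ β, ∀ y ∈ K β, X y = V β y) ∧ ∀ y, (∀ β g, V β (y - lat g) = 0) → X y = 0 := by
  have h : ∀ β, ∃ (f : E d × ℝ → ℝ) (R : ℝ), ContDiff ℝ ∞ f ∧ (∀ y, R ≤ ‖y‖ → f y = 0) ∧
      (∀ y ∈ K β, f y = 1) ∧
      (∀ y ∈ ⋃ β', K β' + lat '' {g | ¬(β = β' ∧ g = 0)}, f y = 0) ∧ ∀ y, 0 ≤ f y := fun β =>
    exists_cut (hK β) (isClosed_iUnion_of_finite fun β' =>
      (lat_closed _).add_left_of_isCompact (hK β')) fun y hy hy' => by
        obtain ⟨β', u, hu, _, ⟨g, hg, rfl⟩, rfl⟩ := mem_iUnion.1 hy'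
        exact hg (hd β β' g _ hy (by simpa using hu))
  choose f R h1 h2 h3 h4 h5 using h
  refine ⟨fun y => ∑ β, per (fun y => f β y • V β y) y, ContDiff.sum fun β _ =>
    per_smooth ((h1 β).smul (hV β)) (R := R β) fun y hy => by rw [h2 β y hy, zero_smul],
    fun z m y => Finset.sum_congr rfl fun β _ => per_shift _ z m y, fun β y hy => ?_,
    fun y hy => Finset.sum_eq_zero fun β _ => per_zero fun g => by rw [hy, smul_zero]⟩
  have key : ∀ β' g, ¬(β' = β ∧ g = 0) → f β' (y - lat g) • V β' (y - lat g) = 0 := fun β' g hg => by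
    rw [h4 β' _ (mem_iUnion.2 ⟨β, y, hy, _, ⟨-g, by simpa using hg, rfl⟩, by
      rw [lat_neg, sub_eq_add_neg]⟩), zero_smul]
  show ∑ β, per (fun y => f β y • V β y) y = _
  rw [Finset.sum_eq_single β (fun β' _ hβ => per_zero fun g => key β' g fun h => hβ h.1) (by simp),
    per_single fun g hg => key β g fun h => hg h.2, h3 β y hy, one_smul]

theorem exists_P {K Z : Set (E d × ℝ)} (hK : IsCompact K) (hZ : IsClosed Z)
    (hp : ∀ y ∈ Z, ∀ g, y - lat g ∈ Z) (h : ∀ y ∈ K, y ∉ Z) :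
    ∃ P : E d × ℝ → ℝ, ContDiff ℝ ∞ P ∧ (∀ z m y, P (shift z m y) = P y) ∧ (∀ y, 0 ≤ P y) ∧
      (∀ y ∈ K, P y = 0) ∧ ∀ y ∈ Z, P y = 1 := by
  obtain ⟨f, R, h1, h2, h3, h4, h5⟩ := exists_cut hK hZ h
  refine ⟨fun y => Real.smoothTransition (1 - per f y),
    Real.smoothTransition.contDiff.comp (contDiff_const.sub (per_smooth h1 h2)),
    fun z m y => by simp only [per_shift], fun y => Real.smoothTransition.nonneg _,
    fun y hy => Real.smoothTransition.zero_of_nonpos ?_, fun y hy => ?_⟩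
  · linarith [le_per h2 h5 y, h3 y hy]
  · simp only [per_zero fun g => h4 _ (hp y hy g), sub_zero, Real.smoothTransition.one]

end Pool.Agent.Lib.MP_ce3247_an.Sm
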