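import Pool.Agent.Lib.MP_ce3247_an.Sm.Dat
import Pool.Agent.Lib.MP_ce3247_an.Sm.PerS
import Pool.Agent.Lib.MP_ce3247_an.Sub

/-! The action of curves: shadowing by orbits of `X`, and subgradients of beta. -/

open MeasureTheory Filter Topology Set

namespace Pool.Agent.Lib.MP_ce3247_an.Sm

variable {d : ℕ}

/-- `x` is a `C^1` curve with velocity `v`. -/
def Curve (x v : ℝ → E d) : Prop := (∀ t, HasDerivAt x (v t) t) ∧ Continuous v

theorem Curve.cont {x v : ℝ → E d} (h : Curve x v) : Continuous x :=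
  continuous_iff_continuousAt.2 fun t => (h.1 t).continuousAt

theorem Curve.shift {x v : ℝ → E d} (h : Curve x v) (s : ℝ) (z : E d) :
    Curve (fun t => x (t + s) - z) fun t => v (t + s) :=
  ⟨fun t => ((h.1 (t + s)).comp_add_const t s).sub_const z, h.2.comp (continuous_id.add_const s)⟩

theorem norm_sq_le (u : E d) : ‖u‖ ^ 2 ≤ ∑ j, u j ^ 2 := by
  have h0 : 0 ≤ ∑ j, u j ^ 2 := Finset.sum_nonneg fun j _ => sq_nonneg _
  rw [← Real.le_sqrt (norm_nonneg _) h0, pi_norm_le_iff_of_nonneg (Real.sqrt_nonneg _)]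
  exact fun j => Real.abs_le_sqrt
    (Finset.single_le_sum (f := fun j => u j ^ 2) (fun j _ => sq_nonneg _) (Finset.mem_univ j))

namespace Dat

variable (D : Dat d)

/-- The Lagrangian along a curve. -/
noncomputable def lag (x v : ℝ → E d) (t : ℝ) : ℝ := D.Lag (proj (x t) (v t) t)

/-- The total deviation from `X` on the unit interval. -/
noncomputable def dev (x v : ℝ → E d) : ℝ := ∫ t in (0 : ℝ)..1, ‖v t - D.X (x t, t)‖

variable {D} {x v : ℝ → E d}

theorem lag_cont (h : Curve x v) : Continuous (D.lag x v) :=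
  (D.Lag_smooth 0).continuous.comp (h.cont.prodMk (h.2.prodMk continuous_id))

theorem lag_nonneg (t : ℝ) : 0 ≤ D.lag x v t := D.Lag_nonneg _

theorem lag_shift (m : ℤ) (z : Fin d → ℤ) (t : ℝ) :
    D.lag (fun t => x (t + m) - ic z) (fun t => v (t + m)) t = D.lag x v (t + m) :=
  congrArg D.Lag (proj_eq_iff.2 ⟨z, m, by simp, rfl, rfl⟩)

theorem u_cont (h : Curve x v) : Continuous fun t => v t - D.X (x t, t) :=
  h.2.sub (D.X_smooth.continuous.comp (h.cont.prodMk continuous_id))

theorem dev_nonneg : 0 ≤ D.dev x v :=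
  intervalIntegral.integral_nonneg zero_le_one fun _ _ => norm_nonneg _

theorem dev_sq (h : Curve x v) : D.dev x v ^ 2 ≤ 2 * ∫ t in (0 : ℝ)..1, D.lag x v t := by
  have h0 : 0 ≤ ∫ t in (0 : ℝ)..1, D.lag x v t :=
    intervalIntegral.integral_nonneg zero_le_one fun t _ => lag_nonneg t
  rcases (dev_nonneg (D := D) (x := x) (v := v)).eq_or_lt with hU | hU
  · rw [← hU]
    nlinarith
  have h1 : D.dev x v ≤ ∫ t in (0 : ℝ)..1, (D.dev x v / 2 + (D.dev x v)⁻¹ * D.lag x v t) := by
    refine intervalIntegral.integral_mono_on zero_le_one ((u_cont h).norm.intervalIntegrable _ _)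
      ((continuous_const.add (continuous_const.mul (lag_cont h))).intervalIntegrable _ _)
      fun t _ => ?_
    have k1 := norm_sq_le (v t - D.X (x t, t))
    have k2 := D.P_nonneg (x t, t)
    simp only [Pi.sub_apply] at k1
    rw [lag, Lag_proj, ← sub_le_iff_le_add', le_inv_mul_iff₀ hU]
    nlinarith [sq_nonneg (‖v t - D.X (x t, t)‖ - D.dev x v)]
  rw [intervalIntegral.integral_add (by simp)
    (((lag_cont h).intervalIntegrable _ _).const_mul _), intervalIntegral.integral_const,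
    intervalIntegral.integral_const_mul, ← sub_le_iff_le_add', le_inv_mul_iff₀ hU] at h1
  simp only [sub_zero, smul_eq_mul, one_mul] at h1
  nlinarith

variable (D) in
theorem exists_lip : ∃ K : ℝ, 0 < K ∧ ∀ x x' t, ‖D.X (x, t) - D.X (x', t)‖ ≤ K * ‖x - x'‖ := by
  obtain ⟨C, h0, hC⟩ := bdd_of_per (D.X_smooth.continuous_fderiv (by simp))
    fun z m y => fderiv_per (a := 0) (fun y => by rw [D.X_per, add_zero]) y
  refine ⟨C + 1, by linarith, fun x x' t => ?_⟩
  have := Convex.norm_image_sub_le_of_norm_fderiv_le (𝕜 := ℝ) (s := univ) (f := D.X)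
    (fun y _ => D.X_smooth.differentiable (by simp) y) (fun y _ => hC y) convex_univ
    (mem_univ (x', t)) (mem_univ (x, t))
  simp only [Prod.mk_sub_mk, sub_self, Prod.norm_mk, norm_zero, norm_nonneg, max_eq_left] at this
  nlinarith [norm_nonneg (x - x')]

theorem int_le_dev (h : Curve x v) {t : ℝ} (ht : t ∈ Icc (0 : ℝ) 1) :
    ‖∫ s in (0 : ℝ)..t, (v s - D.X (x s, s))‖ ≤ D.dev x v :=
  (intervalIntegral.norm_integral_le_integral_norm ht.1).trans
    (intervalIntegral.integral_mono_interval le_rfl ht.1 ht.2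
      (Eventually.of_forall fun _ => norm_nonneg _) ((u_cont h).norm.intervalIntegrable _ _))

theorem shadow {K : ℝ} (hK0 : 0 < K)
    (hK : ∀ x x' t, ‖D.X (x, t) - D.X (x', t)‖ ≤ K * ‖x - x'‖) (h : Curve x v) {g : ℝ → E d}
    {τ : ℝ} (hτ : τ ≤ 1) (hg : ∀ t ∈ Icc 0 τ, HasDerivAt g (D.X (g t, t)) t) (h0 : g 0 = x 0) :
    ∀ t ∈ Icc 0 τ, ‖x t - g t‖ ≤ Real.exp K * D.dev x v := by
  intro t ht
  have hU := dev_nonneg (D := D) (x := x) (v := v)
  have hd : ∀ s ∈ Icc 0 τ, HasDerivAt
      (fun s => x s - (∫ r in (0 : ℝ)..s, (v r - D.X (x r, r))) - g s)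
      (D.X (x s, s) - D.X (g s, s)) s := fun s hs => by
    have := ((h.1 s).sub ((u_cont (D := D) h).integral_hasStrictDerivAt 0 s).hasDerivAt).sub (hg s hs)
    rwa [sub_sub_cancel] at this
  have hn : ∀ s ∈ Icc 0 τ, ‖x s - g s‖ ≤
      ‖x s - (∫ r in (0 : ℝ)..s, (v r - D.X (x r, r))) - g s‖ + D.dev x v := fun s hs => by
    have k1 := int_le_dev (D := D) h ⟨hs.1, hs.2.trans hτ⟩
    have k2 := norm_add_le (x s - (∫ r in (0 : ℝ)..s, (v r - D.X (x r, r))) - g s)
      (∫ r in (0 : ℝ)..s, (v r - D.X (x r, r)))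
    rw [show x s - (∫ r in (0 : ℝ)..s, (v r - D.X (x r, r))) - g s +
      ∫ r in (0 : ℝ)..s, (v r - D.X (x r, r)) = x s - g s by abel] at k2
    linarith
  have k := norm_le_gronwallBound_of_norm_deriv_right_le (δ := 0) (K := K) (ε := K * D.dev x v)
    (fun s hs => (hd s hs).continuousAt.continuousWithinAt)
    (fun s hs => (hd s (Ico_subset_Icc_self hs)).hasDerivWithinAt) (by simp [h0])
    (fun s hs => (hK _ _ _).trans (by
      rw [← mul_add]
      exact mul_le_mul_of_nonneg_left (hn s (Ico_subset_Icc_self hs)) hK0.le)) t ht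
  rw [gronwallBound_of_K_ne_0 hK0.ne', mul_div_cancel_left₀ _ hK0.ne'] at k
  have k1 : Real.exp (K * (t - 0)) ≤ Real.exp K := Real.exp_le_exp.2 (by nlinarith [ht.2])
  have k2 := hn t ht
  nlinarith

theorem move_le {C : ℝ} (hC : ∀ y, ‖D.X y‖ ≤ C) (h : Curve x v) :
    ‖x 1 - x 0‖ ≤ C + D.dev x v := by
  have hX : Continuous fun t => D.X (x t, t) :=
    D.X_smooth.continuous.comp (h.cont.prodMk continuous_id)
  rw [← intervalIntegral.integral_eq_sub_of_hasDerivAt (fun t _ => h.1 t)
    (h.2.intervalIntegrable _ _)]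
  have k1 := int_le_dev (D := D) h ⟨zero_le_one, le_rfl⟩
  have k2 := intervalIntegral.norm_integral_le_of_norm_le_const (a := 0) (b := 1)
    (f := fun t => D.X (x t, t)) fun t _ => hC _
  rw [intervalIntegral.integral_sub (h.2.intervalIntegrable _ _) (hX.intervalIntegrable _ _)] at k1
  have k3 := norm_sub_norm_le (∫ t in (0 : ℝ)..1, v t) (∫ t in (0 : ℝ)..1, D.X (x t, t))
  simp only [sub_zero, abs_one, mul_one] at k2
  linarith

theorem act_ge (h : Curve x v) (hP : ∀ t ∈ Icc (1 / 16 : ℝ) (3 / 16), D.P (x t, t) = 1) :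
    1 / 8 ≤ ∫ t in (0 : ℝ)..1, D.lag x v t := by
  refine le_trans ?_ (intervalIntegral.integral_mono_interval (a := 1 / 16) (b := 3 / 16)
    (by norm_num) (by norm_num) (by norm_num) (Eventually.of_forall fun t => lag_nonneg t)
    ((lag_cont h).intervalIntegrable _ _))
  have := intervalIntegral.integral_mono_on (f := fun _ => (1 : ℝ)) (g := D.lag x v) (μ := volume)
    (show (1 / 16 : ℝ) ≤ 3 / 16 by norm_num) (by simp) ((lag_cont h).intervalIntegrable _ _)
    fun t ht => by
      have : 0 ≤ ∑ j, (v t j - D.X (x t, t) j) ^ 2 := Finset.sum_nonneg fun j _ => sq_nonneg _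
      rw [lag, Lag_proj, hP t ht]
      linarith
  rw [intervalIntegral.integral_const] at this
  refine le_trans ?_ this
  norm_num

/-- An action bound for all curves gives a subgradient inequality for invariant measures. -/
theorem sub_le {Φ : ℝ → Phase d → Phase d} {r : ℕ} (hT : Tonelli r D.Lag Φ)
    (hc : Continuous fun q : ℝ × Phase d => Φ q.1 q.2) {c : E d} {C : ℝ}
    (H : ∀ x v, Curve x v → ∀ N : ℕ,
      ∑ j, c j * (x N j - x 0 j) ≤ C + ∫ t in (0 : ℝ)..N, D.lag x v t)
    {h' : E d} {μ : Measure (Phase d)} (hμ : μ ∈ Minv Φ h') :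
    ∑ j, c j * h' j ≤ ∫ z, D.Lag z ∂μ := by
  obtain ⟨hprob, ⟨K, hK, h0⟩, hinv, hrot⟩ := hμ
  obtain ⟨CX, hCX0, hCX⟩ := bdd_of_per D.X_smooth.continuous D.X_per
  set g : Phase d → ℝ := fun z => D.Lag z - ∑ j, c j * z.2.1 j with hg
  have hl : Continuous fun z : Phase d => ∑ j, c j * z.2.1 j := by fun_prop
  have hgc : Continuous g := D.Lag_cont.sub hl
  set C1 : ℝ := ∑ j, (c j ^ 2 / 2 + |c j| * CX) with hC1
  have hC10 : 0 ≤ C1 := Finset.sum_nonneg fun j _ => by positivity
  have hlow : ∀ z, -C1 ≤ g z := fun z => by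
    have k : ∑ j, c j * z.2.1 j ≤ ∑ j, ((z.2.1 j - D.X (sec z) j) ^ 2 / 2 +
        (c j ^ 2 / 2 + |c j| * CX)) := Finset.sum_le_sum fun j _ => by
      have k1 : |D.X (sec z) j| ≤ CX := (norm_le_pi_norm _ j).trans (hCX _)
      have k2 : c j * D.X (sec z) j ≤ |c j| * CX := (le_abs_self _).trans (by
        rw [abs_mul]; exact mul_le_mul_of_nonneg_left k1 (abs_nonneg _))
      nlinarith [sq_nonneg (z.2.1 j - D.X (sec z) j - c j)]
    rw [Finset.sum_add_distrib, ← Finset.sum_div] at k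
    simp only [hg, Lag]
    linarith [D.P_nonneg (sec z)]
  have horb : ∀ z (N : ℕ), -(C + 2 * C1) ≤ ∫ s in (0 : ℝ)..(N + 1), g (Φ s z) := fun z N => by
    obtain ⟨x, v, hEL, hx, hv⟩ := hT.complete (sec z).1 z.2.1 (sec z).2
    have hfl : ∀ σ, Φ σ z = proj (x σ) (v σ) ((sec z).2 + σ) := fun σ => by
      rw [← hT.flow _ x v hEL σ, hx, hv, proj_sec]
    have hz : Continuous fun σ => Φ σ z := hc.comp (continuous_id.prodMk continuous_const)
    have hcu : Curve x v := ⟨fun t => (hEL t).1, by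
      simpa only [hfl, proj] using hz.snd.fst⟩
    have ht0 : (sec z).2 ∈ Ico (0 : ℝ) (0 + 1) := (AddCircle.equivIco 1 0 z.2.2).2
    set t₀ := (sec z).2
    have hi : ∀ a b, IntervalIntegrable (fun s => g (Φ s z)) volume a b := fun a b =>
      (hgc.comp hz).intervalIntegrable a b
    have hpc : ∀ a b, a ≤ b → b - a ≤ 1 → -C1 ≤ ∫ s in a..b, g (Φ s z) := fun a b hab h1 => by
      have := intervalIntegral.integral_mono_on (f := fun _ => -C1) hab (by simp) (hi a b)
        fun s _ => hlow _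
      rw [intervalIntegral.integral_const, smul_eq_mul] at this
      nlinarith
    have hcu' := hcu.shift (1 - t₀) 0
    have k1 := H _ _ hcu' N
    have hcv : Continuous fun t => ∑ j, c j * v (t + (1 - t₀)) j :=
      continuous_finsetSum _ fun j _ => continuous_const.mul ((continuous_apply j).comp hcu'.2)
    have k2 : ∫ s in (0 + (1 - t₀))..(N + (1 - t₀)), g (Φ s z) = ∫ t in (0 : ℝ)..N,
        (D.lag (fun t => x (t + (1 - t₀)) - 0) (fun t => v (t + (1 - t₀))) t -
          ∑ j, c j * v (t + (1 - t₀)) j) := by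
      rw [← intervalIntegral.integral_comp_add_right]
      refine intervalIntegral.integral_congr fun t _ => ?_
      simp only [hg, hfl, lag]
      congr 1
      exact congrArg D.Lag (proj_eq_iff.2 ⟨0, 1, by simp [ic_zero], rfl, by push_cast; ring⟩).symm
    have k3 : ∫ t in (0 : ℝ)..N, ∑ j, c j * v (t + (1 - t₀)) j =
        ∑ j, c j * (x (N + (1 - t₀)) - 0) j - ∑ j, c j * (x (0 + (1 - t₀)) - 0) j :=
      intervalIntegral.integral_eq_sub_of_hasDerivAt
        (f := fun t => ∑ j, c j * (x (t + (1 - t₀)) - 0) j) (fun t _ =>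
          HasDerivAt.fun_sum fun j _ => (hasDerivAt_pi.1 (hcu'.1 t) j).const_mul _)
        (hcv.intervalIntegrable _ _)
    rw [intervalIntegral.integral_sub ((lag_cont hcu').intervalIntegrable _ _)
      (hcv.intervalIntegrable _ _), k3, zero_add] at k2
    rw [zero_add] at k1
    simp only [mul_sub, Finset.sum_sub_distrib] at k1
    rw [← intervalIntegral.integral_add_adjacent_intervals (hi 0 (1 - t₀)) (hi _ _),
      ← intervalIntegral.integral_add_adjacent_intervals (hi (1 - t₀) (N + (1 - t₀))) (hi _ _)]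
    have k4 := hpc 0 (1 - t₀) (by linarith [ht0.2]) (by linarith [ht0.1])
    have k5 := hpc (N + (1 - t₀)) (N + 1) (by linarith [ht0.1]) (by linarith [ht0.2])
    linarith
  have hI : ∀ s, ∫ z, g (Φ s z) ∂μ = ∫ z, g z ∂μ := fun s => by
    have := integral_map (μ := μ) (hinv s).measurable.aemeasurable
      (f := g) hgc.aestronglyMeasurable
    rw [(hinv s).map_eq] at this
    exact this.symm
  have hN : ∀ N : ℕ, -(C + 2 * C1) ≤ (N + 1) * ∫ z, g z ∂μ := fun N => by
    obtain ⟨C2, hC2⟩ := ((isCompact_uIcc (a := (0 : ℝ)) (b := N + 1)).prod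
      hK).exists_bound_of_continuousOn (hgc.comp hc).continuousOn
    have hint : Integrable (Function.uncurry fun s z => g (Φ s z))
        ((volume.restrict (uIoc (0 : ℝ) (N + 1))).prod μ) := by
      have : IsFiniteMeasure (volume.restrict (uIoc (0 : ℝ) (N + 1))) :=
        ⟨by simp [uIoc]⟩
      refine Integrable.of_bound (hgc.comp hc).aestronglyMeasurable C2 ?_
      have k1 : ∀ᵐ q ∂(volume.restrict (uIoc (0 : ℝ) (N + 1))).prod μ, q.1 ∈ uIoc (0 : ℝ) (N + 1) :=
        Measure.quasiMeasurePreserving_fst.ae (ae_restrict_mem measurableSet_uIoc)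
      have k2 : ∀ᵐ q ∂(volume.restrict (uIoc (0 : ℝ) (N + 1))).prod μ, q.2 ∈ K :=
        Measure.quasiMeasurePreserving_snd.ae (show ∀ᵐ z ∂μ, z ∈ K from h0)
      filter_upwards [k1, k2] with q h1 h2 using hC2 q ⟨uIoc_subset_uIcc h1, h2⟩
    have k := intervalIntegral_integral_swap hint
    simp only [hI, intervalIntegral.integral_const, sub_zero, smul_eq_mul] at k
    rw [k]
    have k3 : Integrable (fun z => ∫ s in (0 : ℝ)..(N + 1), g (Φ s z)) μ := by
      have := hint.integral_prod_right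
      simp only [intervalIntegral.integral_of_le (show (0 : ℝ) ≤ N + 1 by positivity)]
      rwa [uIoc_of_le (by positivity)] at this
    simpa using integral_mono (integrable_const (-(C + 2 * C1))) k3 fun z => horb z N
  have hpos : 0 ≤ ∫ z, g z ∂μ := by
    by_contra hneg
    rw [not_le] at hneg
    obtain ⟨N, hN'⟩ := exists_nat_gt ((C + 2 * C1) / -∫ z, g z ∂μ)
    rw [div_lt_iff₀ (by linarith)] at hN'
    linarith [hN N]
  have hv : Continuous fun z : Phase d => z.2.1 := by fun_prop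
  have hj : ∀ j, ∫ z : Phase d, z.2.1 j ∂μ = h' j := fun j => by
    rw [← hrot]
    exact (ContinuousLinearMap.proj (R := ℝ) (φ := fun _ : Fin d => ℝ) j).integral_comp_comm
      (Sub_integrable hK h0 hv)
  have hsum : ∫ z : Phase d, ∑ j, c j * z.2.1 j ∂μ = ∑ j, c j * h' j := by
    rw [integral_finsetSum _ fun j _ => Sub_integrable hK h0 (by fun_prop)]
    simp only [integral_const_mul, hj]
  rw [hg, integral_sub (Sub_integrable hK h0 D.Lag_cont) (Sub_integrable hK h0 hl), hsum] at hpos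
  linarith

end Dat

end Pool.Agent.Lib.MP_ce3247_an.Sm
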