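import Pool.Agent.Lib.MP_ce3247_an.Sm.Link
import Pool.Agent.Lib.MP_ce3247_an.AlgM
import Pool.Agent.Lib.MP_ce3247_an.PF

/-! A machine with many very small eigenvalues. -/

open Finset Filter Topology

namespace Pool.Agent.Lib.MP_ce3247_an.Sm

theorem exists_grid {m g : ℕ} {ι : Type} [Fintype ι] (h : Fintype.card ι ≤ g ^ m) {ρ : ℝ}
    (hρ : 0 < ρ) (h1 : ρ * g ≤ 1 / 8) : ∃ p : ι → E (m + 2), (∀ i, ‖p i‖ ≤ 1 / 2) ∧
      (∀ i (j : Fin (m + 2)), m ≤ j.val → p i j = 0) ∧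
      ∀ i i', ‖p i - p i'‖ < 3 * ρ → i = i' := by
  obtain ⟨φ⟩ : Nonempty (ι ↪ (Fin m → Fin g)) :=
    Function.Embedding.nonempty_of_card_le (by simpa using h)
  refine ⟨fun i j => if hj : j.val < m then 3 * ρ * (φ i ⟨j, hj⟩ : ℕ) else 0, fun i => ?_,
    fun i j hj => dif_neg (by omega), fun i i' hi => φ.injective (funext fun j => ?_)⟩
  · refine (pi_norm_le_iff_of_nonneg (by norm_num)).2 fun j => ?_
    beta_reduce
    split_ifs with hj
    · have : ((φ i ⟨j, hj⟩ : ℕ) : ℝ) ≤ g := by exact_mod_cast (φ i ⟨j, hj⟩).2.le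
      rw [Real.norm_of_nonneg (by positivity)]
      nlinarith
    · simp
  · have k := (norm_le_pi_norm _ (⟨j, by omega⟩ : Fin (m + 2))).trans_lt hi
    simp only [Pi.sub_apply, dif_pos j.2, Fin.eta, ← mul_sub, Real.norm_eq_abs, abs_mul] at k
    rw [abs_of_pos hρ, abs_of_pos three_pos] at k
    exact Fin.ext (nat_close (by nlinarith))

theorem ks_eq {n : ℕ} {Y : Type} [NormedAddCommGroup Y] {M : Pre (Fin n) Y}
    {A : Matrix (Fin n) (Fin n) ℕ} {G : Type} [AddCommMonoid G]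
    (h : ∀ b (g : Fin n → G), ∑ i ∈ range (M.len b), g (M.w b i) = ∑ a, A a b • g a)
    (e : Fin n → G) (p : ℕ) : ∀ b, M.ks e p b = ∑ a, (A ^ p) a b • e a := by
  induction p with
  | zero => intro b; simp [Pre.ks, Matrix.one_apply]
  | succ p ih =>
    intro b
    rw [Pre.ks, h b (M.ks e p)]
    simp only [ih, pow_succ, Matrix.mul_apply, smul_sum, sum_smul, smul_smul]
    rw [sum_comm]
    exact sum_congr rfl fun a _ => sum_congr rfl fun a' _ => by rw [mul_comm]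

theorem exists_sys {k m s : ℕ} (hs : 1 ≤ s) (hk : s ≤ k) (h : s * (m + 2) < (k + 1 - s) * m)
    (e : Fin (k + 1) → Fin (m + 2) → ℤ) :
    ∃ (S : Sys (m + 2) (Fin (k + 1))) (c : Fin s → Fin (k + 1) → ℝ) (f : Fin (k + 1) → ℝ)
      (lam : Fin s → ℝ) (Lm : ℝ), S.e = e ∧
      (∀ b, 2 ≤ S.len b) ∧ S.w 0 0 = 0 ∧ (∀ b, (S.len b : ℝ) ≤ Lm) ∧
      (∀ u b, ∑ i ∈ range (S.len b), c u (S.w b i) = lam u * c u b) ∧ 1 ≤ Lm ∧
      (∀ u, |lam u| * (8 * Lm / S.ρ ^ 2) ≤ 1) ∧ LinearIndependent ℝ c ∧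
      (∀ u, ∑ a, c u a * f a = 0) ∧
      (∀ q : Fin (k + 1) → ℤ, ∑ j, (q j : ℝ) * f j = 0 → q = 0) ∧
      Tendsto (fun n => ((S.ks (fun _ => 1) n 0 : ℕ) : ℝ)⁻¹ • ic (S.ks e n 0)) atTop
        (𝓝 (∑ a, f a • ic (e a))) := by
  have hm : m ≠ 0 := by
    rintro rfl
    simp at h
  obtain ⟨S, x, x1, x2, x3, hS, x4⟩ := exists_algM hs hk h
  obtain ⟨c1, c2, hc1, hc2, hcol⟩ := Alg2_cols S
  have hl1 : 1 ≤ S.l1 := S.one_lt.le
  set κ : ℝ := 4608 ^ m * ((k + 1) * c2) ^ (m + 2) with hκ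
  have hκ0 : 0 < κ := by positivity
  have e3 : ∀ᶠ p : ℕ in atTop, (|S.ls| ^ m * S.l1 ^ (m + 2)) ^ p < 1 / κ :=
    (tendsto_pow_atTop_nhds_zero_of_lt_one (by positivity) hS).eventually
      (gt_mem_nhds (by positivity))
  obtain ⟨p, h1, h3⟩ := ((eventually_ge_atTop (2 * (k + 1))).and e3).exists
  have htwo := S.two_le p h1
  obtain ⟨w, hw0, -, hws⟩ := exists_words (S.A0 ^ p) (fun b => htwo 0 b)
  have hleft := fun u => Alg2_left S.A0 _ _ (x4 u) p
  set len : Fin (k + 1) → ℕ := fun b => ∑ a, (S.A0 ^ p) a b with hlen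
  have h2 : ∀ b, 2 ≤ len b := fun b => (htwo 0 b).trans
    (single_le_sum (f := fun a => (S.A0 ^ p) a b) (fun _ _ => Nat.zero_le _) (mem_univ 0))
  set N := ∑ b, len b with hN
  have hb : ∀ b, len b ≤ N := fun b => single_le_sum (fun _ _ => Nat.zero_le _) (mem_univ b)
  have hN1 : 1 ≤ N := by linarith [h2 0, hb 0]
  have hN2 : (N : ℝ) ≤ (k + 1) * c2 * S.l1 ^ p := by
    have := sum_le_sum (s := univ) fun b _ => (hcol p b).2
    simp only [sum_const, card_univ, Fintype.card_fin, nsmul_eq_mul] at this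
    rw [hN, Nat.cast_sum, mul_assoc]
    exact_mod_cast this
  obtain ⟨g, hg1, hg2⟩ := Alg2_root (d := m) hN1 (by omega)
  have hg : (0 : ℝ) ≤ g := Nat.cast_nonneg g
  have hρ : (0 : ℝ) < (8 * ((g : ℝ) + 1))⁻¹ := by positivity
  obtain ⟨q, hq1, hq2, hq3⟩ := exists_grid (ι := Σ b, Fin (len b)) (m := m) (g := g)
    (by simpa using hg1) hρ (by rw [inv_mul_le_iff₀ (by positivity)]; linarith)
  refine ⟨{ len := len, w := w, ρ := (8 * ((g : ℝ) + 1))⁻¹
            p := fun b i => if hi : i < len b then q ⟨b, i, hi⟩ else 0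
            len_pos := fun b => by linarith [h2 b]
            ρ_pos := hρ
            ρ_le := by rw [inv_le_comm₀ (by positivity) (by norm_num)]; linarith
            sep := fun b i b' i' hi hi' hh => ?_
            iw := ⟨m, by omega⟩, ip := ⟨m + 1, by omega⟩, e := e
            ne := fun hh => by simpa using congrArg Fin.val hh
            p_le := fun b i => ?_
            p_zero := fun b i => ?_ }, fun u a => x u ^ (a : ℕ), S.f, fun u => x u ^ p, N, rfl, h2,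
    hw0 0, fun b => by exact_mod_cast hb b, fun u b => ?_, by exact_mod_cast hN1, fun u => ?_, ?_,
    fun u => AlgM_orth S (x2 u) (x4 u), fun q hq => ?_, ?_⟩
  · rw [dif_pos hi, dif_pos hi'] at hh
    have := hq3 _ _ hh
    cases this
    exact ⟨rfl, rfl⟩
  · split_ifs
    · exact hq1 _
    · simp
  · split_ifs
    · exact ⟨hq2 _ _ le_rfl, hq2 _ _ (Nat.le_succ m)⟩
    · exact ⟨rfl, rfl⟩
  · refine (hws ℝ b fun a => x u ^ (a : ℕ)).trans ?_
    rw [← hleft u b]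
    exact sum_congr rfl fun a _ => by rw [nsmul_eq_mul, mul_comm]
  · refine le_trans (mul_le_mul_of_nonneg_right (show |x u ^ p| ≤ |S.ls ^ p| by
      rw [abs_pow, abs_pow]
      exact pow_le_pow_left₀ (abs_nonneg _) (x3 u) p) (by positivity)) ?_
    rw [← pow_le_one_iff_of_nonneg (by positivity) hm]
    have hg3 : ((g : ℝ) + 1) ^ m ≤ 3 ^ m * N := by exact_mod_cast hg2
    rw [lt_div_iff₀ hκ0] at h3
    calc (|S.ls ^ p| * (8 * (N : ℝ) / (8 * ((g : ℝ) + 1))⁻¹ ^ 2)) ^ m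
        = |S.ls ^ p| ^ m * (512 ^ m * N ^ m * ((g + 1) ^ m) ^ 2) := by
          rw [inv_pow, div_inv_eq_mul, show 8 * (N : ℝ) * (8 * ((g : ℝ) + 1)) ^ 2 =
            512 * N * (g + 1) ^ 2 by ring, mul_pow, mul_pow, mul_pow, ← pow_mul, mul_comm 2 m,
            pow_mul]
      _ ≤ |S.ls ^ p| ^ m * (512 ^ m * N ^ m * (3 ^ m * N) ^ 2) := by gcongr
      _ = |S.ls ^ p| ^ m * (4608 ^ m * N ^ (m + 2)) := by
          rw [show (4608 : ℝ) = 512 * (3 * 3) by norm_num, mul_pow 512, mul_pow 3 3]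
          ring
      _ ≤ |S.ls ^ p| ^ m * (4608 ^ m * ((k + 1) * c2 * S.l1 ^ p) ^ (m + 2)) := by gcongr
      _ = (|S.ls| ^ m * S.l1 ^ (m + 2)) ^ p * κ := by
          rw [hκ, abs_pow, mul_pow _ (S.l1 ^ p)]
          ring
      _ ≤ 1 := h3.le
  · refine Fintype.linearIndependent_iff.2 fun g hg => congrFun
      (Matrix.eq_zero_of_forall_pow_sum_mul_pow_eq_zero x1 fun n => ?_)
    simpa using congrFun hg ⟨n, by omega⟩
  · have h := Fintype.linearIndependent_iff.1 S.f_ind (fun j => (q j : ℚ)) (by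
      rw [← hq]
      exact sum_congr rfl fun j _ => by rw [Rat.smul_def]; norm_cast)
    funext j
    exact_mod_cast h j
  · have hp := perron_tendsto (S.A0 ^ p) (fun a b => le_trans (by norm_num) (htwo a b)) S.f_pos
      S.f_sum (Alg2_right S.A0 S.f S.l1 S.f_right p)
    refine (tendsto_finsetSum univ fun a _ => (hp a).smul_const (ic (e a))).congr fun n => ?_
    rw [ks_eq (A := S.A0 ^ p) (hws _), ks_eq (A := S.A0 ^ p) (hws _)]
    funext j
    simp only [ic, Finset.sum_apply, Pi.smul_apply, smul_eq_mul, mul_one, nsmul_eq_mul]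
    push_cast
    rw [mul_sum]
    exact sum_congr rfl fun a _ => by simp only [Pi.mul_apply, Pi.natCast_apply]; push_cast; ring

end Pool.Agent.Lib.MP_ce3247_an.Sm
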