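import Pool.Agent.Lib.MP_ce3247_an.Alg1

/-! The companion matrix again, with the sharper bound `|ls| ^ m * l1 ^ (m + 2) < 1`. -/

open Finset

namespace Pool.Agent.Lib.MP_ce3247_an.Sm

/-- The coefficients of `2 + 20000 x + 2 x^k`. -/
private def SmA_a (k j : ℕ) : ℕ :=
  (if j = 0 then 2 else 0) + (if j = 1 then 20000 else 0) + (if j = k then 2 else 0)

/-- The companion matrix. -/
private def SmA_A (k : ℕ) : Matrix (Fin (k + 1)) (Fin (k + 1)) ℕ := fun i b =>
  if (b : ℕ) < k then (if (i : ℕ) = b + 1 then 1 else 0) else SmA_a k i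

private lemma SmA_sum {k : ℕ} (hk : 1 ≤ k) (r : ℝ) :
    ∑ i ∈ range (k + 1), (SmA_a k i : ℝ) * r ^ i = 2 + 20000 * r + 2 * r ^ k := by
  simp only [SmA_a, Nat.cast_add, Nat.cast_ite, add_mul, ite_mul, sum_add_distrib, Nat.cast_zero,
    zero_mul, sum_ite_eq', mem_range]
  rw [if_pos (by omega), if_pos (by omega), if_pos (by omega)]
  norm_num

private lemma SmA_left {k : ℕ} (hk : 1 ≤ k) {r : ℝ} (hr : r ^ (k + 1) = 2 + 20000 * r + 2 * r ^ k)
    (b : Fin (k + 1)) : ∑ a : Fin (k + 1), r ^ (a : ℕ) * (SmA_A k a b : ℝ) = r * r ^ (b : ℕ) := by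
  by_cases hb : (b : ℕ) < k
  · rw [Finset.sum_eq_single (⟨b + 1, by omega⟩ : Fin (k + 1))]
    · simp [SmA_A, hb, pow_succ']
    · intro a _ ha
      have : (a : ℕ) ≠ b + 1 := fun h => ha (Fin.ext h)
      simp [SmA_A, hb, this]
    · simp
  · have hb' : (b : ℕ) = k := by omega
    simp only [SmA_A, if_neg hb]
    rw [Fin.sum_univ_eq_sum_range (fun a => r ^ a * (SmA_a k a : ℝ)) (k + 1), hb', ← pow_succ', hr,
      ← SmA_sum hk]
    exact sum_congr rfl fun _ _ => mul_comm _ _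

private lemma SmA_row {k : ℕ} (g : ℕ → ℝ) (a : Fin (k + 1)) :
    ∑ b : Fin (k + 1), (SmA_A k a b : ℝ) * g b =
      (if (a : ℕ) = 0 then 0 else g (a - 1)) + SmA_a k a * g k := by
  rw [Fin.sum_univ_castSucc]
  congr 1
  · split_ifs with h
    · refine sum_eq_zero fun b _ => ?_
      simp [SmA_A, h]
    · rw [Finset.sum_eq_single (⟨a - 1, by omega⟩ : Fin k)]
      · have h1 : (a : ℕ) - 1 < k := by omega
        have h2 : (a : ℕ) = a - 1 + 1 := by omega
        simp only [SmA_A, Fin.val_castSucc, if_pos h1, if_pos h2, Nat.cast_one, one_mul]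
      · intro b _ hb
        have : (a : ℕ) ≠ b + 1 := fun h' => hb (Fin.ext (by simp only; omega))
        simp [SmA_A, this]
      · simp
  · simp [SmA_A]

/-- The right eigenvector before normalisation. -/
private noncomputable def SmA_g (k : ℕ) (l : ℝ) (j : ℕ) : ℝ :=
  (∑ i ∈ range (j + 1), (SmA_a k i : ℝ) * l ^ i) / l ^ (j + 1)

private lemma SmA_g_pos (k : ℕ) {l : ℝ} (hl : 0 < l) (j : ℕ) : 0 < SmA_g k l j := by
  refine div_pos (sum_pos' (fun i _ => by positivity) ⟨0, by simp, ?_⟩) (by positivity)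
  have : 0 < SmA_a k 0 := by simp [SmA_a]
  positivity

private lemma SmA_right {k : ℕ} (hk : 1 ≤ k) {l : ℝ} (hl : 0 < l)
    (hr : l ^ (k + 1) = 2 + 20000 * l + 2 * l ^ k) (a : Fin (k + 1)) :
    ∑ b : Fin (k + 1), (SmA_A k a b : ℝ) * SmA_g k l b = l * SmA_g k l a := by
  have h1 : SmA_g k l k = 1 := by
    rw [SmA_g, SmA_sum hk, ← hr, div_self (by positivity)]
  rw [SmA_row, h1, mul_one]
  obtain ⟨j, hj⟩ := a
  rcases j with _ | j
  · simp [SmA_g]
    field_simp
  · simp only [Nat.succ_ne_zero, if_false, Nat.add_sub_cancel, SmA_g]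
    rw [sum_range_succ _ (j + 1)]
    field_simp
    ring

private lemma SmA_last {k : ℕ} (n : ℕ) : ∀ a : Fin (k + 1), ((a : ℕ) ≤ n ∨ (a : ℕ) = k) →
    2 ≤ (SmA_A k ^ (n + 1)) a (Fin.last k) := by
  have h0 : ∀ a : Fin (k + 1), ((a : ℕ) = 0 ∨ (a : ℕ) = k) → 2 ≤ SmA_A k a (Fin.last k) := by
    intro a ha
    simp only [SmA_A, Fin.val_last, lt_irrefl, if_false, SmA_a]
    rcases ha with h | h
    · rw [if_pos h]; omega
    · rw [if_pos h]; omega
  induction n with
  | zero => intro a ha; rw [zero_add, pow_one]; exact h0 a (by omega)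
  | succ n ih =>
    intro a ha
    rw [pow_succ', Matrix.mul_apply]
    by_cases h : (a : ℕ) = 0 ∨ (a : ℕ) = k
    · refine le_trans ?_ (single_le_sum (fun _ _ => Nat.zero_le _) (mem_univ (Fin.last k)))
      have h1 := h0 a h
      have h2 := ih (Fin.last k) (Or.inr rfl)
      nlinarith
    · have hlt := a.2
      refine le_trans ?_ (single_le_sum (fun _ _ => Nat.zero_le _)
        (mem_univ (⟨a - 1, by omega⟩ : Fin (k + 1))))
      have h1 : (a : ℕ) - 1 < k := by omega
      have h2 : (a : ℕ) = a - 1 + 1 := by omega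
      have h3 := ih ⟨a - 1, by omega⟩ (Or.inl (by simp only; omega))
      simp only [SmA_A, if_pos h1, if_pos h2, one_mul] at h3 ⊢
      exact h3

private lemma SmA_two {k : ℕ} (m : ℕ) : ∀ b : Fin (k + 1), (b : ℕ) + m = k → ∀ n, k + m ≤ n →
    ∀ a, 2 ≤ (SmA_A k ^ (n + 1)) a b := by
  induction m with
  | zero =>
    intro b hb n hn a
    have : b = Fin.last k := Fin.ext (by simpa using hb)
    have ha := a.2
    exact this ▸ SmA_last n a (Or.inl (by omega))
  | succ m ih =>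
    intro b hb n hn a
    obtain ⟨n, rfl⟩ : ∃ n', n = n' + 1 := ⟨n - 1, by omega⟩
    rw [pow_succ, Matrix.mul_apply]
    refine le_trans ?_ (single_le_sum (fun _ _ => Nat.zero_le _)
      (mem_univ (⟨b + 1, by omega⟩ : Fin (k + 1))))
    have h1 : (b : ℕ) < k := by omega
    have h3 := ih ⟨b + 1, by omega⟩ (by simp only; omega) n (by omega) a
    have h4 : SmA_A k ⟨b + 1, by omega⟩ b = 1 := by simp [SmA_A, h1]
    rw [h4, mul_one]
    exact h3

open Polynomial in
private lemma SmA_deg {k : ℕ} (hk : 1 ≤ k) {l : ℝ}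
    (hr : l ^ (k + 1) = 2 + 20000 * l + 2 * l ^ k) : (minpoly ℚ l).natDegree = k + 1 := by
  let q : ℤ[X] := C 2 * (1 + C 10000 * X + X ^ k)
  let p : ℤ[X] := X ^ (k + 1) - q
  have hq : q.degree < (k + 1 : ℕ) := by
    have : q.natDegree ≤ k := by
      refine (natDegree_C_mul_le _ _).trans ((natDegree_add_le _ _).trans (max_le
        ((natDegree_add_le _ _).trans (max_le (by simp) ?_)) (by simp)))
      exact (natDegree_C_mul_le _ _).trans (by simpa using hk)
    exact lt_of_le_of_lt (degree_le_of_natDegree_le this) (by exact_mod_cast Nat.lt_succ_self k)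
  have hm : p.Monic := monic_X_pow_sub hq
  have hd : p.natDegree = k + 1 := by
    apply natDegree_eq_of_degree_eq_some
    rw [degree_sub_eq_left_of_degree_lt (by rwa [degree_X_pow]), degree_X_pow]
  have hP : (Ideal.span {(2 : ℤ)}).IsPrime := (Ideal.span_singleton_prime two_ne_zero).2 Int.prime_two
  have hE : p.IsEisensteinAt (Ideal.span {(2 : ℤ)}) := by
    refine hm.isEisensteinAt_of_mem_of_notMem hP.ne_top (fun {n} hn => ?_) ?_
    · rw [hd] at hn
      rw [Ideal.mem_span_singleton, coeff_sub, coeff_X_pow, if_neg hn.ne, zero_sub, coeff_C_mul]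
      exact (dvd_mul_right _ _).neg_right
    · have hk' : (0 : ℕ) ≠ k := by omega
      rw [Ideal.span_singleton_pow, Ideal.mem_span_singleton]
      simp [p, q, coeff_X_pow, hk']
  have hI := (IsPrimitive.Int.irreducible_iff_irreducible_map_cast hm.isPrimitive).1
    (hE.irreducible hP hm.isPrimitive (by omega))
  have h0 : aeval l (p.map (Int.castRingHom ℚ)) = 0 := by
    simp [p, q, hr, map_ofNat]
    ring
  rw [← minpoly.eq_of_irreducible_of_monic hI h0 (hm.map _), hm.natDegree_map, hd]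

private lemma SmA_ind {k : ℕ} {A : Matrix (Fin (k + 1)) (Fin (k + 1)) ℕ} {l : ℝ}
    (hl : (minpoly ℚ l).natDegree = k + 1) {f : Fin (k + 1) → ℝ} (h0 : f 0 ≠ 0)
    (hf : ∀ a, ∑ b, (A a b : ℝ) * f b = l * f a) : LinearIndependent ℚ f := by
  set V := Submodule.span ℚ (Set.range f) with hV
  have h1 : ∀ x ∈ V, l * x ∈ V := fun x hx => by
    induction hx using Submodule.span_induction with
    | mem x hx =>
      obtain ⟨a, rfl⟩ := hx
      rw [← hf]
      refine Submodule.sum_mem _ fun b _ => ?_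
      rw [← nsmul_eq_mul]
      exact nsmul_mem (Submodule.subset_span (Set.mem_range_self b)) _
    | zero => simp
    | add x y _ _ hx hy => rw [mul_add]; exact V.add_mem hx hy
    | smul c x _ hx => rw [mul_smul_comm]; exact V.smul_mem c hx
  have h2 : ∀ n : ℕ, l ^ n * f 0 ∈ V := fun n => by
    induction n with
    | zero => rw [pow_zero, one_mul]; exact Submodule.subset_span ⟨0, rfl⟩
    | succ n ih => rw [pow_succ', mul_assoc]; exact h1 _ ih
  have h3 : LinearIndependent ℚ fun i : Fin (minpoly ℚ l).natDegree => l ^ (i : ℕ) * f 0 :=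
    (linearIndependent_pow (K := ℚ) l).map' (LinearMap.mulRight ℚ (f 0))
      (LinearMap.ker_eq_bot.2 fun x y h => mul_right_cancel₀ h0 h)
  have h4 : LinearIndependent ℚ fun i : Fin (minpoly ℚ l).natDegree =>
      (⟨l ^ (i : ℕ) * f 0, h2 i⟩ : V) := LinearIndependent.of_comp V.subtype h3
  have : Module.Finite ℚ V := Module.Finite.span_of_finite ℚ (Set.finite_range f)
  have h5 := h4.fintype_card_le_finrank
  rw [linearIndependent_iff_card_le_finrank_span]
  simpa [hl, Set.finrank] using h5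

private lemma SmA_root {k : ℕ} {u v : ℝ} (huv : u ≤ v)
    (h : (u ^ (k + 1) - (2 + 20000 * u + 2 * u ^ k)) * (v ^ (k + 1) - (2 + 20000 * v + 2 * v ^ k))
      < 0) : ∃ r, u < r ∧ r < v ∧ r ^ (k + 1) = 2 + 20000 * r + 2 * r ^ k := by
  have hc : ContinuousOn (fun r : ℝ => r ^ (k + 1) - (2 + 20000 * r + 2 * r ^ k)) (Set.Icc u v) := by
    fun_prop
  rcases mul_neg_iff.1 h with h | h
  · obtain ⟨r, hr, h0⟩ := intermediate_value_Ioo' huv hc (show (0 : ℝ) ∈ Set.Ioo _ _ from ⟨h.2, h.1⟩)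
    exact ⟨r, hr.1, hr.2, sub_eq_zero.1 h0⟩
  · obtain ⟨r, hr, h0⟩ := intermediate_value_Ioo huv hc (show (0 : ℝ) ∈ Set.Ioo _ _ from ⟨h.1, h.2⟩)
    exact ⟨r, hr.1, hr.2, sub_eq_zero.1 h0⟩

private lemma SmA_small {k : ℕ} (hk : 1 ≤ k) :
    ∃ r : ℝ, -(1 / 5000) < r ∧ r < 0 ∧ r ^ (k + 1) = 2 + 20000 * r + 2 * r ^ k := by
  refine SmA_root (by norm_num) (mul_neg_of_pos_of_neg ?_ ?_)
  · have h : ∀ n : ℕ, n ≠ 0 → |(-(1 / 5000) : ℝ) ^ n| ≤ 1 / 5000 := fun n hn => by
      rw [abs_pow, abs_neg, abs_of_pos (by norm_num)]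
      exact pow_le_of_le_one (by norm_num) (by norm_num) hn
    have h1 := abs_le.1 (h k (by omega))
    have h2 := abs_le.1 (h (k + 1) (by omega))
    linarith [h1.2, h2.1]
  · rw [zero_pow (by omega), zero_pow (by omega)]
    norm_num

private lemma SmA_big {k m : ℕ} (hk : 2 ≤ k) (hm : 2 ≤ m) (h : 5 ≤ k + m) :
    ∃ r : ℝ, 1 < r ∧ (1 / 5000) ^ m * r ^ (m + 2) < 1 ∧
      r ^ (k + 1) = 2 + 20000 * r + 2 * r ^ k := by
  have key : ∀ (U : ℝ) (n : ℕ), 1 ≤ U → U ≤ 5000 → n ≤ m → (U / 5000) ^ n * U ^ 2 < 1 →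
      2 + 20000 * U + 2 * U ^ k < U ^ (k + 1) → ∃ r : ℝ, 1 < r ∧
        (1 / 5000) ^ m * r ^ (m + 2) < 1 ∧ r ^ (k + 1) = 2 + 20000 * r + 2 * r ^ k := by
    intro U n h1 h2 h3 h4 h5
    obtain ⟨r, k1, k2, k3⟩ := SmA_root (k := k) h1
      (mul_neg_of_neg_of_pos (by norm_num) (by linarith))
    refine ⟨r, k1, lt_of_le_of_lt ?_ h4, k3⟩
    have k4 : (U / 5000) ^ m ≤ (U / 5000) ^ n :=
      pow_le_pow_of_le_one (by positivity) (by linarith) h3
    calc (1 / 5000) ^ m * r ^ (m + 2) ≤ (1 / 5000) ^ m * U ^ (m + 2) := by gcongr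
      _ = (U / 5000) ^ m * U ^ 2 := by ring
      _ ≤ _ := by gcongr
  rcases hk.eq_or_lt with rfl | hk
  · exact key 143 3 (by norm_num) (by norm_num) (by omega) (by norm_num) (by norm_num)
  · refine key 29 2 (by norm_num) (by norm_num) hm (by norm_num) ?_
    have : (29 : ℝ) ^ 3 ≤ 29 ^ k := pow_le_pow_right₀ (by norm_num) hk
    rw [pow_succ]
    linarith

theorem exists_alg0 {k m : ℕ} (hk2 : 2 ≤ k) (hm : 2 ≤ m) (h : 5 ≤ k + m) :
    ∃ S : Alg0 k, |S.ls| ^ m * S.l1 ^ (m + 2) < 1 := by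
  have hk : 1 ≤ k := by omega
  obtain ⟨l, hl1, hlU, hl⟩ := SmA_big hk2 hm h
  obtain ⟨r, hr1, hr0, hr⟩ := SmA_small hk
  have hl0 : 0 < l := by linarith
  set Z := ∑ a : Fin (k + 1), SmA_g k l a with hZ
  have hZ0 : 0 < Z := sum_pos (fun a _ => SmA_g_pos k hl0 a) univ_nonempty
  have hright : ∀ a : Fin (k + 1), ∑ b : Fin (k + 1), (SmA_A k a b : ℝ) * (SmA_g k l b / Z) =
      l * (SmA_g k l a / Z) := fun a => by
    simp only [← mul_div_assoc]
    rw [← sum_div, SmA_right hk hl0 hl]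
  refine ⟨{ A0 := SmA_A k
            l1 := l
            ls := r
            y := fun a => l ^ (a : ℕ)
            ct := fun a => r ^ (a : ℕ)
            f := fun a => SmA_g k l a / Z
            two_le := fun p hp a b => ?_
            one_lt := hl1
            ls_lt := abs_lt.2 ⟨by linarith, by linarith⟩
            y_pos := fun a => by positivity
            y_left := SmA_left hk hl
            ct_left := SmA_left hk hr
            ct_ne := ⟨⟨1, by omega⟩, by simp; linarith⟩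
            f_pos := fun a => div_pos (SmA_g_pos k hl0 a) hZ0
            f_sum := by rw [← sum_div, div_self hZ0.ne']
            f_right := hright
            f_ind := SmA_ind (SmA_deg hk hl) (div_pos (SmA_g_pos k hl0 _) hZ0).ne' hright }, ?_⟩
  · obtain ⟨n, rfl⟩ : ∃ n, p = n + 1 := ⟨p - 1, by omega⟩
    have hb := b.2
    exact SmA_two (k - b) b (by omega) n (by omega) a
  · change |r| ^ m * l ^ (m + 2) < 1
    have h1 : |r| ≤ 1 / 5000 := abs_le.2 ⟨by linarith, by linarith⟩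
    exact lt_of_le_of_lt (by gcongr) hlU

end Pool.Agent.Lib.MP_ce3247_an.Sm
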