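import Pool.Agent.Lib.MP_ce3247_an.Sm.PerS

/-! A smooth periodic vector field whose time one map is a given affine map on each of finitely
many boxes. -/

open Filter Topology Set
open scoped ContDiff Pointwise

namespace Pool.Agent.Lib.MP_ce3247_an.Sm

/-- Finitely many boxes with diagonal affine maps and integer displacements. -/
structure Boxes (d : ℕ) (B : Type) where
  ip : Fin d
  C : B → E d
  T : B → E d
  r : B → E d
  D : B → E d
  disp : B → Fin d → ℤ
  lev : B → ℝ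
  μ : ℝ
  μ_pos : 0 < μ
  D_pos : ∀ β j, 0 < D β j
  C_ip : ∀ β, C β ip = 0
  T_ip : ∀ β, T β ip = 0
  D_ip : ∀ β, D β ip = 1
  C_le : ∀ β j, |C β j| + r β j ≤ 1 / 4
  T_le : ∀ β j, |T β j| + D β j * r β j ≤ 1 / 4
  lev_mem : ∀ β, 0 ≤ lev β ∧ lev β ≤ 1 / 4
  lev_sep : ∀ β β', |lev β - lev β'| ≤ r β ip + r β' ip → β = β'
  C_sep : ∀ β β', (∀ j, j ≠ ip → |C β j - C β' j| ≤ r β j + r β' j) → β = β'
  T_sep : ∀ β β', (∀ j, j ≠ ip → |T β j - T β' j| ≤ D β j * r β j + D β' j * r β' j) → β = β'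

theorem int_small {n : ℤ} (h : |(n : ℝ)| < 1) : n = 0 := by
  have : |n| < 1 := by exact_mod_cast h
  exact Int.abs_lt_one_iff.1 this

/-- A smooth switch from `0` to `1` on `[a, a + 1 / 8]`. -/
noncomputable def sw (a t : ℝ) : ℝ := Real.smoothTransition (8 * (t - a))

theorem sw_smooth (a : ℝ) : ContDiff ℝ ∞ (sw a) :=
  Real.smoothTransition.contDiff.comp (contDiff_const.mul (contDiff_id.sub contDiff_const))

theorem sw_zero {a t : ℝ} (h : t ≤ a) : sw a t = 0 :=
  Real.smoothTransition.zero_of_nonpos (by linarith)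

theorem sw_one {a t : ℝ} (h : a + 1 / 8 ≤ t) : sw a t = 1 :=
  Real.smoothTransition.one_of_one_le (by linarith)

theorem sw_mem (a t : ℝ) : 0 ≤ sw a t ∧ sw a t ≤ 1 :=
  ⟨Real.smoothTransition.nonneg _, Real.smoothTransition.le_one _⟩

theorem sw_deriv (a t : ℝ) : HasDerivAt (sw a) (deriv (sw a) t) t :=
  ((sw_smooth a).differentiable (by simp) t).hasDerivAt

theorem dsw_smooth (a : ℝ) : ContDiff ℝ ∞ (deriv (sw a)) :=
  (contDiff_infty_iff_deriv.1 (sw_smooth a)).2

theorem dsw_zero {a t : ℝ} (h : t < a ∨ a + 1 / 8 < t) : deriv (sw a) t = 0 := by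
  rcases h with h | h
  · have : sw a =ᶠ[𝓝 t] fun _ => 0 := (eventually_lt_nhds h).mono fun s hs => sw_zero hs.le
    rw [this.deriv_eq, deriv_const]
  · have : sw a =ᶠ[𝓝 t] fun _ => 1 := (eventually_gt_nhds h).mono fun s hs => sw_one hs.le
    rw [this.deriv_eq, deriv_const]

namespace Boxes

variable {d : ℕ} {B : Type} (G : Boxes d B)

/-- The box of `β`, shrunk by `s`. -/
def box (β : B) (s : ℝ) : Set (E d) := {x | ∀ j, |x j - G.C β j| ≤ G.r β j - s}

/-- The affine map of `β`. -/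
def map (β : B) (x : E d) : E d := fun j => G.T β j + G.disp β j + G.D β j * (x j - G.C β j)

/-- The moving centre, with switches `a`, `b`, `c`. -/
noncomputable def ctr (β : B) (a b c : ℝ) (j : Fin d) : ℝ :=
  if j = G.ip then a * G.lev β + c * (G.disp β j - G.lev β)
  else b * (G.T β j + G.disp β j - G.C β j)

/-- The path of the point `x` of the box of `β`. -/
noncomputable def path (β : B) (x : E d) (t : ℝ) : E d := fun j =>
  G.C β j + G.ctr β (sw (1 / 4) t) (sw (3 / 8) t) (sw (1 / 2) t) j +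
    Real.exp (sw (3 / 8) t * Real.log (G.D β j)) * (x j - G.C β j)

/-- The vector field of these paths. -/
noncomputable def V (β : B) (y : E d × ℝ) : E d := fun j =>
  G.ctr β (deriv (sw (1 / 4)) y.2) (deriv (sw (3 / 8)) y.2) (deriv (sw (1 / 2)) y.2) j +
    deriv (sw (3 / 8)) y.2 * Real.log (G.D β j) *
      (y.1 j - G.C β j - G.ctr β (sw (1 / 4) y.2) (sw (3 / 8) y.2) (sw (1 / 2) y.2) j)

theorem ctr_smooth {W : Type} [NormedAddCommGroup W] [NormedSpace ℝ W] {a b c : W → ℝ}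
    (ha : ContDiff ℝ ∞ a) (hb : ContDiff ℝ ∞ b) (hc : ContDiff ℝ ∞ c) (β : B) (j : Fin d) :
    ContDiff ℝ ∞ fun y => G.ctr β (a y) (b y) (c y) j := by
  unfold ctr
  split_ifs
  · exact (ha.mul contDiff_const).add (hc.mul contDiff_const)
  · exact hb.mul contDiff_const

theorem V_smooth (β : B) : ContDiff ℝ ∞ (G.V β) := by
  have h1 : ∀ a, ContDiff ℝ ∞ fun y : E d × ℝ => sw a y.2 := fun a =>
    (sw_smooth a).comp contDiff_snd
  have h2 : ∀ a, ContDiff ℝ ∞ fun y : E d × ℝ => deriv (sw a) y.2 := fun a =>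
    (dsw_smooth a).comp contDiff_snd
  refine contDiff_pi.2 fun j => (G.ctr_smooth (h2 _) (h2 _) (h2 _) β j).add
    (((h2 _).mul contDiff_const).mul (ContDiff.sub (ContDiff.sub ?_ contDiff_const)
      (G.ctr_smooth (h1 _) (h1 _) (h1 _) β j)))
  exact contDiff_pi.1 contDiff_fst j

theorem path_cont (β : B) : Continuous fun q : E d × ℝ => (G.path β q.1 q.2, q.2) := by
  have h1 : ∀ a, ContDiff ℝ ∞ fun y : E d × ℝ => sw a y.2 := fun a =>
    (sw_smooth a).comp contDiff_snd
  refine Continuous.prodMk (continuous_pi fun j => ?_) continuous_snd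
  have h2 := (G.ctr_smooth (h1 (1 / 4)) (h1 (3 / 8)) (h1 (1 / 2)) β j).continuous
  have h3 := (h1 (3 / 8)).continuous
  unfold path
  fun_prop

theorem path_deriv (β : B) (x : E d) (t : ℝ) :
    HasDerivAt (G.path β x) (G.V β (G.path β x t, t)) t := by
  refine hasDerivAt_pi.2 fun j => ?_
  have h1 : HasDerivAt (fun t => G.ctr β (sw (1 / 4) t) (sw (3 / 8) t) (sw (1 / 2) t) j)
      (G.ctr β (deriv (sw (1 / 4)) t) (deriv (sw (3 / 8)) t) (deriv (sw (1 / 2)) t) j) t := by
    unfold ctr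
    split_ifs
    · exact ((sw_deriv _ t).mul_const _).add ((sw_deriv _ t).mul_const _)
    · exact (sw_deriv _ t).mul_const _
  have h2 := (((sw_deriv (3 / 8) t).mul_const (Real.log (G.D β j))).exp.mul_const
    (x j - G.C β j))
  refine ((h1.const_add (G.C β j)).add h2).congr_deriv ?_
  simp only [V, path]
  ring

theorem path_lo (β : B) (x : E d) {t : ℝ} (h : t ≤ 1 / 4) : G.path β x t = x := by
  funext j
  simp only [path, ctr, sw_zero h, sw_zero (show t ≤ 3 / 8 by linarith),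
    sw_zero (show t ≤ 1 / 2 by linarith)]
  simp

theorem path_hi (β : B) (x : E d) {t : ℝ} (h : 5 / 8 ≤ t) : G.path β x t = G.map β x := by
  funext j
  simp only [path, map, ctr, sw_one (show 1 / 4 + 1 / 8 ≤ t by linarith),
    sw_one (show 3 / 8 + 1 / 8 ≤ t by linarith), sw_one (show 1 / 2 + 1 / 8 ≤ t by linarith),
    one_mul, Real.exp_log (G.D_pos β j)]
  split_ifs with hj
  · rw [hj, G.C_ip, G.T_ip]; ring
  · ring

theorem V_zero (β : B) (y : E d × ℝ) (h : y.2 < 1 / 4 ∨ 5 / 8 < y.2) : G.V β y = 0 := by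
  have h1 : deriv (sw (1 / 4)) y.2 = 0 := dsw_zero (h.imp id fun h => by linarith)
  have h2 : deriv (sw (3 / 8)) y.2 = 0 :=
    dsw_zero (h.imp (fun h => by linarith) fun h => by linarith)
  have h3 : deriv (sw (1 / 2)) y.2 = 0 :=
    dsw_zero (h.imp (fun h => by linarith) fun h => by linarith)
  funext j
  simp only [V, ctr, h1, h2, h3]
  simp

theorem box_cpt (β : B) (s : ℝ) : IsCompact (G.box β s) := by
  have : G.box β s = Set.pi univ fun j => Metric.closedBall (G.C β j) (G.r β j - s) := by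
    ext x
    simp [box, Real.dist_eq]
  rw [this]
  exact isCompact_univ_pi fun j => isCompact_closedBall _ _

theorem scale_le {β : B} {x : E d} (hx : x ∈ G.box β 0) (t : ℝ) (j : Fin d) :
    |Real.exp (sw (3 / 8) t * Real.log (G.D β j)) * (x j - G.C β j)| ≤ 1 / 4 := by
  have h1 := hx j
  have h2 := G.C_le β j
  have h3 := G.T_le β j
  have h4 := sw_mem (3 / 8) t
  have h5 := G.D_pos β j
  rw [sub_zero] at h1
  rw [abs_mul, abs_of_pos (Real.exp_pos _)]
  rcases le_total 0 (Real.log (G.D β j)) with h | h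
  · have : Real.exp (sw (3 / 8) t * Real.log (G.D β j)) ≤ G.D β j := by
      conv_rhs => rw [← Real.exp_log h5]
      exact Real.exp_le_exp.2 (by nlinarith)
    have := mul_le_mul this h1 (abs_nonneg _) h5.le
    linarith [abs_nonneg (G.T β j)]
  · have : Real.exp (sw (3 / 8) t * Real.log (G.D β j)) ≤ 1 := Real.exp_le_one_iff.2 (by nlinarith)
    have := mul_le_mul this h1 (abs_nonneg _) zero_le_one
    linarith [abs_nonneg (G.C β j)]

theorem path_sep {β β' : B} {x x' : E d} (hx : x ∈ G.box β 0) (hx' : x' ∈ G.box β' 0) {t : ℝ}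
    {z : Fin d → ℤ} (h : G.path β x t - ic z = G.path β' x' t) : β = β' ∧ z = 0 := by
  have h0 : ∀ j, G.path β x t j - z j = G.path β' x' t j := fun j => congrFun h j
  have hβ : β = β' := by
    rcases le_total t (3 / 8) with h1 | h1
    · refine G.C_sep β β' fun j hj => ?_
      have k := h0 j
      simp only [path, ctr, if_neg hj, sw_zero h1, zero_mul, Real.exp_zero] at k
      have k1 := abs_le.1 (hx j)
      have k2 := abs_le.1 (hx' j)
      have k3 := G.C_le β j
      have k4 := G.C_le β' j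
      have k5 : z j = 0 := int_small (abs_lt.2 ⟨by
        linarith [neg_abs_le (G.C β j), le_abs_self (G.C β' j)], by
        linarith [le_abs_self (G.C β j), neg_abs_le (G.C β' j)]⟩)
      rw [k5, Int.cast_zero] at k
      exact abs_le.2 ⟨by linarith, by linarith⟩
    rcases le_total t (1 / 2) with h2 | h2
    · have k := h0 G.ip
      simp only [path, ctr, if_true, sw_zero h2, sw_one (show 1 / 4 + 1 / 8 ≤ t by linarith),
        G.D_ip, Real.log_one, mul_zero, Real.exp_zero] at k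
      have k1 := abs_le.1 (hx G.ip)
      have k2 := abs_le.1 (hx' G.ip)
      have k3 := G.C_le β G.ip
      have k4 := G.C_le β' G.ip
      have k6 := G.lev_mem β
      have k7 := G.lev_mem β'
      rw [G.C_ip] at k1 k2 k3 k4 k
      rw [G.C_ip] at k
      rw [abs_zero] at k3 k4
      have k5 : z G.ip = 0 := int_small (abs_lt.2 ⟨by linarith, by linarith⟩)
      rw [k5, Int.cast_zero] at k
      exact G.lev_sep β β' (abs_le.2 ⟨by linarith, by linarith⟩)
    · refine G.T_sep β β' fun j hj => ?_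
      have k := h0 j
      simp only [path, ctr, if_neg hj, sw_one (show 3 / 8 + 1 / 8 ≤ t by linarith), one_mul,
        Real.exp_log (G.D_pos _ j)] at k
      have k0 : ∀ {β x}, x ∈ G.box β 0 → |G.D β j * (x j - G.C β j)| ≤ G.D β j * G.r β j :=
        fun {β x} hx => by
          rw [abs_mul, abs_of_pos (G.D_pos β j)]
          exact mul_le_mul_of_nonneg_left (by simpa using hx j) (G.D_pos β j).le
      have k1 := abs_le.1 (k0 hx)
      have k2 := abs_le.1 (k0 hx')
      have k3 := G.T_le β j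
      have k4 := G.T_le β' j
      have k5 : z j - G.disp β j + G.disp β' j = 0 := int_small (abs_lt.2 ⟨by
        push_cast; linarith [neg_abs_le (G.T β j), le_abs_self (G.T β' j)], by
        push_cast; linarith [le_abs_self (G.T β j), neg_abs_le (G.T β' j)]⟩)
      have k6 : (z j : ℝ) - G.disp β j + G.disp β' j = 0 := by exact_mod_cast k5
      exact abs_le.2 ⟨by linarith, by linarith⟩
  subst hβ
  refine ⟨rfl, funext fun j => int_small ?_⟩
  have k := h0 j
  simp only [path] at k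
  have k1 := abs_le.1 (G.scale_le hx t j)
  have k2 := abs_le.1 (G.scale_le hx' t j)
  exact abs_lt.2 ⟨by linarith, by linarith⟩

theorem exists_field [Fintype B] : ∃ X : E d × ℝ → E d, ContDiff ℝ ∞ X ∧
    (∀ z m y, X (shift z m y) = X y) ∧
    (∀ β, ∀ x ∈ G.box β 0, ∀ t ∈ Icc (0 : ℝ) 1,
      HasDerivAt (G.path β x) (X (G.path β x t, t)) t) ∧
    ∀ x, ∀ t ∈ Icc (0 : ℝ) (3 / 16), X (x, t) = 0 := by
  obtain ⟨X, h1, h2, h3, h4⟩ := exists_X (K := fun β =>
    (fun q : E d × ℝ => (G.path β q.1 q.2, q.2)) '' (G.box β 0 ×ˢ Icc (1 / 8) (7 / 8)))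
    (fun β => ((G.box_cpt β 0).prod isCompact_Icc).image (G.path_cont β)) G.V_smooth (by
      rintro β β' ⟨z, m⟩ _ ⟨⟨x, t⟩, ⟨hx, ht⟩, rfl⟩ ⟨⟨x', t'⟩, ⟨hx', ht'⟩, h⟩
      have k1 : t' = t - m := congrArg Prod.snd h
      have k2 : G.path β' x' t' = G.path β x t - ic z := congrArg Prod.fst h
      have k3 : m = 0 := int_small (abs_lt.2 ⟨by linarith [ht.1, ht'.2], by linarith [ht.2, ht'.1]⟩)
      subst k3
      rw [Int.cast_zero, sub_zero] at k1
      subst k1
      obtain ⟨k4, k5⟩ := G.path_sep hx hx' k2.symm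
      exact ⟨k4, by rw [k5]; rfl⟩)
  have h5 : ∀ x t, (t ∈ Icc (0 : ℝ) (3 / 16) ∨ t ∈ Icc (7 / 8 : ℝ) 1) → X (x, t) = 0 := by
    refine fun x t ht => h4 _ fun β g => G.V_zero β _ ?_
    show t - g.2 < 1 / 4 ∨ 5 / 8 < t - g.2
    rcases lt_trichotomy g.2 0 with h | h | h
    · have : (g.2 : ℝ) ≤ -1 := by exact_mod_cast (by omega : g.2 ≤ -1)
      exact Or.inr (by rcases ht with ht | ht <;> linarith [ht.1])
    · rw [h, Int.cast_zero, sub_zero]
      exact ht.imp (fun h => by linarith [h.2]) fun h => by linarith [h.1]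
    · have : (1 : ℝ) ≤ g.2 := by exact_mod_cast (by omega : 1 ≤ g.2)
      exact Or.inl (by rcases ht with ht | ht <;> linarith [ht.2])
  refine ⟨X, h1, h2, fun β x hx t ht => ?_, fun x t ht => h5 x t (Or.inl ht)⟩
  have k := G.path_deriv β x t
  rcases le_total t (1 / 8) with h | h
  · rwa [h5 _ _ (Or.inl ⟨ht.1, by linarith⟩), ← G.V_zero β (G.path β x t, t)
      (Or.inl (by show t < 1 / 4; linarith))]
  rcases le_total t (7 / 8) with h' | h'
  · rwa [h3 β _ ⟨(x, t), ⟨hx, h, h'⟩, rfl⟩]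
  · rwa [h5 _ _ (Or.inr ⟨h', ht.2⟩), ← G.V_zero β (G.path β x t, t)
      (Or.inr (by show 5 / 8 < t; linarith))]

theorem exists_pot [Fintype B] : ∃ P : E d × ℝ → ℝ, ContDiff ℝ ∞ P ∧
    (∀ z m y, P (shift z m y) = P y) ∧ (∀ y, 0 ≤ P y) ∧
    (∀ β, ∀ x ∈ G.box β G.μ, ∀ t ∈ Icc (0 : ℝ) 1, P (G.path β x t, t) = 0) ∧
    ∀ x, ∀ t ∈ Icc (1 / 16 : ℝ) (3 / 16), (∀ β z, x - ic z ∉ G.box β (G.μ / 2)) →
      P (x, t) = 1 := by
  have hμ := G.μ_pos
  obtain ⟨P, h1, h2, h3, h4, h5⟩ := exists_P (K := ⋃ β,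
    (fun q : E d × ℝ => (G.path β q.1 q.2, q.2)) '' (G.box β G.μ ×ˢ Icc 0 1))
    (Z := {y | y.2 ∈ Icc (1 / 16 : ℝ) (3 / 16) + range ((↑) : ℤ → ℝ)} ∩
      ⋂ β, ⋂ z : Fin d → ℤ, ⋃ j, {y | G.r β j - G.μ / 2 ≤ |y.1 j - z j - G.C β j|})
    (isCompact_iUnion fun β => ((G.box_cpt β _).prod isCompact_Icc).image (G.path_cont β))
    (((Int.isClosedEmbedding_coe_real.isClosed_range.add_left_of_isCompact
      isCompact_Icc).preimage continuous_snd).inter (isClosed_iInter fun β => isClosed_iInter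
        fun z => isClosed_iUnion_of_finite fun j => isClosed_le continuous_const (by fun_prop)))
    (by
      rintro y ⟨⟨s, hs, _, ⟨m, rfl⟩, hm⟩, hy⟩ g
      refine ⟨⟨s, hs, _, ⟨m - g.2, rfl⟩, ?_⟩, ?_⟩
      · simp only [lat, Prod.snd_sub, Int.cast_sub] at hm ⊢
        linarith
      · simp only [mem_iInter, mem_iUnion, mem_ofPred_eq] at hy ⊢
        intro β z
        obtain ⟨j, hj⟩ := hy β (g.1 + z)
        refine ⟨j, hj.trans (le_of_eq ?_)⟩
        simp only [lat, ic, Prod.fst_sub, Pi.sub_apply, Pi.add_apply, Int.cast_add]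
        ring_nf)
    (by
      rintro y hy ⟨⟨s, hs, _, ⟨m, rfl⟩, hm⟩, hy'⟩
      obtain ⟨β, ⟨x, t⟩, ⟨hx, ht⟩, rfl⟩ := mem_iUnion.1 hy
      simp only at hm hx ht
      have k : m = 0 := int_small (abs_lt.2 ⟨by linarith [ht.1, hs.2], by linarith [ht.2, hs.1]⟩)
      rw [k, Int.cast_zero, add_zero] at hm
      simp only [mem_iInter, mem_iUnion, mem_ofPred_eq] at hy'
      obtain ⟨j, hj⟩ := hy' β 0
      rw [G.path_lo β x (by linarith [hs.2])] at hj
      have := hx j
      simp only [Pi.zero_apply, Int.cast_zero, sub_zero] at hj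
      linarith)
  refine ⟨P, h1, h2, h3, fun β x hx t ht => h4 _ (mem_iUnion.2 ⟨β, (x, t), ⟨hx, ht⟩, rfl⟩),
    fun x t ht hx => h5 _ ⟨⟨t, ht, _, ⟨0, rfl⟩, by simp⟩, ?_⟩⟩
  simp only [mem_iInter, mem_iUnion, mem_ofPred_eq]
  intro β z
  have := hx β z
  simp only [box, mem_ofPred_eq, not_forall, not_le] at this
  obtain ⟨j, hj⟩ := this
  exact ⟨j, hj.le⟩

end Boxes

end Pool.Agent.Lib.MP_ce3247_an.Sm
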