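import Pool.Agent.Lib.MP_ce3247_an.Lag
import Pool.Agent.Lib.MP_ce3247_an.Per
import Pool.Agent.Lib.MP_7dd29b_gt.AbsFlow

/-! Smooth Lagrangians `|v - X|^2 / 2 + P` on the torus and their Euler-Lagrange flow. -/

open MeasureTheory Filter Topology
open scoped ContDiff

namespace Pool.Agent.Lib.MP_ce3247_an.Sm

variable {d : ℕ}

/-- A smooth periodic vector field, a potential and an orbit of action zero. -/
structure Dat (d : ℕ) where
  X : E d × ℝ → E d
  P : E d × ℝ → ℝ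
  γ : ℝ → E d
  h : E d
  X_smooth : ContDiff ℝ ∞ X
  P_smooth : ContDiff ℝ ∞ P
  X_per : ∀ z m y, X (shift z m y) = X y
  P_per : ∀ z m y, P (shift z m y) = P y
  P_nonneg : ∀ y, 0 ≤ P y
  γ_deriv : ∀ t, 0 < t → HasDerivAt γ (X (γ t, t)) t
  γ_P : ∀ t, 0 < t → P (γ t, t) = 0
  rot : ∃ T : ℕ → ℝ, Tendsto T atTop atTop ∧
    Tendsto (fun n => (T n)⁻¹ • γ (T n)) atTop (𝓝 h)

/-- The standard scalar product as a map to linear forms. -/
private noncomputable def Lag_form (d : ℕ) : E d →L[ℝ] E d →L[ℝ] ℝ :=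
  ∑ j, (ContinuousLinearMap.proj j : E d →L[ℝ] ℝ).smulRight
    (ContinuousLinearMap.proj j : E d →L[ℝ] ℝ)

private lemma Lag_form_apply (p w : E d) : Lag_form d p w = ∑ j, p j * w j := by
  simp [Lag_form]

private lemma Lag_form_single (p : E d) (j : Fin d) : Lag_form d p (Pi.single j 1) = p j := by
  simp [Lag_form_apply, Pi.single_apply]

private lemma Lag_form_eq (l : E d →L[ℝ] ℝ) : Lag_form d (fun j => l (Pi.single j 1)) = l := by
  refine ContinuousLinearMap.ext fun w => ?_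
  rw [Lag_form_apply]
  conv_rhs => rw [pi_eq_sum_univ' w, map_sum]
  exact Finset.sum_congr rfl fun j _ => by rw [map_smul, smul_eq_mul, mul_comm]

private lemma Lag_form_deriv {p : ℝ → E d} {q : E d} {s : ℝ} :
    HasDerivAt (fun σ => Lag_form d (p σ)) (Lag_form d q) s ↔ HasDerivAt p q s := by
  refine ⟨fun h => hasDerivAt_pi.2 fun j => ?_,
    fun h => (Lag_form d).hasFDerivAt.comp_hasDerivAt s h⟩
  have := (ContinuousLinearMap.apply ℝ ℝ (Pi.single j 1 : E d)).hasFDerivAt.comp_hasDerivAt s h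
  simpa only [Function.comp_def, ContinuousLinearMap.apply_apply, Lag_form_single] using this

private lemma Lag_sq_deriv {V : Type*} [NormedAddCommGroup V] [NormedSpace ℝ V] {f : V → E d}
    {f' : V →L[ℝ] E d} {y : V} (h : HasFDerivAt f f' y) :
    HasFDerivAt (fun y => (∑ j, f y j ^ 2) / 2) (Lag_form d (f y) ∘L f') y := by
  have h1 : ∀ y, (∑ j, f y j ^ 2) / 2 = (1 / 2 : ℝ) * Lag_form d (f y) (f y) := fun y => by
    simp only [Lag_form_apply, sq]
    ring
  simp only [h1]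
  refine ((((Lag_form d).hasFDerivAt.comp y h).clm_apply h).const_mul (1 / 2 : ℝ)).congr_fderiv ?_
  refine ContinuousLinearMap.ext fun w => ?_
  simp only [smul_apply, add_apply, ContinuousLinearMap.comp_apply, ContinuousLinearMap.flip_apply,
    Function.comp_apply, Lag_form_apply, smul_eq_mul, mul_comm (f' w _)]
  ring

private lemma Lag_fderiv (a : E d) (c : ℝ) (v : E d) :
    fderiv ℝ (fun u : E d => (∑ j, (u j - a j) ^ 2) / 2 + c) v = Lag_form d (v - a) := by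
  have h := (Lag_sq_deriv ((hasFDerivAt_id v).sub_const a)).add_const c
  rw [ContinuousLinearMap.comp_id] at h
  exact h.fderiv

private lemma Lag_norm_sq (u : E d) : ‖u‖ ^ 2 ≤ ∑ j, u j ^ 2 := by
  have h0 : 0 ≤ ∑ j, u j ^ 2 := Finset.sum_nonneg fun j _ => sq_nonneg _
  rw [← Real.le_sqrt (norm_nonneg _) h0, pi_norm_le_iff_of_nonneg (Real.sqrt_nonneg _)]
  exact fun j => Real.abs_le_sqrt
    (Finset.single_le_sum (f := fun j => u j ^ 2) (fun j _ => sq_nonneg _) (Finset.mem_univ j))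

namespace Dat

open Pool.Agent.Lib.MP_7dd29b_gt

variable (D : Dat d)

/-- The Lagrangian `|v - X|^2 / 2 + P`. -/
noncomputable def Lag (z : Phase d) : ℝ :=
  (∑ j, (z.2.1 j - D.X (sec z) j) ^ 2) / 2 + D.P (sec z)

/-- The Euler-Lagrange field in the coordinates `(x, p, t)`, `p = v - X`. -/
noncomputable def G (z : E d × E d × ℝ) : E d × E d × ℝ :=
  (D.X (z.1, z.2.2) + z.2.1,
    fun j => fderiv ℝ D.P (z.1, z.2.2) (Pi.single j 1, 0) -
      ∑ i, z.2.1 i * fderiv ℝ D.X (z.1, z.2.2) (Pi.single j 1, 0) i, 1)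

/-- The distinguished orbit in phase space. -/
noncomputable def orb (t : ℝ) : Phase d := proj (D.γ t) (D.X (D.γ t, t)) t

lemma Lag_proj (x v : E d) (t : ℝ) :
    D.Lag (proj x v t) = (∑ j, (v j - D.X (x, t) j) ^ 2) / 2 + D.P (x, t) := by
  obtain ⟨z, m, e⟩ := sec_proj x v t
  rw [Lag, e, D.X_per, D.P_per]
  rfl

lemma Lag_nonneg (z : Phase d) : 0 ≤ D.Lag z :=
  add_nonneg (div_nonneg (Finset.sum_nonneg fun _ _ => sq_nonneg _) zero_le_two) (D.P_nonneg _)

private lemma Lag_smooth' :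
    ContDiff ℝ ∞ fun z : E d × E d × ℝ => D.Lag (proj z.1 z.2.1 z.2.2) := by
  simp only [Lag_proj]
  have h : ContDiff ℝ ∞ fun z : E d × E d × ℝ => (z.1, z.2.2) :=
    contDiff_fst.prodMk contDiff_snd.snd
  exact ((ContDiff.sum fun j _ => (contDiff_pi.1
    (contDiff_snd.fst.sub (D.X_smooth.comp h)) j).pow 2).div_const 2).add (D.P_smooth.comp h)

lemma Lag_cont : Continuous D.Lag :=
  isOpenQuotientMap_proj.isQuotientMap.continuous_iff.2 D.Lag_smooth'.continuous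

lemma Lag_smooth (r : ℕ) :
    ContDiff ℝ r fun z : E d × E d × ℝ => D.Lag (proj z.1 z.2.1 z.2.2) :=
  contDiff_infty.1 D.Lag_smooth' r

lemma Lag_convex (x v : E d) (t : ℝ) (w : E d) (hw : w ≠ 0) :
    0 < iteratedFDeriv ℝ 2 (fun u => D.Lag (proj x u t)) v ![w, w] := by
  simp only [Lag_proj]
  rw [iteratedFDeriv_two_apply, funext (Lag_fderiv (D.X (x, t)) (D.P (x, t)))]
  have h := (Lag_form d).hasFDerivAt.comp v ((hasFDerivAt_id v).sub_const (D.X (x, t)))
  rw [ContinuousLinearMap.comp_id] at h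
  rw [show fderiv ℝ (fun v => Lag_form d (v - D.X (x, t))) v = Lag_form d from h.fderiv,
    Lag_form_apply]
  obtain ⟨j, hj⟩ := Function.ne_iff.1 hw
  exact Finset.sum_pos' (fun j _ => mul_self_nonneg (w j))
    ⟨j, Finset.mem_univ j, mul_self_pos.2 hj⟩

lemma Lag_super (x : E d) (t : ℝ) :
    Tendsto (fun v => D.Lag (proj x v t) / ‖v‖) (cocompact (E d)) atTop := by
  have h : Tendsto (fun v : E d => ‖v‖) (cocompact (E d)) atTop := tendsto_norm_cocompact_atTop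
  refine tendsto_atTop_mono' _ ?_
    (tendsto_atTop_add_const_right _ (-‖D.X (x, t)‖) (h.atTop_div_const two_pos))
  filter_upwards [h.eventually_gt_atTop 0] with v hv
  have h1 := Lag_norm_sq (v - D.X (x, t))
  have h2 := pow_le_pow_left₀ (abs_nonneg _) (abs_norm_sub_norm_le v (D.X (x, t))) 2
  rw [sq_abs] at h2
  simp only [Pi.sub_apply] at h1
  rw [le_div_iff₀ hv, Lag_proj]
  nlinarith [D.P_nonneg (x, t), sq_nonneg (‖D.X (x, t)‖)]

private lemma Lag_fderiv_x (x v : E d) (t : ℝ) :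
    fderiv ℝ (fun y => D.Lag (proj y v t)) x = Lag_form d (D.G (x, v - D.X (x, t), t)).2.1 := by
  have hd : (∞ : WithTop ℕ∞) ≠ 0 := by simp
  have h0 : HasFDerivAt (fun y : E d => (y, t)) (ContinuousLinearMap.inl ℝ (E d) ℝ) x :=
    hasFDerivAt_prodMk_left x t
  have h1 := (D.X_smooth.differentiable hd (x, t)).hasFDerivAt.comp x h0
  have h2 := (D.P_smooth.differentiable hd (x, t)).hasFDerivAt.comp x h0
  have h3 := (Lag_sq_deriv (h1.const_sub v)).add h2
  simp only [Lag_proj]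
  rw [← Lag_form_eq (fderiv ℝ _ x)]
  refine congrArg _ (funext fun j => ?_)
  refine (congrArg (fun l : E d →L[ℝ] ℝ => l (Pi.single j 1)) h3.fderiv).trans ?_
  simp only [add_apply, neg_apply, ContinuousLinearMap.comp_apply, ContinuousLinearMap.inl_apply,
    Lag_form_apply, Function.comp_apply, G, Pi.neg_apply, mul_neg, Finset.sum_neg_distrib]
  ring

lemma isEL_iff (t₀ : ℝ) (x v : ℝ → E d) : IsEL D.Lag t₀ x v ↔ ∀ s,
    HasDerivAt (fun σ => (x σ, v σ - D.X (x σ, t₀ + σ), t₀ + σ))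
      (D.G (x s, v s - D.X (x s, t₀ + s), t₀ + s)) s := by
  refine forall_congr' fun s => ?_
  rw [Lag_fderiv_x]
  simp only [Lag_proj, Lag_fderiv, Lag_form_deriv]
  have e : (D.G (x s, v s - D.X (x s, t₀ + s), t₀ + s)).1 = v s := add_sub_cancel _ _
  constructor
  · rintro ⟨h1, h2⟩
    exact (e ▸ h1).prodMk (h2.prodMk ((hasDerivAt_id s).const_add t₀))
  · intro h
    have h1 := (hasFDerivAt_fst (𝕜 := ℝ)).comp_hasDerivAt s h
    have h2 := (hasFDerivAt_fst (𝕜 := ℝ)).comp_hasDerivAt s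
      ((hasFDerivAt_snd (𝕜 := ℝ)).comp_hasDerivAt s h)
    exact ⟨h1.congr_deriv e, h2⟩

private lemma Flow_two : ((1 : WithTop ℕ∞) + 1) ≤ ∞ := by
  rw [one_add_one_eq_two]
  exact WithTop.coe_le_coe.2 (le_top : (2 : ℕ∞) ≤ ⊤)

private lemma Flow_one : (1 : WithTop ℕ∞) ≤ ∞ := by exact_mod_cast le_top

private lemma Flow_dX : ContDiff ℝ 1 (fderiv ℝ D.X) := D.X_smooth.fderiv_right Flow_two

private lemma Flow_dP : ContDiff ℝ 1 (fderiv ℝ D.P) := D.P_smooth.fderiv_right Flow_two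

lemma G_smooth : ContDiff ℝ 1 D.G := by
  have hπ : ContDiff ℝ 1 fun z : E d × E d × ℝ => (z.1, z.2.2) := by fun_prop
  have hX := (D.X_smooth.of_le Flow_one).comp hπ
  have hdX := (Flow_dX D).comp hπ
  have hdP := (Flow_dP D).comp hπ
  unfold G
  refine (hX.add (by fun_prop)).prodMk (ContDiff.prodMk ?_ contDiff_const)
  refine contDiff_pi.2 fun j => ContDiff.sub (hdP.clm_apply contDiff_const) ?_
  refine ContDiff.sum fun i _ => ContDiff.mul (by fun_prop) ?_
  exact (contDiff_pi.1 (hdX.clm_apply (contDiff_const (c := ((Pi.single j 1 : E d), (0 : ℝ))))) i)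

private lemma Flow_dX_per (z : Fin d → ℤ) (m : ℤ) (y : E d × ℝ) :
    fderiv ℝ D.X (shift z m y) = fderiv ℝ D.X y :=
  fderiv_per (a := 0) (fun y => by rw [D.X_per, add_zero]) y

private lemma Flow_dP_per (z : Fin d → ℤ) (m : ℤ) (y : E d × ℝ) :
    fderiv ℝ D.P (shift z m y) = fderiv ℝ D.P y :=
  fderiv_per (a := 0) (fun y => by rw [D.P_per, add_zero]) y

lemma G_per (z : Fin d → ℤ) (m : ℤ) (x p : E d) (t : ℝ) :
    D.G (x + ic z, p, t + m) = D.G (x, p, t) := by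
  have h1 : D.X (x + ic z, t + m) = D.X (x, t) := D.X_per z m (x, t)
  have h2 : fderiv ℝ D.X (x + ic z, t + m) = fderiv ℝ D.X (x, t) := Flow_dX_per D z m (x, t)
  have h3 : fderiv ℝ D.P (x + ic z, t + m) = fderiv ℝ D.P (x, t) := Flow_dP_per D z m (x, t)
  simp only [G, h1, h2, h3]

/-- Linear growth of the lifted field. -/
private lemma Flow_growth : ∃ K ε : ℝ, 0 ≤ K ∧ 0 ≤ ε ∧ ∀ z, ‖D.G z‖ ≤ K * ‖z‖ + ε := by
  obtain ⟨C1, h1, hX⟩ := bdd_of_per D.X_smooth.continuous D.X_per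
  obtain ⟨C2, h2, hdX⟩ := bdd_of_per (Flow_dX D).continuous (Flow_dX_per D)
  obtain ⟨C3, h3, hdP⟩ := bdd_of_per (Flow_dP D).continuous (Flow_dP_per D)
  refine ⟨1 + d * C2, 1 + C1 + C3, by positivity, by positivity, fun z => ?_⟩
  have hp : ‖z.2.1‖ ≤ ‖z‖ := (norm_fst_le z.2).trans (norm_snd_le z)
  have hz : 0 ≤ ‖z‖ := norm_nonneg z
  have hd : 0 ≤ (d : ℝ) * C2 * ‖z‖ := by positivity
  have he : ∀ j : Fin d, ‖((Pi.single j 1 : E d), (0 : ℝ))‖ ≤ 1 := fun j => by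
    rw [Prod.norm_def, Pi.norm_single]; simp
  unfold G
  rw [Prod.norm_def, Prod.norm_def]
  refine max_le ?_ (max_le ?_ ?_)
  · refine (norm_add_le _ _).trans ?_
    have := hX (z.1, z.2.2)
    nlinarith
  · refine (pi_norm_le_iff_of_nonneg (by positivity)).2 fun j => (norm_sub_le _ _).trans ?_
    have a1 : ‖fderiv ℝ D.P (z.1, z.2.2) (Pi.single j 1, 0)‖ ≤ C3 :=
      (ContinuousLinearMap.le_opNorm _ _).trans
        ((mul_le_mul (hdP _) (he j) (norm_nonneg _) h3).trans (by rw [mul_one]))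
    have a2 : ‖fderiv ℝ D.X (z.1, z.2.2) (Pi.single j 1, 0)‖ ≤ C2 :=
      (ContinuousLinearMap.le_opNorm _ _).trans
        ((mul_le_mul (hdX _) (he j) (norm_nonneg _) h2).trans (by rw [mul_one]))
    have a3 : ‖∑ i, z.2.1 i * fderiv ℝ D.X (z.1, z.2.2) (Pi.single j 1, 0) i‖ ≤
        d * C2 * ‖z‖ := by
      refine (norm_sum_le _ _).trans ?_
      refine (Finset.sum_le_card_nsmul _ _ (C2 * ‖z‖) fun i _ => ?_).trans ?_
      · rw [norm_mul, mul_comm]
        exact mul_le_mul ((norm_le_pi_norm _ i).trans a2) ((norm_le_pi_norm _ i).trans hp)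
          (norm_nonneg _) h2
      · simp [mul_assoc]
    nlinarith
  · simp only [norm_one]
    nlinarith

/-- Gronwall bound for an integral curve of a field of linear growth. -/
private lemma Flow_gron {F : Type*} [NormedAddCommGroup F] [NormedSpace ℝ F] {γ γ' : ℝ → F}
    {K ε δ t T : ℝ} (hK : 0 ≤ K) (hε : 0 ≤ ε) (hδ : 0 ≤ δ) (ht : 0 ≤ t) (hT : t ≤ T)
    (hγ : ∀ s ∈ Set.Icc 0 t, HasDerivAt γ (γ' s) s) (h0 : ‖γ 0‖ ≤ δ)
    (hb : ∀ s ∈ Set.Icc 0 t, ‖γ' s‖ ≤ K * ‖γ s‖ + ε) : ‖γ t‖ ≤ gronwallBound δ K ε T := by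
  have := norm_le_gronwallBound_of_norm_deriv_right_le (f := γ) (f' := γ') (a := 0) (b := t)
    (fun s hs => (hγ s hs).continuousAt.continuousWithinAt)
    (fun s hs => (hγ s (Set.Ico_subset_Icc_self hs)).hasDerivWithinAt) h0
    (fun s hs => hb s (Set.Ico_subset_Icc_self hs)) t ⟨ht, le_rfl⟩
  exact this.trans (gronwallBound_mono hδ hε hK (by linarith))

theorem exists_lift : ∃ ψ, IsFlow D.G Set.univ ψ := by
  obtain ⟨K, ε, hK, hε, hG⟩ := Flow_growth D
  refine exists_flow (fun z _ => D.G_smooth.contDiffAt) (fun z _ => ?_) (fun z0 _ T => ?_)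
  · obtain ⟨α, h0, η, hη, hα⟩ :=
      (D.G_smooth.contDiffAt (x := z)).exists_forall_mem_closedBall_exists_eq_forall_mem_Ioo_hasDerivAt₀ 0
    exact ⟨η, hη, α, h0, fun t ht => ⟨Set.mem_univ _, hα t (by simpa using ht)⟩⟩
  · refine ⟨Metric.closedBall 0 (gronwallBound (‖z0‖ + 1) K ε T), isCompact_closedBall _ _,
      Set.subset_univ _, ?_⟩
    filter_upwards [Metric.closedBall_mem_nhds z0 one_pos] with z hz T' hT' γ h0 hγ t ht
    have hz' : ‖γ 0‖ ≤ ‖z0‖ + 1 := by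
      rw [h0]
      have := norm_sub_norm_le z z0
      rw [mem_closedBall_iff_norm] at hz
      linarith
    rw [mem_closedBall_zero_iff]
    rcases le_total 0 t with h | h
    · exact Flow_gron (γ' := fun s => D.G (γ s)) hK hε (by positivity) h (by linarith [ht.2])
        (fun s hs => (hγ s ⟨by linarith [hs.1, ht.1, ht.2], by linarith [hs.2, ht.2]⟩).2) hz'
        (fun s _ => hG _)
    · have := Flow_gron (γ := fun s => γ (-s)) (γ' := fun s => -D.G (γ (-s))) (t := -t) (T := T)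
        hK hε (by positivity : 0 ≤ ‖z0‖ + 1) (by linarith) (by linarith [ht.1])
        (fun s hs => by
          have h1 := (hγ (-s) ⟨by linarith [hs.2, ht.1], by linarith [hs.1, ht.1, ht.2]⟩).2
          simpa [Function.comp_def] using h1.scomp s (hasDerivAt_neg s))
        (by simpa using hz') (fun s _ => by rw [norm_neg]; exact hG _)
      simpa using this

/-- The distinguished curve with `p = 0` solves the lifted equation. -/
lemma orb_deriv (t : ℝ) (ht : 0 < t) :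
    HasDerivAt (fun s => (D.γ s, (0 : E d), s)) (D.G (D.γ t, 0, t)) t := by
  have hmin : IsLocalMin D.P (D.γ t, t) :=
    Eventually.of_forall fun y => by rw [D.γ_P t ht]; exact D.P_nonneg y
  have h0 : fderiv ℝ D.P (D.γ t, t) = 0 := hmin.fderiv_eq_zero
  have hG : D.G (D.γ t, 0, t) = (D.X (D.γ t, t), 0, 1) := by
    simp only [G, h0, add_zero, Prod.mk.injEq, true_and, and_true]
    funext j
    simp
  rw [hG]
  exact (D.γ_deriv t ht).prodMk ((hasDerivAt_const t _).prodMk (hasDerivAt_id t))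

section aux

open Pool.Agent.Lib.MP_7dd29b_gt

variable {D} {ψ : E d × E d × ℝ → ℝ → E d × E d × ℝ}

lemma Desc_uniq (hψ : IsFlow D.G Set.univ ψ) {γ : ℝ → E d × E d × ℝ} {a b : ℝ}
    (h0 : (0 : ℝ) ∈ Set.Ioo a b) (hγ : ∀ t ∈ Set.Ioo a b, HasDerivAt γ (D.G (γ t)) t) :
    ∀ t ∈ Set.Ioo a b, ψ (γ 0) t = γ t :=
  ode_unique_on (fun _ _ => D.G_smooth.contDiffAt) (fun t _ => hψ.deriv _ trivial t) hγ h0
    (hψ.zero _ trivial)

lemma Desc_uniq' (hψ : IsFlow D.G Set.univ ψ) {γ : ℝ → E d × E d × ℝ}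
    (hγ : ∀ t, HasDerivAt γ (D.G (γ t)) t) (t : ℝ) : ψ (γ 0) t = γ t :=
  Desc_uniq hψ (a := -(|t| + 1)) (b := |t| + 1)
    ⟨by linarith [abs_nonneg t], by linarith [abs_nonneg t]⟩ (fun s _ => hγ s) t
    ⟨by linarith [neg_abs_le t], by linarith [le_abs_self t]⟩

lemma Desc_time (hψ : IsFlow D.G Set.univ ψ) (z : E d × E d × ℝ) (s : ℝ) :
    (ψ z s).2.2 = z.2.2 + s := by
  have h : ∀ t, HasDerivAt (fun t => (ψ z t).2.2 - t) 0 t := fun t => by
    have h1 : HasDerivAt (fun t => (ψ z t).2.2) 1 t := (hψ.deriv z trivial t).snd.snd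
    have h2 := h1.sub (hasDerivAt_id t)
    rwa [sub_self] at h2
  have := is_const_of_deriv_eq_zero (fun t => (h t).differentiableAt) (fun t => (h t).deriv) s 0
  rw [hψ.zero z trivial] at this
  linarith

lemma Desc_equiv (hψ : IsFlow D.G Set.univ ψ) (z : Fin d → ℤ) (m : ℤ) (x p : E d) (t s : ℝ) :
    ψ (x + ic z, p, t + m) s = ψ (x, p, t) s + (ic z, 0, (m : ℝ)) := by
  have h := Desc_uniq' hψ (γ := fun s => ψ (x, p, t) s + (ic z, 0, (m : ℝ))) (fun s => by
    have h1 := D.G_per z m (ψ (x, p, t) s).1 (ψ (x, p, t) s).2.1 (ψ (x, p, t) s).2.2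
    have h2 : ψ (x, p, t) s + (ic z, 0, (m : ℝ)) =
        ((ψ (x, p, t) s).1 + ic z, (ψ (x, p, t) s).2.1, (ψ (x, p, t) s).2.2 + m) := by
      ext <;> simp
    rw [h2, h1]
    exact (hψ.deriv _ trivial s).add_const _) s
  simpa [hψ.zero _ trivial] using h

variable (D) in
/-- From the coordinates `(x, p, t)` to phase space. -/
noncomputable def Desc_dn (w : E d × E d × ℝ) : Phase d :=
  proj w.1 (w.2.1 + D.X (w.1, w.2.2)) w.2.2

variable (D) in
/-- From the coordinates `(x, v, t)` to the coordinates `(x, p, t)`. -/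
noncomputable def Desc_up (y : E d × E d × ℝ) : E d × E d × ℝ :=
  (y.1, y.2.1 - D.X (y.1, y.2.2), y.2.2)

lemma Desc_dn_cont : Continuous D.Desc_dn := by
  have hX := D.X_smooth.continuous
  exact isOpenQuotientMap_proj.continuous.comp
    (f := fun w : E d × E d × ℝ => (w.1, w.2.1 + D.X (w.1, w.2.2), w.2.2)) (by fun_prop)

lemma Desc_up_cont : Continuous D.Desc_up := by
  have hX := D.X_smooth.continuous
  unfold Desc_up
  fun_prop

lemma Desc_per (hψ : IsFlow D.G Set.univ ψ) (z : Fin d → ℤ) (m : ℤ) (x v : E d) (t s : ℝ) :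
    D.Desc_dn (ψ (D.Desc_up (x + ic z, v, t + m)) s) =
      D.Desc_dn (ψ (D.Desc_up (x, v, t)) s) := by
  have hX : ∀ x t, D.X (x + ic z, t + m) = D.X (x, t) := fun x t => D.X_per z m (x, t)
  simp only [Desc_up, hX]
  rw [Desc_equiv hψ]
  refine (proj_eq_iff.2 ⟨z, m, rfl, ?_, rfl⟩).symm
  simp [hX]

variable (D ψ) in
/-- The flow on phase space. -/
noncomputable def Desc_Phi (s : ℝ) (z : Phase d) : Phase d :=
  D.Desc_dn (ψ (D.Desc_up ((sec z).1, z.2.1, (sec z).2)) s)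

lemma Desc_Phi_proj (hψ : IsFlow D.G Set.univ ψ) (x v : E d) (t s : ℝ) :
    D.Desc_Phi ψ s (proj x v t) = D.Desc_dn (ψ (x, v - D.X (x, t), t) s) := by
  obtain ⟨z, m, h⟩ := sec_proj x v t
  unfold Desc_Phi
  rw [h]
  exact Desc_per hψ z m x v t s

lemma Desc_Phi_cont (hψ : IsFlow D.G Set.univ ψ) :
    Continuous fun q : ℝ × Phase d => D.Desc_Phi ψ q.1 q.2 := by
  refine ((IsOpenQuotientMap.id (X := ℝ)).prodMap
    (isOpenQuotientMap_proj (d := d))).continuous_comp_iff.1 ?_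
  have h1 : Continuous fun p : (E d × E d × ℝ) × ℝ => ψ p.1 p.2 := by
    have := hψ.cont
    rwa [Set.univ_prod_univ, continuousOn_univ] at this
  have h2 : Continuous fun q : ℝ × E d × E d × ℝ => D.Desc_dn (ψ (D.Desc_up q.2) q.1) :=
    Desc_dn_cont.comp (h1.comp ((Desc_up_cont.comp continuous_snd).prodMk continuous_fst))
  exact h2.congr fun q => (Desc_Phi_proj hψ q.2.1 q.2.2.1 q.2.2.2 q.1).symm

lemma Desc_complete (hψ : IsFlow D.G Set.univ ψ) (x₀ v₀ : E d) (t₀ : ℝ) :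
    ∃ x v, IsEL D.Lag t₀ x v ∧ x 0 = x₀ ∧ v 0 = v₀ := by
  obtain ⟨w, hw⟩ : ∃ w, w = ψ (x₀, v₀ - D.X (x₀, t₀), t₀) := ⟨_, rfl⟩
  have h0 : w 0 = (x₀, v₀ - D.X (x₀, t₀), t₀) := hw ▸ hψ.zero _ trivial
  have ht : ∀ s, t₀ + s = (w s).2.2 := fun s => by rw [hw, Desc_time hψ]
  have hd : ∀ s, HasDerivAt w (D.G (w s)) s := fun s => hw ▸ hψ.deriv _ trivial s
  refine ⟨fun s => (w s).1, fun s => (w s).2.1 + D.X ((w s).1, t₀ + s),
    (D.isEL_iff _ _ _).2 fun s => ?_, by simp [h0], by simp [h0]⟩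
  simp only [add_sub_cancel_right, ht]
  exact hd s

lemma Desc_flow (hψ : IsFlow D.G Set.univ ψ) (t₀ : ℝ) (x v : ℝ → E d) (h : IsEL D.Lag t₀ x v)
    (s : ℝ) : D.Desc_Phi ψ s (proj (x 0) (v 0) t₀) = proj (x s) (v s) (t₀ + s) := by
  have h1 := Desc_uniq' hψ ((D.isEL_iff _ _ _).1 h) s
  simp only [add_zero] at h1
  rw [Desc_Phi_proj hψ, h1]
  simp [Desc_dn]

lemma Desc_orb (hψ : IsFlow D.G Set.univ ψ) (t s : ℝ) (ht : 0 < t) (hs : 0 < t + s) :
    D.Desc_Phi ψ s (D.orb t) = D.orb (t + s) := by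
  have h1 := Desc_uniq hψ (γ := fun s => (D.γ (t + s), (0 : E d), t + s)) (a := -t) (b := |s| + 1)
    ⟨by linarith, by linarith [abs_nonneg s]⟩
    (fun σ hσ => (D.orb_deriv (t + σ) (by linarith [hσ.1])).comp_const_add t σ) s
    ⟨by linarith, by linarith [le_abs_self s]⟩
  simp only [add_zero] at h1
  rw [orb, Desc_Phi_proj hψ, sub_self, h1]
  simp [Desc_dn, orb]

end aux

theorem exists_flow : ∃ Φ, (∀ r, Tonelli r D.Lag Φ) ∧ (Continuous fun q : ℝ × Phase d => Φ q.1 q.2) ∧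
    ∀ t s, 0 < t → 0 < t + s → Φ s (D.orb t) = D.orb (t + s) := by
  obtain ⟨ψ, hψ⟩ := D.exists_lift
  exact ⟨D.Desc_Phi ψ, fun r =>
    ⟨D.Lag_smooth r, D.Lag_convex, D.Lag_super, Desc_complete hψ, Desc_flow hψ⟩,
    Desc_Phi_cont hψ, Desc_orb hψ⟩

end Dat

end Pool.Agent.Lib.MP_ce3247_an.Sm
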