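import Pool.Agent.Lib.MP_ce3247_an.Sm.Act
import Pool.Agent.Lib.MP_ce3247_an.Sm.Clo

/-! Closed polygons that minimise a discrete action in an integer homology class. -/

open Set Filter Topology
open scoped ContDiff

namespace Pool.Agent.Lib.MP_ce3247_an.Sm.Dat

variable {d : ℕ} (D : Dat d) (m : Fin d → ℤ)

section

variable {N : ℕ} [NeZero N]

/-- The position and the time of a vertex. -/
noncomputable def px (y : ZMod N → E d) (i : ZMod N) : E d × ℝ :=
  (y i + ((i.val : ℝ) * (N : ℝ)⁻¹) • ic m, (i.val : ℝ) * (N : ℝ)⁻¹)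

/-- The discrete momentum. -/
noncomputable def pp (y : ZMod N → E d) (i : ZMod N) : E d :=
  (N : ℝ) • (y (i + 1) - y i) + ic m - D.X (px m y i)

/-- The discrete action. -/
noncomputable def pS (y : ZMod N → E d) : ℝ :=
  ∑ i, ((∑ k, D.pp m y i k ^ 2) / 2 + D.P (px m y i))

theorem pS_cont : Continuous fun y : ZMod N → E d => D.pS m y := by
  have hX := D.X_smooth.continuous
  have hP := D.P_smooth.continuous
  unfold pS pp px
  fun_prop

theorem pS_shift (z : Fin d → ℤ) (y : ZMod N → E d) : D.pS m (fun i => y i + ic z) = D.pS m y := by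
  have e : ∀ i, px m (fun i => y i + ic z) i = shift z 0 (px m y i) := fun i => by
    simp only [px, shift, Int.cast_zero, add_zero, add_right_comm]
  simp only [pS, pp, e, D.X_per, D.P_per, add_sub_add_right_eq_sub]

theorem pS_crit {y : ZMod N → E d} (h : ∀ y' : ZMod N → E d, D.pS m y ≤ D.pS m y') (j : ZMod N) :
    (N : ℝ) • (D.pp m y (j + 1) - D.pp m y j) =
      (D.G ((px m y (j + 1)).1, D.pp m y (j + 1), (px m y (j + 1)).2)).2.1 := by
  funext k
  have hd : (∞ : WithTop ℕ∞) ≠ 0 := by simp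
  set η : ZMod N → E d := Pi.single (j + 1) (Pi.single k 1) with hη
  have e0 : y + (0 : ℝ) • η = y := by simp
  have h1 : ∀ i, HasDerivAt (fun s : ℝ => px m (y + s • η) i) (η i, 0) 0 := fun i => by
    refine HasDerivAt.prodMk ?_ (hasDerivAt_const _ _)
    exact ((((hasDerivAt_id (0 : ℝ)).smul_const (η i)).const_add (y i)).add_const _).congr_deriv
      (one_smul _ _)
  have h2 : ∀ i, HasDerivAt (fun s : ℝ => D.X (px m (y + s • η) i))
      (fderiv ℝ D.X (px m y i) (η i, 0)) 0 := fun i =>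
    (D.X_smooth.differentiable hd (px m y i)).hasFDerivAt.comp_hasDerivAt_of_eq 0 (h1 i)
      (by rw [e0])
  have h3 : ∀ i, HasDerivAt (fun s : ℝ => D.P (px m (y + s • η) i))
      (fderiv ℝ D.P (px m y i) (η i, 0)) 0 := fun i =>
    (D.P_smooth.differentiable hd (px m y i)).hasFDerivAt.comp_hasDerivAt_of_eq 0 (h1 i)
      (by rw [e0])
  have h4 : ∀ i l, HasDerivAt (fun s : ℝ => D.pp m (y + s • η) i l)
      (N * (η (i + 1) l - η i l) - fderiv ℝ D.X (px m y i) (η i, 0) l) 0 := fun i l => by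
    have a1 : ∀ i, HasDerivAt (fun s : ℝ => y i l + s * η i l) (η i l) 0 := fun i => by
      simpa using ((hasDerivAt_id (0 : ℝ)).mul_const (η i l)).const_add (y i l)
    exact ((((a1 (i + 1)).sub (a1 i)).const_mul (N : ℝ)).add_const (ic m l)).sub
      (hasDerivAt_pi.1 (h2 i) l)
  have h5 : HasDerivAt (fun s : ℝ => D.pS m (y + s • η))
      (∑ i, ((∑ l, D.pp m y i l * (N * (η (i + 1) l - η i l) -
        fderiv ℝ D.X (px m y i) (η i, 0) l)) + fderiv ℝ D.P (px m y i) (η i, 0))) 0 := by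
    refine HasDerivAt.fun_sum fun i _ => HasDerivAt.add ?_ (h3 i)
    have a1 := (HasDerivAt.fun_sum fun l (_ : l ∈ Finset.univ) => (h4 i l).fun_pow 2).div_const 2
    refine a1.congr_deriv ?_
    rw [Finset.sum_div]
    refine Finset.sum_congr rfl fun l _ => ?_
    rw [e0]
    push_cast
    ring
  have h6 : IsLocalMin (fun s : ℝ => D.pS m (y + s • η)) 0 :=
    Eventually.of_forall fun s => by simpa only [e0] using h (y + s • η)
  have h7 := h6.hasDerivAt_eq_zero h5
  have s1 : ∑ i, ∑ l, D.pp m y i l * η (i + 1) l = D.pp m y j k := by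
    rw [Finset.sum_eq_single j (fun i _ hi => by
      simp [hη, Pi.single_eq_of_ne (fun h => hi (add_right_cancel h) : i + 1 ≠ j + 1)]) (by simp)]
    simp [hη, Pi.single_apply]
  have s2 : ∑ i, (-(∑ l, D.pp m y i l * (N * η i l + fderiv ℝ D.X (px m y i) (η i, 0) l)) +
      fderiv ℝ D.P (px m y i) (η i, 0)) = -(N * D.pp m y (j + 1) k) +
      (D.G ((px m y (j + 1)).1, D.pp m y (j + 1), (px m y (j + 1)).2)).2.1 k := by
    rw [Finset.sum_eq_single (j + 1) (fun i _ hi => by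
      have : ((0 : E d), (0 : ℝ)) = 0 := rfl
      simp [hη, Pi.single_eq_of_ne hi, this]) (by simp)]
    simp only [hη, Pi.single_eq_same, G, mul_add, Finset.sum_add_distrib]
    have : ∑ l, D.pp m y (j + 1) l * (N * (Pi.single k 1 : E d) l) = N * D.pp m y (j + 1) k := by
      simp [Pi.single_apply, mul_comm]
    rw [this]
    ring
  have s3 : ∑ i, ((∑ l, D.pp m y i l * (N * (η (i + 1) l - η i l) -
      fderiv ℝ D.X (px m y i) (η i, 0) l)) + fderiv ℝ D.P (px m y i) (η i, 0)) =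
      N * (∑ i, ∑ l, D.pp m y i l * η (i + 1) l) +
      ∑ i, (-(∑ l, D.pp m y i l * (N * η i l + fderiv ℝ D.X (px m y i) (η i, 0) l)) +
        fderiv ℝ D.P (px m y i) (η i, 0)) := by
    rw [Finset.mul_sum, ← Finset.sum_add_distrib]
    refine Finset.sum_congr rfl fun i _ => ?_
    rw [← add_assoc, Finset.mul_sum, ← sub_eq_add_neg, ← Finset.sum_sub_distrib]
    congr 1
    exact Finset.sum_congr rfl fun l _ => by ring
  rw [s3, s1, s2] at h7
  simp only [Pi.smul_apply, Pi.sub_apply, smul_eq_mul]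
  linarith

end

theorem G_bound : ∃ K : ℝ, 0 ≤ K ∧ ∀ x p t, ‖(D.G (x, p, t)).2.1‖ ≤ K * (1 + ‖p‖) := by
  have two : ((1 : WithTop ℕ∞) + 1) ≤ ∞ := by
    rw [one_add_one_eq_two]
    exact WithTop.coe_le_coe.2 (le_top : (2 : ℕ∞) ≤ ⊤)
  obtain ⟨C2, h2, hdX⟩ := bdd_of_per (D.X_smooth.fderiv_right two).continuous
    fun z m y => fderiv_per (a := 0) (fun y => by rw [D.X_per, add_zero]) y
  obtain ⟨C3, h3, hdP⟩ := bdd_of_per (D.P_smooth.fderiv_right two).continuous
    fun z m y => fderiv_per (a := 0) (fun y => by rw [D.P_per, add_zero]) y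
  refine ⟨C3 + d * C2, by positivity, fun x p t => ?_⟩
  have he : ∀ j : Fin d, ‖((Pi.single j 1 : E d), (0 : ℝ))‖ ≤ 1 := fun j => by
    rw [Prod.norm_def, Pi.norm_single]; simp
  have hp := norm_nonneg p
  have hd : 0 ≤ (d : ℝ) * C2 := by positivity
  refine (pi_norm_le_iff_of_nonneg (by positivity)).2 fun j => (norm_sub_le _ _).trans ?_
  have a1 : ‖fderiv ℝ D.P (x, t) (Pi.single j 1, 0)‖ ≤ C3 :=
    (ContinuousLinearMap.le_opNorm _ _).trans
      ((mul_le_mul (hdP _) (he j) (norm_nonneg _) h3).trans (by rw [mul_one]))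
  have a2 : ‖fderiv ℝ D.X (x, t) (Pi.single j 1, 0)‖ ≤ C2 :=
    (ContinuousLinearMap.le_opNorm _ _).trans
      ((mul_le_mul (hdX _) (he j) (norm_nonneg _) h2).trans (by rw [mul_one]))
  have a3 : ‖∑ i, p i * fderiv ℝ D.X (x, t) (Pi.single j 1, 0) i‖ ≤ d * C2 * ‖p‖ := by
    refine (norm_sum_le _ _).trans ?_
    refine (Finset.sum_le_card_nsmul _ _ (C2 * ‖p‖) fun i _ => ?_).trans ?_
    · rw [norm_mul, mul_comm]
      exact mul_le_mul ((norm_le_pi_norm _ i).trans a2) (norm_le_pi_norm _ i) (norm_nonneg _) h2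
    · simp [mul_assoc]
  nlinarith

theorem pS_bound : ∃ A : ℝ, 0 ≤ A ∧ ∀ (N : ℕ) [NeZero N] (y : ZMod N → E d),
    D.pS m y ≤ D.pS m (0 : ZMod N → E d) →
      ∑ i, ‖D.pp m y i‖ ≤ N * A ∧ ∀ i, ‖y i - y 0‖ ≤ A := by
  obtain ⟨C1, h1, hX⟩ := bdd_of_per D.X_smooth.continuous D.X_per
  obtain ⟨C2, h2, hP⟩ := bdd_of_per D.P_smooth.continuous D.P_per
  set c : ℝ := ‖ic m‖ + C1 with hc
  have hc0 : 0 ≤ c := by positivity
  have hc' : ∀ w, ‖ic m - D.X w‖ ≤ c := fun w => (norm_sub_le _ _).trans (by linarith [hX w])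
  set A₀ : ℝ := 1 + 2 * (d * c ^ 2 / 2 + C2) with hA₀
  have hA₀0 : 0 ≤ A₀ := by positivity
  refine ⟨A₀ + c, by positivity, fun N _ y hy => ?_⟩
  have hN : (0 : ℝ) < N := by exact_mod_cast NeZero.pos N
  have a1 : D.pS m (0 : ZMod N → E d) ≤ N * (d * c ^ 2 / 2 + C2) := by
    refine (Finset.sum_le_card_nsmul _ _ (d * c ^ 2 / 2 + C2) fun i _ => ?_).trans
      (by rw [Finset.card_univ, ZMod.card, nsmul_eq_mul])
    refine add_le_add (div_le_div_of_nonneg_right ?_ zero_le_two) ((le_abs_self _).trans (hP _))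
    refine (Finset.sum_le_card_nsmul _ _ (c ^ 2) fun k _ => ?_).trans (by simp)
    rw [← sq_abs]
    refine pow_le_pow_left₀ (abs_nonneg _)
      (le_trans (norm_le_pi_norm (D.pp m (0 : ZMod N → E d) i) k) ?_) 2
    simpa [pp] using hc' _
  have a2 : ∑ i, ‖D.pp m y i‖ ≤ N * A₀ := by
    calc ∑ i, ‖D.pp m y i‖
        ≤ ∑ i, (1 + 2 * ((∑ k, D.pp m y i k ^ 2) / 2 + D.P (px m y i))) :=
          Finset.sum_le_sum fun i _ => by
            nlinarith [norm_sq_le (D.pp m y i), D.P_nonneg (px m y i),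
              sq_nonneg (‖D.pp m y i‖ - 1), norm_nonneg (D.pp m y i)]
      _ = N + 2 * D.pS m y := by
          rw [Finset.sum_add_distrib, ← Finset.mul_sum]
          simp [pS]
      _ ≤ N * A₀ := by
          rw [hA₀]
          linarith
  refine ⟨a2.trans (by nlinarith), fun i => (cyc_var y i).trans ?_⟩
  refine le_of_mul_le_mul_left ?_ hN
  calc N * ∑ i, ‖y (i + 1) - y i‖ = ∑ i, ‖D.pp m y i - (ic m - D.X (px m y i))‖ := by
        rw [Finset.mul_sum]
        refine Finset.sum_congr rfl fun i _ => ?_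
        rw [pp, add_sub_assoc, add_sub_cancel_right, norm_smul, Real.norm_of_nonneg hN.le]
    _ ≤ ∑ i, (‖D.pp m y i‖ + c) :=
        Finset.sum_le_sum fun i _ => (norm_sub_le _ _).trans (by linarith [hc' (px m y i)])
    _ ≤ N * (A₀ + c) := by
        rw [Finset.sum_add_distrib]
        simp only [Finset.sum_const, Finset.card_univ, ZMod.card, nsmul_eq_mul]
        linarith

theorem exists_poly : ∃ R : ℝ, ∀ N : ℕ, 0 < N → ∃ z : ℕ → E d × E d × ℝ,
    z 0 ∈ {w : E d × E d × ℝ | w.2.2 = 0} ∧ z N = z 0 + (ic m, 0, 1) ∧ (∀ n ≤ N, ‖z n‖ ≤ R) ∧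
      ∀ n < N, ‖z (n + 1) - z n - (N : ℝ)⁻¹ • D.G (z n)‖ ≤
        (N : ℝ)⁻¹ * ‖D.G (z (n + 1)) - D.G (z n)‖ := by
  obtain ⟨A, hA, hb⟩ := D.pS_bound m
  obtain ⟨K, hK, hG⟩ := D.G_bound
  refine ⟨1 + A + ‖ic m‖ + (A + 2 * (K * (1 + A))), fun N hN => ?_⟩
  have : NeZero N := ⟨hN.ne'⟩
  have hN' : (0 : ℝ) < N := by exact_mod_cast hN
  obtain ⟨y, hy, hmin⟩ := (isCompact_closedBall (0 : ZMod N → E d) (1 + A)).exists_isMinOn
    ⟨0, Metric.mem_closedBall_self (by positivity)⟩ (D.pS_cont m).continuousOn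
  have h0 : D.pS m y ≤ D.pS m (0 : ZMod N → E d) :=
    hmin (Metric.mem_closedBall_self (by positivity))
  have hall : ∀ y' : ZMod N → E d, D.pS m y ≤ D.pS m y' := fun y' => by
    rw [← D.pS_shift m (fun k => -⌊y' 0 k⌋) y']
    refine le_of_not_gt fun hlt => hlt.not_ge (hmin ?_)
    have b1 := (hb N _ (hlt.le.trans h0)).2
    have b2 : ‖y' 0 + ic fun k => -⌊y' 0 k⌋‖ ≤ 1 :=
      (pi_norm_le_iff_of_nonneg zero_le_one).2 fun k => by
        have e : (y' 0 + ic fun k => -⌊y' 0 k⌋) k = Int.fract (y' 0 k) := by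
          simp [ic, Int.fract, sub_eq_add_neg]
        rw [e, Real.norm_of_nonneg (Int.fract_nonneg _)]
        exact (Int.fract_lt_one _).le
    refine mem_closedBall_zero_iff.2 ((pi_norm_le_iff_of_nonneg (by positivity)).2 fun i => ?_)
    have b3 := norm_add_le (y' i + ic (fun k => -⌊y' 0 k⌋) - (y' 0 + ic fun k => -⌊y' 0 k⌋))
      (y' 0 + ic fun k => -⌊y' 0 k⌋)
    rw [sub_add_cancel] at b3
    linarith [b1 i]
  have c1 := (hb N y h0).1
  have c2 : ∑ i, ‖D.pp m y (i + 1) - D.pp m y i‖ ≤ K * (1 + A) := by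
    refine le_of_mul_le_mul_left ?_ hN'
    calc N * ∑ i, ‖D.pp m y (i + 1) - D.pp m y i‖ ≤ ∑ i, K * (1 + ‖D.pp m y (i + 1)‖) := by
          rw [Finset.mul_sum]
          refine Finset.sum_le_sum fun i _ => ?_
          rw [← Real.norm_of_nonneg hN'.le, ← norm_smul, D.pS_crit m hall i]
          exact hG _ _ _
      _ = K * (N + ∑ i, ‖D.pp m y i‖) := by
          rw [← Finset.mul_sum, Finset.sum_add_distrib,
            show ∑ i, ‖D.pp m y (i + 1)‖ = _ from
              Equiv.sum_comp (Equiv.addRight (1 : ZMod N)) fun i => ‖D.pp m y i‖]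
          simp
      _ ≤ _ := by nlinarith
  have c3 : ∀ i, ‖D.pp m y i - D.pp m y 0‖ ≤ K * (1 + A) := fun i => (cyc_var _ i).trans c2
  have c4 : ‖D.pp m y 0‖ ≤ A + K * (1 + A) := by
    refine le_of_mul_le_mul_left ?_ hN'
    calc N * ‖D.pp m y 0‖ = ∑ _i : ZMod N, ‖D.pp m y 0‖ := by simp
      _ ≤ ∑ i, (‖D.pp m y i‖ + K * (1 + A)) := Finset.sum_le_sum fun i _ => by
          linarith [c3 i, norm_sub_norm_le (D.pp m y 0) (D.pp m y i),
            norm_sub_rev (D.pp m y 0) (D.pp m y i)]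
      _ ≤ _ := by
          rw [Finset.sum_add_distrib]
          simp only [Finset.sum_const, Finset.card_univ, ZMod.card, nsmul_eq_mul]
          linarith
  have c5 : ∀ i, ‖D.pp m y i‖ ≤ A + 2 * (K * (1 + A)) := fun i => by
    linarith [c3 i, norm_sub_norm_le (D.pp m y i) (D.pp m y 0)]
  have hinv : (N : ℝ) * (N : ℝ)⁻¹ = 1 := mul_inv_cancel₀ hN'.ne'
  set z : ℕ → E d × E d × ℝ := fun n =>
    (y n + ((n : ℝ) * (N : ℝ)⁻¹) • ic m, D.pp m y n, (n : ℝ) * (N : ℝ)⁻¹) with hz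
  have zN : z N = z 0 + (ic m, 0, 1) := by simp [hz, hinv]
  have zG : ∀ n ≤ N, D.G (z n) = D.G ((px m y n).1, D.pp m y n, (px m y n).2) := fun n hn => by
    rcases hn.eq_or_lt with rfl | hn
    · have := D.G_per m 1 (y 0) (D.pp m y 0) 0
      simpa [hz, hinv, px] using this
    · simp only [hz, px, ZMod.val_cast_of_lt hn]
  refine ⟨z, by simp [hz], zN, fun n hn => ?_, fun n hn => ?_⟩
  · have t0 : 0 ≤ (n : ℝ) * (N : ℝ)⁻¹ := by positivity
    have t1 : (n : ℝ) * (N : ℝ)⁻¹ ≤ 1 :=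
      (mul_le_mul_of_nonneg_right (by exact_mod_cast hn) (by positivity)).trans hinv.le
    have y1 : ‖y n‖ ≤ 1 + A := (norm_le_pi_norm y _).trans (mem_closedBall_zero_iff.1 hy)
    have y2 := norm_add_le (y n) (((n : ℝ) * (N : ℝ)⁻¹) • ic m)
    rw [norm_smul, Real.norm_of_nonneg t0] at y2
    have y3 := mul_le_mul_of_nonneg_right t1 (norm_nonneg (ic m))
    have y4 : 0 ≤ K * (1 + A) := by positivity
    have y5 := norm_nonneg (ic m)
    simp only [hz, Prod.norm_def, Real.norm_of_nonneg t0]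
    exact max_le (by linarith) (max_le (by linarith [c5 n]) (by linarith))
  · have e1 : (D.G (z n)).1 = (N : ℝ) • (y (n + 1) - y n) + ic m := by
      rw [zG n hn.le]
      simp only [G, pp]
      abel
    have e2 : (D.G (z (n + 1))).2.1 = (N : ℝ) • (D.pp m y (n + 1) - D.pp m y n) := by
      rw [zG (n + 1) hn, D.pS_crit m hall n, Nat.cast_add_one]
    have e3 : (D.G (z n)).2.2 = 1 := rfl
    have e : z (n + 1) - z n - (N : ℝ)⁻¹ • D.G (z n) =
        (N : ℝ)⁻¹ • (0, (D.G (z (n + 1)) - D.G (z n)).2.1, 0) := by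
      refine Prod.ext ?_ (Prod.ext ?_ ?_)
      · simp only [Prod.fst_sub, Prod.smul_fst, e1, smul_zero]
        simp only [hz, Nat.cast_add_one, smul_add, smul_smul, inv_mul_cancel₀ hN'.ne', one_smul,
          add_mul, one_mul, add_smul]
        abel
      · simp only [Prod.fst_sub, Prod.snd_sub, Prod.smul_fst, Prod.smul_snd, e2, smul_sub]
        simp only [hz, Nat.cast_add_one, smul_smul, inv_mul_cancel₀ hN'.ne', one_smul]
      · simp only [Prod.snd_sub, Prod.smul_snd, e3, smul_zero]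
        simp only [hz, Nat.cast_add_one, smul_eq_mul]
        ring
    rw [e, norm_smul, Real.norm_of_nonneg (by positivity)]
    refine mul_le_mul_of_nonneg_left ?_ (by positivity)
    simp only [Prod.norm_def, norm_zero]
    exact max_le (by positivity) (max_le ((le_max_left _ _).trans (le_max_right _ _))
      (by positivity))

end Pool.Agent.Lib.MP_ce3247_an.Sm.Dat
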