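import Pool.Agent.Lib.MP_ce3247_an.Sm.Main
import Pool.Agent.Lib.MP_ce3247_an.Sm.Pol

/-! Every class carries an invariant measure, so beta is a finite convex function. -/

open MeasureTheory Filter Topology Set

namespace Pool.Agent.Lib.MP_ce3247_an.Sm

variable {d : ℕ}

theorem Minv_mix {L : Phase d → ℝ} (hL : Continuous L) {Φ : ℝ → Phase d → Phase d} {h h' : E d}
    {μ ν : Measure (Phase d)} (hμ : μ ∈ Minv Φ h) (hν : ν ∈ Minv Φ h') {a b : ℝ} (ha : 0 ≤ a)
    (hb : 0 ≤ b) (hab : a + b = 1) :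
    ∃ η ∈ Minv Φ (a • h + b • h'), ∫ z, L z ∂η = a * ∫ z, L z ∂μ + b * ∫ z, L z ∂ν := by
  obtain ⟨p1, ⟨K, hK, hK0⟩, i1, r1⟩ := hμ
  obtain ⟨p2, ⟨K', hK', hK0'⟩, i2, r2⟩ := hν
  have key : ∀ {F : Type} [NormedAddCommGroup F] [NormedSpace ℝ F] {f : Phase d → F},
      Continuous f → ∫ z, f z ∂(ENNReal.ofReal a • μ + ENNReal.ofReal b • ν) =
        a • ∫ z, f z ∂μ + b • ∫ z, f z ∂ν := by
    intro F _ _ f hf
    rw [integral_add_measure ((Sub_integrable hK hK0 hf).smul_measure ENNReal.ofReal_ne_top)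
      ((Sub_integrable hK' hK0' hf).smul_measure ENNReal.ofReal_ne_top), integral_smul_measure,
      integral_smul_measure, ENNReal.toReal_ofReal ha, ENNReal.toReal_ofReal hb]
  refine ⟨ENNReal.ofReal a • μ + ENNReal.ofReal b • ν, ⟨⟨?_⟩, ⟨K ∪ K', hK.union hK', ?_⟩,
    fun s => ⟨(i1 s).measurable, ?_⟩, ?_⟩, key hL⟩
  · simp only [Measure.add_apply, Measure.smul_apply, measure_univ, smul_eq_mul, mul_one]
    rw [← ENNReal.ofReal_add ha hb, hab]
    simp
  · simp only [Measure.add_apply, Measure.smul_apply, compl_union]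
    rw [measure_mono_null inter_subset_left hK0, measure_mono_null inter_subset_right hK0']
    simp
  · rw [Measure.map_add _ _ (i1 s).measurable, Measure.map_smul, Measure.map_smul, (i1 s).map_eq,
      (i2 s).map_eq]
  · rw [key (by fun_prop), r1, r2]

/-- The uniform measure on a closed orbit. -/
theorem Minv_loop {Φ : ℝ → Phase d → Phase d} (hΦ : ∀ s, Continuous (Φ s)) {o : ℝ → Phase d}
    (ho : Continuous o) (h1 : Function.Periodic o 1) (h2 : ∀ s t, Φ s (o t) = o (t + s)) :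
    (Minv Φ (∫ t in (0 : ℝ)..1, (o t).2.1)).Nonempty := by
  have hP : IsProbabilityMeasure ((volume : Measure ℝ).restrict (Ioc 0 1)) := ⟨by simp⟩
  have hm : AEMeasurable o ((volume : Measure ℝ).restrict (Ioc 0 1)) := ho.measurable.aemeasurable
  have hp := Measure.isProbabilityMeasure_map hm
  have hK : IsCompact (o '' Icc 0 1) := isCompact_Icc.image ho
  refine ⟨((volume : Measure ℝ).restrict (Ioc 0 1)).map o, hp, ⟨_, hK, ?_⟩,
    fun s => ⟨(hΦ s).measurable, ?_⟩, ?_⟩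
  · rw [Measure.map_apply ho.measurable hK.isClosed.measurableSet.compl,
      Measure.restrict_apply' measurableSet_Ioc]
    convert measure_empty (μ := (volume : Measure ℝ))
    exact eq_empty_of_forall_notMem fun t ht => ht.1 ⟨t, Ioc_subset_Icc_self ht.2, rfl⟩
  · refine ext_of_forall_integral_eq_of_IsFiniteMeasure fun f => ?_
    have c0 : Continuous fun z => f (Φ s z) := f.continuous.comp (hΦ s)
    rw [integral_map (hΦ s).measurable.aemeasurable f.continuous.aestronglyMeasurable,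
      integral_map hm c0.aestronglyMeasurable, integral_map hm f.continuous.aestronglyMeasurable,
      ← intervalIntegral.integral_of_le zero_le_one, ← intervalIntegral.integral_of_le zero_le_one]
    simp only [h2]
    rw [intervalIntegral.integral_comp_add_right (fun t => f (o t)) s, zero_add, add_comm 1 s]
    have := (h1.comp f).intervalIntegral_add_eq s 0
    rwa [zero_add] at this
  · rw [integral_map hm continuous_snd.fst.aestronglyMeasurable,
      intervalIntegral.integral_of_le zero_le_one]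

namespace Dat

open Pool.Agent.Lib.MP_7dd29b_gt

variable (D : Dat d) {r : ℕ} {Φ : ℝ → Phase d → Phase d}

theorem Minv_int (hT : Tonelli r D.Lag Φ) (m : Fin d → ℤ) : (Minv Φ (ic m)).Nonempty := by
  obtain ⟨ψ, hψ⟩ := D.exists_lift
  obtain rfl : Φ = D.Desc_Phi ψ := flow_unique hT
    ⟨D.Lag_smooth r, D.Lag_convex, D.Lag_super, Desc_complete hψ, Desc_flow hψ⟩
  obtain ⟨R, hR⟩ := D.exists_poly m
  obtain ⟨w, -, hw⟩ := closing D.G_smooth hψ
    (isClosed_eq continuous_snd.snd continuous_const) hR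
  have hc : Continuous (ψ w) :=
    continuous_iff_continuousAt.2 fun t => (hψ.deriv w trivial t).continuousAt
  have h1 := Minv_loop (Φ := D.Desc_Phi ψ) (o := fun t => D.Desc_dn (ψ w t))
    (fun s => (Desc_Phi_cont hψ).comp (Continuous.prodMk_right s)) (Desc_dn_cont.comp hc)
    (fun t => by
      have a1 := Desc_equiv hψ m 1 w.1 w.2.1 w.2.2 t
      have a2 : (w.1 + ic m, w.2.1, w.2.2 + ((1 : ℤ) : ℝ)) = ψ w 1 := by
        rw [hw]
        ext <;> simp
      rw [a2, hψ.add w trivial, add_comm 1 t] at a1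
      have hX : ∀ x t, D.X (x + ic m, t + (1 : ℤ)) = D.X (x, t) := fun x t => D.X_per m 1 (x, t)
      simp only [a1]
      refine (proj_eq_iff.2 ⟨m, 1, rfl, ?_, rfl⟩).symm
      simp only [Prod.fst_add, Prod.snd_add, add_zero, hX])
    (fun s t => by
      rw [Desc_dn, Desc_Phi_proj hψ, add_sub_cancel_right, ← hψ.add w trivial])
  have h2 : ∫ t in (0 : ℝ)..1, (D.Desc_dn (ψ w t)).2.1 = (ψ w 1).1 - (ψ w 0).1 := by
    refine intervalIntegral.integral_eq_sub_of_hasDerivAt (f := fun t => (ψ w t).1)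
      (fun t _ => ?_) ((Desc_dn_cont.comp hc).snd.fst.intervalIntegrable _ _)
    exact ((hasFDerivAt_fst (𝕜 := ℝ)).comp_hasDerivAt t (hψ.deriv w trivial t)).congr_deriv
      (add_comm _ _)
  rwa [h2, hw, hψ.zero w trivial, Prod.fst_add, add_sub_cancel_left] at h1

theorem Minv_nonempty (hT : Tonelli r D.Lag Φ) (h : E d) : (Minv Φ h).Nonempty := by
  have h1 : Convex ℝ {h : E d | (Minv Φ h).Nonempty} := by
    rintro x ⟨μ, hμ⟩ y ⟨ν, hν⟩ a b ha hb hab
    obtain ⟨η, hη, -⟩ := Minv_mix D.Lag_cont hμ hν ha hb hab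
    exact ⟨η, hη⟩
  refine convexHull_min (s := univ.pi fun _ => range fun n : ℤ => (n : ℝ)) (fun x hx => ?_) h1
    (mem_convexHull_pi fun i _ => ?_)
  · choose m hm using fun i => hx i trivial
    obtain rfl : ic m = x := funext hm
    exact D.Minv_int hT m
  · refine segment_subset_convexHull (mem_range_self ⌊h i⌋) (mem_range_self ⌈h i⌉) ?_
    rw [segment_eq_Icc ((Int.floor_le _).trans (Int.le_ceil _))]
    exact ⟨Int.floor_le _, Int.le_ceil _⟩

theorem beta_real (hT : Tonelli r D.Lag Φ) :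
    ∃ b : E d → ℝ, ConvexOn ℝ univ b ∧ ∀ h, beta D.Lag Φ h = b h := by
  have h0 : ∀ h, 0 ≤ beta D.Lag Φ h := fun h =>
    le_iInf₂ fun ν _ => EReal.coe_nonneg.2 (integral_nonneg D.Lag_nonneg)
  have h1 : ∀ h, ((beta D.Lag Φ h).toReal : EReal) = beta D.Lag Φ h := fun h => by
    obtain ⟨μ, hμ⟩ := D.Minv_nonempty hT h
    exact EReal.coe_toReal ((iInf₂_le μ hμ).trans_lt (EReal.coe_lt_top _)).ne
      (EReal.bot_lt_zero.trans_le (h0 h)).ne'
  have h2 : ∀ h, ∀ ε > 0, ∃ μ ∈ Minv Φ h, ∫ z, D.Lag z ∂μ < (beta D.Lag Φ h).toReal + ε := by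
    intro h ε hε
    have a1 : beta D.Lag Φ h < (((beta D.Lag Φ h).toReal + ε : ℝ) : EReal) := by
      conv_lhs => rw [← h1 h]
      exact EReal.coe_lt_coe_iff.2 (lt_add_of_pos_right _ hε)
    obtain ⟨μ, a2⟩ := iInf_lt_iff.1 a1
    obtain ⟨hμ, a3⟩ := iInf_lt_iff.1 a2
    exact ⟨μ, hμ, EReal.coe_lt_coe_iff.1 a3⟩
  refine ⟨fun h => (beta D.Lag Φ h).toReal, ⟨convex_univ, fun x _ y _ a b ha hb hab => ?_⟩,
    fun h => (h1 h).symm⟩
  refine le_of_forall_pos_le_add fun ε hε => ?_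
  obtain ⟨μ, hμ, m1⟩ := h2 x ε hε
  obtain ⟨ν, hν, m2⟩ := h2 y ε hε
  obtain ⟨η, hη, m3⟩ := Minv_mix D.Lag_cont hμ hν ha hb hab
  have m4 : (beta D.Lag Φ (a • x + b • y)).toReal ≤ ∫ z, D.Lag z ∂η := by
    rw [← EReal.coe_le_coe_iff, h1]
    exact iInf₂_le η hη
  have m5 := mul_le_mul_of_nonneg_left m1.le ha
  have m6 := mul_le_mul_of_nonneg_left m2.le hb
  simp only [smul_eq_mul]
  calc _ ≤ a * ((beta D.Lag Φ x).toReal + ε) + b * ((beta D.Lag Φ y).toReal + ε) := by linarith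
    _ = _ := by linear_combination ε * hab

end Dat

end Pool.Agent.Lib.MP_ce3247_an.Sm
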