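import Pool.Agent.Lib.MP_ce3247_an.Sm.Mach

/-! The boxes of the machine and its exact orbits. -/

open Finset

namespace Pool.Agent.Lib.MP_ce3247_an.Sm

/-- The data of one box in machine coordinates: source and target state, centres, radii and
scales. -/
structure BD (α Y : Type) where
  su : Bool
  sa : α
  tu : Bool
  ta : α
  yc : Y
  yt : Y
  ry : ℝ
  dy : ℝ
  wc : ℝ
  wt : ℝ
  rw : ℝ
  dw : ℝ

namespace Pre

variable {α Y : Type} [NormedAddCommGroup Y] (M : Pre α Y)

/-- The boxes: emit, push, read. -/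
abbrev Bx := α ⊕ α ⊕ Σ b, Fin (M.len b)

/-- The data of the boxes. -/
noncomputable def bd : M.Bx → BD α Y
  | .inl a => ⟨true, a, false, a, 0, 0, 1, 1, 1, 1, 1 / 8, 1⟩
  | .inr (.inl a) => ⟨true, a, true, M.w a 0, 0, M.p a 0, 1, M.ρ, 1 / 8, 1 / 2, 1 / 4, 4⟩
  | .inr (.inr ⟨b, i⟩) =>
    if i + 1 < M.len b then
      ⟨false, M.w b i, true, M.w b (i + 1), M.p b i, M.p b (i + 1), M.ρ, 1, 1 / 2, 1 / 2, 5 / 8, 1⟩
    else ⟨false, M.w b i, false, b, M.p b i, 0, M.ρ, M.ρ⁻¹, 1 / 2, 1 / 8, 5 / 8, 1 / 4⟩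

/-- The emitted value of a box. -/
def em {G : Type} [Zero G] (e : α → G) : M.Bx → G
  | .inl a => e a
  | .inr _ => 0

variable {M}

theorem bd_pos (β : M.Bx) : 0 < (M.bd β).dy ∧ 0 < (M.bd β).dw ∧ 0 ≤ (M.bd β).ry ∧
    0 ≤ (M.bd β).rw := by
  have := M.ρ_pos
  rcases β with a | a | ⟨b, i⟩ <;> simp only [bd]
  · norm_num
  · exact ⟨this, by norm_num⟩
  · split_ifs
    · exact ⟨one_pos, one_pos, this.le, by norm_num⟩
    · exact ⟨inv_pos.2 this, by norm_num, this.le, by norm_num⟩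

theorem bd_w (β : M.Bx) : |(M.bd β).wc - 1 / 2| + (M.bd β).rw ≤ 1 ∧
    |(M.bd β).wt - 1 / 2| + (M.bd β).dw * (M.bd β).rw ≤ 1 := by
  rcases β with a | a | ⟨b, i⟩ <;> simp only [bd]
  · norm_num [abs_of_nonneg]
  · norm_num [abs_of_nonpos]
  · split_ifs <;> norm_num [abs_of_nonpos]

theorem bd_y (hp : ∀ b i, ‖M.p b i‖ ≤ 1 / 2) (β : M.Bx) : ‖(M.bd β).yc‖ + (M.bd β).ry ≤ 1 ∧
    ‖(M.bd β).yt‖ + (M.bd β).dy * (M.bd β).ry ≤ 1 := by
  have h1 := M.ρ_pos
  have h2 := M.ρ_le
  rcases β with a | a | ⟨b, i⟩ <;> simp only [bd]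
  · simp
  · exact ⟨by simp, by linarith [hp a 0]⟩
  · split_ifs
    · exact ⟨by linarith [hp b i], by linarith [hp b (i + 1)]⟩
    · exact ⟨by linarith [hp b i], by simp [h1.ne']⟩

theorem bd_sub (Q : Y → Prop) (h0 : Q 0) (hp : ∀ b i, Q (M.p b i)) (β : M.Bx) :
    Q (M.bd β).yc ∧ Q (M.bd β).yt := by
  rcases β with a | a | ⟨b, i⟩ <;> simp only [bd]
  · exact ⟨h0, h0⟩
  · exact ⟨h0, hp _ _⟩
  · split_ifs
    · exact ⟨hp _ _, hp _ _⟩
    · exact ⟨hp _ _, h0⟩

theorem src_sep {β β' : M.Bx} (h1 : (M.bd β).su = (M.bd β').su) (h2 : (M.bd β).sa = (M.bd β').sa)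
    (h3 : ‖(M.bd β).yc - (M.bd β').yc‖ ≤ (M.bd β).ry + (M.bd β').ry)
    (h4 : |(M.bd β).wc - (M.bd β').wc| ≤ (M.bd β).rw + (M.bd β').rw) : β = β' := by
  have hρ := M.ρ_pos
  rcases β with a | a | ⟨b, i⟩ <;> rcases β' with a' | a' | ⟨b', i'⟩ <;>
    simp only [bd] at h1 h2 h3 h4
  · rw [h2]
  · norm_num [abs_le] at h4
  · split_ifs at h1
  · norm_num [abs_le] at h4
  · rw [h2]
  · split_ifs at h1
  · split_ifs at h1
  · split_ifs at h1
  · have : ‖M.p b i - M.p b' i'‖ < 3 * M.ρ := by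
      split_ifs at h3 <;> simp only at h3 <;> linarith
    obtain ⟨rfl, h⟩ := M.sep b i b' i' i.2 i'.2 this
    rw [Fin.ext h]

theorem tgt_sep {β β' : M.Bx} (h1 : (M.bd β).tu = (M.bd β').tu) (h2 : (M.bd β).ta = (M.bd β').ta)
    (h3 : ‖(M.bd β).yt - (M.bd β').yt‖ ≤ (M.bd β).dy * (M.bd β).ry + (M.bd β').dy * (M.bd β').ry)
    (h4 : |(M.bd β).wt - (M.bd β').wt| ≤
      (M.bd β).dw * (M.bd β).rw + (M.bd β').dw * (M.bd β').rw) : β = β' := by
  have hρ := M.ρ_pos
  rcases β with a | a | ⟨b, i⟩ <;> rcases β' with a' | a' | ⟨b', i'⟩ <;>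
    simp only [bd] at h1 h2 h3 h4
  · rw [h2]
  · cases h1
  · split_ifs at h1 h4
    norm_num [abs_le] at h4
  · cases h1
  · rw [(M.sep a 0 a' 0 (M.len_pos a) (M.len_pos a') (by linarith)).1]
  · split_ifs at h1 h3 with h
    have := (M.sep a 0 b' (i' + 1) (M.len_pos a) h (by simp only at h3; linarith)).2
    omega
  · split_ifs at h1 h4
    norm_num [abs_le] at h4
  · split_ifs at h1 h3 with h
    have := (M.sep b (i + 1) a' 0 h (M.len_pos a') (by simp only at h3; linarith)).2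
    omega
  · split_ifs at h1 h2 h3 with h h'
    · obtain ⟨rfl, k⟩ := M.sep b (i + 1) b' (i' + 1) h h' (by simp only at h3; linarith)
      rw [Fin.ext (show (i : ℕ) = i' by omega)]
    · simp only at h2
      subst h2
      rw [Fin.ext (show (i : ℕ) = i' by have := i.2; have := i'.2; omega)]

variable [NormedSpace ℝ Y]

variable (M) in
/-- The configuration lies well inside the box. -/
def In (β : M.Bx) (x : Cfg α Y) : Prop :=
  x.up = (M.bd β).su ∧ x.a = (M.bd β).sa ∧ ‖x.y - (M.bd β).yc‖ ≤ (M.bd β).ry - M.ρ / 4 ∧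
    |x.w - (M.bd β).wc| ≤ (M.bd β).rw - M.ρ / 4

variable (M) in
/-- The image of a configuration under the map of a box. -/
noncomputable def nxt (β : M.Bx) (x : Cfg α Y) : Cfg α Y :=
  ⟨(M.bd β).tu, (M.bd β).ta, (M.bd β).yt + (M.bd β).dy • (x.y - (M.bd β).yc),
    (M.bd β).wt + (M.bd β).dw * (x.w - (M.bd β).wc)⟩

omit [NormedSpace ℝ Y] in
theorem In.unique {β β' : M.Bx} {x : Cfg α Y} (h : M.In β x) (h' : M.In β' x) : β = β' := by
  have hρ := M.ρ_pos
  refine src_sep (h.1.symm.trans h'.1) (h.2.1.symm.trans h'.2.1) ?_ ?_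
  · have := norm_sub_le_norm_sub_add_norm_sub (M.bd β).yc x.y (M.bd β').yc
    rw [norm_sub_rev (M.bd β).yc x.y] at this
    linarith [h.2.2.1, h'.2.2.1]
  · have := abs_sub_le (M.bd β).wc x.w (M.bd β').wc
    rw [abs_sub_comm (M.bd β).wc x.w] at this
    linarith [h.2.2.2, h'.2.2.2]

variable {G : Type} [AddCommMonoid G] {e : α → G}

variable (M e) in
/-- An exact orbit segment with its total emission. -/
inductive Orb : Cfg α Y → ℕ → G → Cfg α Y → Prop
  | nil (x) : Orb x 0 0 x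
  | cons {x x' n κ} (β) : M.In β x → Orb (M.nxt β x) n κ x' → Orb x (n + 1) (M.em e β + κ) x'

theorem Orb.trans {x x' x'' n n' κ κ'} (h : M.Orb e x n κ x') (h' : M.Orb e x' n' κ' x'') :
    M.Orb e x (n + n') (κ + κ') x'' := by
  induction h with
  | nil => simpa using h'
  | cons β h1 _ ih =>
    have := Orb.cons β h1 (ih h')
    rwa [← add_assoc, add_right_comm] at this

open Classical in
variable (M) in
/-- The box of a configuration. -/
noncomputable def bx (x : Cfg α Y) : M.Bx := if h : ∃ β, M.In β x then h.choose else .inl x.a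

omit [NormedSpace ℝ Y] in
theorem In.bx_eq {β : M.Bx} {x : Cfg α Y} (h : M.In β x) : M.bx x = β := by
  have k : ∃ β, M.In β x := ⟨β, h⟩
  rw [bx, dif_pos k]
  exact k.choose_spec.unique h

variable (M) in
/-- The orbit of a configuration. -/
noncomputable def it (x : Cfg α Y) (n : ℕ) : Cfg α Y := (fun x => M.nxt (M.bx x) x)^[n] x

theorem it_succ (x : Cfg α Y) (n : ℕ) : M.it x (n + 1) = M.nxt (M.bx (M.it x n)) (M.it x n) :=
  Function.iterate_succ_apply' _ _ _

theorem it_add (x : Cfg α Y) (n m : ℕ) : M.it x (n + m) = M.it (M.it x n) m := by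
  rw [it, add_comm, Function.iterate_add_apply]; rfl

theorem Orb.iter {x x' n κ} (h : M.Orb e x n κ x') : M.it x n = x' ∧
    ∑ i ∈ range n, M.em e (M.bx (M.it x i)) = κ ∧ ∀ i < n, M.In (M.bx (M.it x i)) (M.it x i) := by
  induction h with
  | nil => exact ⟨rfl, by simp, by simp⟩
  | @cons x x' n κ β h1 _ ih =>
    have k : ∀ i, M.it x (i + 1) = M.it (M.nxt β x) i := fun i => by
      rw [it, Function.iterate_succ_apply, h1.bx_eq]; rfl
    refine ⟨by rw [k, ih.1], ?_, fun i hi => ?_⟩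
    · rw [sum_range_succ', add_comm]
      simp only [k, ih.2.1]
      rw [show M.it x 0 = x from rfl, h1.bx_eq]
    · rcases i with _ | i
      · rw [show M.it x 0 = x from rfl, h1.bx_eq]
        exact h1
      · rw [k]
        exact ih.2.2 i (by omega)

variable (M) in
/-- The time that the machine needs for the level `n` word of a letter. -/
def tm : ℕ → α → ℕ
  | 0, _ => 1
  | n + 1, b => ∑ i ∈ range (M.len b), (tm n (M.w b i) + 1) + 1

variable (M e) in
/-- The total emission of the level `n` word of a letter. -/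
def ks : ℕ → α → G
  | 0, a => e a
  | n + 1, b => ∑ i ∈ range (M.len b), ks n (M.w b i)

theorem push {a : α} {y : Y} {w : ℝ} (hy : ‖y‖ ≤ 3 / 4) (h0 : 0 ≤ w) (h1 : w ≤ 1 / 4) {n κ x'}
    (h : M.Orb e ⟨true, M.w a 0, M.p a 0 + M.ρ • y, 4 * w⟩ n κ x') :
    M.Orb e ⟨true, a, y, w⟩ (n + 1) κ x' := by
  have := M.ρ_le
  have k := Orb.cons (M := M) (e := e) (x := ⟨true, a, y, w⟩) (x' := x') (n := n) (κ := κ) (.inr (.inl a))
    ⟨rfl, rfl, by simp only [bd, sub_zero]; linarith,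
      by simp only [bd]; rw [abs_le]; constructor <;> linarith⟩
    (by
      convert h using 1
      simp only [nxt, bd, sub_zero]
      congr 1
      ring)
  simpa [em] using k

theorem word (hp : ∀ b i, ‖M.p b i‖ ≤ 1 / 2) (n : ℕ) : ∀ (a : α) (y : Y), ‖y‖ ≤ 3 / 4 →
    M.Orb e ⟨true, a, y, (1 / 4) ^ n⟩ (M.tm n a) (M.ks e n a) ⟨false, a, y, (1 / 4) ^ n⟩ := by
  have hρ := M.ρ_pos
  have hρ' := M.ρ_le
  induction n with
  | zero =>
    intro a y hy
    have k := Orb.cons (M := M) (e := e) (x := ⟨true, a, y, 1⟩) (.inl a)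
      ⟨rfl, rfl, by simp only [bd, sub_zero]; linarith, by simp only [bd, sub_self, abs_zero]; linarith⟩
      (Orb.nil _)
    simpa [em, nxt, bd, tm, ks] using k
  | succ n ih =>
    intro b y hy
    have h0 : (0 : ℝ) ≤ (1 / 4) ^ n := by positivity
    have h1 : (1 / 4 : ℝ) ^ n ≤ 1 := pow_le_one₀ (by norm_num) (by norm_num)
    have h2 : ‖M.ρ • y‖ ≤ M.ρ - M.ρ / 4 := by
      rw [norm_smul, Real.norm_of_nonneg hρ.le]; nlinarith
    have h3 : ∀ i, ‖M.p b i + M.ρ • y‖ ≤ 3 / 4 := fun i => by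
      linarith [norm_add_le (M.p b i) (M.ρ • y), hp b i]
    have h4 : |(1 / 4 : ℝ) ^ n - 1 / 2| ≤ 5 / 8 - M.ρ / 4 := by
      rw [abs_le]; constructor <;> linarith
    have key : ∀ m i, i + m + 1 = M.len b →
        M.Orb e ⟨true, M.w b i, M.p b i + M.ρ • y, (1 / 4) ^ n⟩
          (∑ j ∈ Ico i (M.len b), (M.tm n (M.w b j) + 1)) (∑ j ∈ Ico i (M.len b), M.ks e n (M.w b j))
          ⟨false, b, y, (1 / 4) ^ (n + 1)⟩ := by
      intro m
      induction m with
      | zero =>
        intro i hi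
        have hi' : ¬(i + 1 < M.len b) := by omega
        have k := Orb.cons (M := M) (e := e) (x := ⟨false, M.w b i, M.p b i + M.ρ • y, (1 / 4) ^ n⟩)
          (.inr (.inr ⟨b, ⟨i, by omega⟩⟩)) (by
            simp only [In, bd, if_neg hi', add_sub_cancel_left]
            exact ⟨trivial, trivial, h2, h4⟩) (Orb.nil _)
        have k2 := (ih _ _ (h3 i)).trans k
        rw [← hi]
        convert k2 using 1
        · simp
        · simp [em]
        · simp only [nxt, bd, if_neg hi', add_sub_cancel_left, smul_smul, inv_mul_cancel₀ hρ.ne',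
            one_smul, zero_add]
          congr 1
          ring
      | succ m ihm =>
        intro i hi
        have hi' : i + 1 < M.len b := by omega
        have k := Orb.cons (M := M) (e := e) (x := ⟨false, M.w b i, M.p b i + M.ρ • y, (1 / 4) ^ n⟩)
          (.inr (.inr ⟨b, ⟨i, by omega⟩⟩)) (by
            simp only [In, bd, if_pos hi', add_sub_cancel_left]
            exact ⟨trivial, trivial, h2, h4⟩) (by
            convert ihm (i + 1) (by omega) using 1
            simp only [nxt, bd, if_pos hi', add_sub_cancel_left, one_smul]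
            congr 1
            ring)
        have k2 := (ih _ _ (h3 i)).trans k
        rw [sum_eq_sum_Ico_succ_bot (by omega : i < M.len b),
          sum_eq_sum_Ico_succ_bot (by omega : i < M.len b)]
        convert k2 using 1
        · ring
        · simp [em]
    have k := key (M.len b - 1) 0 (by have := M.len_pos b; omega)
    rw [← range_eq_Ico] at k
    refine push hy (by positivity) (by rw [pow_succ]; linarith) ?_
    rw [show (4 : ℝ) * (1 / 4) ^ (n + 1) = (1 / 4) ^ n by ring]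
    exact k

omit [NormedSpace ℝ Y] in
theorem tm_ge (n : ℕ) : ∀ b, M.ks (fun _ => 1) n b + n ≤ M.tm n b := by
  induction n with
  | zero => intro b; simp [tm, ks]
  | succ n ih =>
    intro b
    have h := sum_le_sum (s := range (M.len b)) fun i _ => ih (M.w b i)
    have h1 := M.len_pos b
    simp only [tm, ks, sum_add_distrib, sum_const, card_range, smul_eq_mul] at h ⊢
    nlinarith

omit [NormedSpace ℝ Y] in
theorem tm_le (h2 : ∀ b, 2 ≤ M.len b) (n : ℕ) :
    ∀ b, M.tm n b + 3 ≤ 4 * M.ks (fun _ => 1) n b ∧ n + 1 ≤ M.ks (fun _ => 1) n b := by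
  induction n with
  | zero => intro b; simp [tm, ks]
  | succ n ih =>
    intro b
    have h := sum_le_sum (s := range (M.len b)) fun i _ => (ih (M.w b i)).1
    have h' := sum_le_sum (s := range (M.len b)) fun i _ => (ih (M.w b i)).2
    have h1 := h2 b
    simp only [tm, ks, sum_add_distrib, sum_const, card_range, smul_eq_mul, ← mul_sum] at h h' ⊢
    constructor <;> nlinarith

/-- The orbit that spells the fixed point of the substitution, and a fixed point of the machine. -/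
theorem exists_orbit (hp : ∀ b i, ‖M.p b i‖ ≤ 1 / 2) (h2 : ∀ b, 2 ≤ M.len b) {a : α}
    (ha : M.w a 0 = a) : ∃ x x₀ : Cfg α Y, (∀ n, M.In (M.bx (M.it x n)) (M.it x n)) ∧
      (∀ n, ∑ i ∈ range (M.tm n a - n), M.em e (M.bx (M.it x i)) = M.ks e n a) ∧
      M.In (.inr (.inl a)) x₀ ∧ M.nxt (.inr (.inl a)) x₀ = x₀ := by
  have hρ := M.ρ_pos
  have hρ' := M.ρ_le
  set y : Y := (1 - M.ρ)⁻¹ • M.p a 0 with hy
  have h0 : 0 < 1 - M.ρ := by linarith
  have hy1 : ‖y‖ ≤ 3 / 4 := by
    rw [hy, norm_smul, Real.norm_of_nonneg (inv_pos.2 h0).le, inv_mul_le_iff₀ h0]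
    linarith [hp a 0]
  have hy2 : M.p a 0 + M.ρ • y = y := by
    have : M.p a 0 = (1 - M.ρ) • y := by rw [hy, smul_smul, mul_inv_cancel₀ h0.ne', one_smul]
    rw [this, ← add_smul, sub_add_cancel, one_smul]
  have up : ∀ n, M.Orb e ⟨true, a, y, (1 / 4) ^ n⟩ n 0 ⟨true, a, y, 1⟩ := by
    intro n
    induction n with
    | zero => simpa using Orb.nil _
    | succ n ih =>
      have h1 : (1 / 4 : ℝ) ^ n ≤ 1 := pow_le_one₀ (by norm_num) (by norm_num)
      refine push hy1 (by positivity) (by rw [pow_succ]; linarith) ?_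
      rw [ha, hy2]
      convert ih using 2
      ring
  have hn : ∀ n, n + (M.tm n a - n) = M.tm n a ∧ n < M.tm n a - n := fun n => by
    have k1 := tm_ge (M := M) n a
    have k2 := (tm_le h2 n a).2
    omega
  refine ⟨⟨true, a, y, 1⟩, ⟨true, a, y, 0⟩, fun n => ?_, fun n => ?_,
    ⟨rfl, rfl, by simp only [bd, sub_zero]; linarith,
      by simp only [bd]; rw [abs_le]; constructor <;> linarith⟩, ?_⟩
  · have k := (word (e := e) hp n a y hy1).iter.2.2 (n + n) (by have := hn n; omega)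
    rwa [it_add, (up n).iter.1] at k
  · have k := (word (e := e) hp n a y hy1).iter.2.1
    rw [← (hn n).1, sum_range_add, (up n).iter.2.1, zero_add] at k
    simpa only [it_add, (up n).iter.1] using k
  · simp only [nxt, bd, sub_zero, ha, hy2]
    congr 1
    ring

end Pre

theorem Mach.step_of {α Y : Type} [NormedAddCommGroup Y] [NormedSpace ℝ Y] (M : Mach α Y)
    (β : M.Bx) {y y' : Y} {w w' ε : ℝ} (h1 : ‖y - (M.bd β).yc‖ ≤ (M.bd β).ry)
    (h2 : |w - (M.bd β).wc| ≤ (M.bd β).rw)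
    (h3 : ‖y' - ((M.bd β).yt + (M.bd β).dy • (y - (M.bd β).yc))‖ ≤ ε)
    (h4 : |w' - ((M.bd β).wt + (M.bd β).dw * (w - (M.bd β).wc))| ≤ ε) :
    M.Step ⟨(M.bd β).su, (M.bd β).sa, y, w⟩ ⟨(M.bd β).tu, (M.bd β).ta, y', w'⟩ (M.em M.c β) ε := by
  rcases β with a | a | ⟨b, i⟩ <;> simp only [Pre.bd, Pre.em] at h1 h2 h3 h4 ⊢
  · exact .E a y w y' w' ε h2 (by simpa using h3) (by simpa using h4)
  · exact .P a y w y' w' ε (by linarith [(abs_le.1 h2).2]) (by simpa using h1) (by simpa using h3)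
      (by convert h4 using 3; ring)
  · split_ifs at h1 h2 h3 h4 ⊢ with h
    · exact .I b i y w y' w' ε h h1 (by rwa [one_smul, add_comm] at h3) (by simpa using h4)
    · exact .O b i y w y' w' ε (by have := i.2; omega) h1 (by simpa using h3)
        (by convert h4 using 3; ring)

end Pool.Agent.Lib.MP_ce3247_an.Sm
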