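import Pool.Agent.Lib.MP_ce3247_an.Sm.Step
import Pool.Agent.Lib.MP_ce3247_an.Sm.Orb

/-! The boxes of the machine inside the torus. -/

open MeasureTheory Filter Topology Set

namespace Pool.Agent.Lib.MP_ce3247_an.Sm

/-- A machine whose stack lives in the coordinates other than `iw` and `ip`. -/
structure Sys (d : ℕ) (α : Type) extends Pre α (E d) where
  iw : Fin d
  ip : Fin d
  e : α → Fin d → ℤ
  ne : iw ≠ ip
  p_le : ∀ b i, ‖p b i‖ ≤ 1 / 2
  p_zero : ∀ b i, p b i iw = 0 ∧ p b i ip = 0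

namespace Sys

variable {d : ℕ} {α : Type} (S : Sys d α)

/-- A vector with prescribed special coordinates. -/
def co (a b : ℝ) (y : E d) : E d := fun j => if j = S.iw then a else if j = S.ip then b else y j

theorem co_w (a b : ℝ) (y : E d) : S.co a b y S.iw = a := if_pos rfl

theorem co_p (a b : ℝ) (y : E d) : S.co a b y S.ip = b := by
  rw [co, if_neg S.ne.symm, if_pos rfl]

theorem co_o (a b : ℝ) (y : E d) {j : Fin d} (h : j ≠ S.iw) (h' : j ≠ S.ip) :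
    S.co a b y j = y j := by rw [co, if_neg h, if_neg h']

theorem cases3 {Q : Fin d → Prop} (hw : Q S.iw) (hp : Q S.ip)
    (ho : ∀ j, j ≠ S.iw → j ≠ S.ip → Q j) (j : Fin d) : Q j := by
  by_cases h : j = S.iw
  · exact h ▸ hw
  by_cases h' : j = S.ip
  · exact h' ▸ hp
  exact ho j h h'

theorem bd_zero (β : S.Bx) : ((S.bd β).yc S.iw = 0 ∧ (S.bd β).yc S.ip = 0) ∧
    (S.bd β).yt S.iw = 0 ∧ (S.bd β).yt S.ip = 0 :=
  Pre.bd_sub (fun y => y S.iw = 0 ∧ y S.ip = 0) ⟨rfl, rfl⟩ S.p_zero β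

end Sys

variable {d : ℕ} {α : Type} [Fintype α]

/-- The offset of a state. -/
noncomputable def off (u : Bool) (a : α) : ℝ := 4 * (Fintype.equivFin (Bool × α) (u, a) : ℕ)

variable (α) in
/-- The scale of the machine coordinates. -/
noncomputable def sc : ℝ := (16 * (Fintype.card (Bool × α) : ℝ) + 8)⁻¹

theorem sc_pos : 0 < sc α := by unfold sc; positivity

theorem off_le (u : Bool) (a : α) : 0 ≤ off u a ∧ sc α * (off u a + 2) ≤ 1 / 4 := by
  refine ⟨by unfold off; positivity, ?_⟩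
  have : ((Fintype.equivFin (Bool × α) (u, a) : ℕ) : ℝ) ≤ Fintype.card (Bool × α) := by
    exact_mod_cast (Fintype.equivFin (Bool × α) (u, a)).2.le
  rw [sc, off, inv_mul_le_iff₀ (by positivity)]
  linarith

theorem sc_le : sc α ≤ 1 / 8 := by
  rw [sc, inv_le_comm₀ (by positivity) (by norm_num)]
  have : (0 : ℝ) ≤ Fintype.card (Bool × α) := Nat.cast_nonneg _
  linarith

theorem nat_close {m n : ℕ} (h : |(m : ℝ) - n| < 1) : m = n := by
  have := int_small (n := (m : ℤ) - n) (by exact_mod_cast h)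
  omega

theorem off_inj {u u' : Bool} {a a' : α} (h : |off u a - off u' a'| < 4) : u = u' ∧ a = a' := by
  rw [off, off, ← mul_sub, abs_mul, abs_of_pos four_pos] at h
  exact Prod.ext_iff.1 ((Fintype.equivFin (Bool × α)).injective
    (Fin.ext (nat_close (by linarith))))

namespace Sys

variable (S : Sys d α)

/-- The point of a configuration. -/
noncomputable def emb (x : Cfg α (E d)) : E d := S.co (sc α * (off x.up x.a + x.w)) 0 (sc α • x.y)

/-- The thickness of the boxes. -/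
noncomputable def rp : ℝ := (16 * ((Fintype.card S.Bx : ℝ) + 1))⁻¹

theorem rp_pos : 0 < S.rp := by unfold rp; positivity

theorem rp_le : S.rp ≤ 1 / 16 := by
  rw [rp, inv_le_comm₀ (by positivity) (by norm_num)]
  have : (0 : ℝ) ≤ Fintype.card S.Bx := Nat.cast_nonneg _
  linarith

theorem emb_le {x : Cfg α (E d)} {ry rw : ℝ} (h1 : ‖x.y‖ + ry ≤ 1) (h2 : |x.w - 1 / 2| + rw ≤ 1)
    (j : Fin d) : |S.emb x j| + S.co (sc α * rw) S.rp (fun _ => sc α * ry) j ≤ 1 / 4 := by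
  have h0 := sc_pos (α := α)
  refine S.cases3 (Q := fun j => |S.emb x j| + S.co (sc α * rw) S.rp (fun _ => sc α * ry) j ≤ 1 / 4)
    ?_ ?_ (fun j hj hj' => ?_) j
  · rw [emb, co_w, co_w, abs_mul, abs_of_pos h0, ← mul_add]
    refine le_trans (mul_le_mul_of_nonneg_left ?_ h0.le) (off_le x.up x.a).2
    have := abs_add_le (off x.up x.a + 1 / 2) (x.w - 1 / 2)
    rw [abs_of_nonneg (show 0 ≤ off x.up x.a + 1 / 2 by linarith [(off_le x.up x.a).1]),
      show off x.up x.a + 1 / 2 + (x.w - 1 / 2) = off x.up x.a + x.w by ring] at this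
    linarith
  · rw [emb, co_p, co_p, abs_zero]
    linarith [S.rp_le]
  · rw [emb, co_o _ _ _ _ hj hj', co_o _ _ _ _ hj hj', Pi.smul_apply, smul_eq_mul, abs_mul,
      abs_of_pos h0, ← mul_add]
    have : |x.y j| ≤ ‖x.y‖ := norm_le_pi_norm x.y j
    nlinarith [sc_le (α := α)]

theorem emb_sep {x x' : Cfg α (E d)} {ry rw rw' a b : ℝ} (h0 : 0 ≤ ry)
    (hy : x.y S.iw = 0 ∧ x.y S.ip = 0) (hy' : x'.y S.iw = 0 ∧ x'.y S.ip = 0)
    (hw : |x.w - 1 / 2| + rw ≤ 1) (hw' : |x'.w - 1 / 2| + rw' ≤ 1)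
    (h : ∀ j, j ≠ S.ip → |S.emb x j - S.emb x' j| ≤ S.co a b (fun _ => sc α * ry) j)
    (ha : a = sc α * (rw + rw')) :
    x.up = x'.up ∧ x.a = x'.a ∧ ‖x.y - x'.y‖ ≤ ry ∧ |x.w - x'.w| ≤ rw + rw' := by
  have hs := sc_pos (α := α)
  have k := h S.iw S.ne
  rw [emb, emb, co_w, co_w, co_w, ha, ← mul_sub, abs_mul, abs_of_pos hs,
    mul_le_mul_iff_right₀ hs, abs_le] at k
  obtain ⟨k1, k2⟩ := off_inj (u := x.up) (u' := x'.up) (a := x.a) (a' := x'.a) (abs_lt.2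
    ⟨by linarith [k.1, le_abs_self (x.w - 1 / 2), neg_abs_le (x'.w - 1 / 2)],
      by linarith [k.2, neg_abs_le (x.w - 1 / 2), le_abs_self (x'.w - 1 / 2)]⟩)
  rw [k1, k2] at k
  refine ⟨k1, k2, (pi_norm_le_iff_of_nonneg h0).2 (S.cases3 ?_ ?_ fun j hj hj' => ?_),
    abs_le.2 ⟨by linarith [k.1], by linarith [k.2]⟩⟩
  · simpa [hy.1, hy'.1] using h0
  · simpa [hy.2, hy'.2] using h0
  · have := h j hj'
    rwa [emb, emb, co_o _ _ _ _ hj hj', co_o _ _ _ _ hj hj', co_o _ _ _ _ hj hj', Pi.smul_apply,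
      Pi.smul_apply, ← smul_sub, smul_eq_mul, abs_mul, abs_of_pos hs,
      mul_le_mul_iff_right₀ hs] at this

/-- The boxes. -/
noncomputable def G : Boxes d S.Bx where
  ip := S.ip
  C β := S.emb ⟨(S.bd β).su, (S.bd β).sa, (S.bd β).yc, (S.bd β).wc⟩
  T β := S.emb ⟨(S.bd β).tu, (S.bd β).ta, (S.bd β).yt, (S.bd β).wt⟩
  r β := S.co (sc α * (S.bd β).rw) S.rp fun _ => sc α * (S.bd β).ry
  D β := S.co (S.bd β).dw 1 fun _ => (S.bd β).dy
  disp := S.em S.e
  lev β := 4 * S.rp * (Fintype.equivFin S.Bx β : ℕ)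
  μ := min (sc α * (S.ρ / 4)) S.rp
  μ_pos := lt_min (mul_pos sc_pos (by linarith [S.ρ_pos])) S.rp_pos
  D_pos β := S.cases3 (by rw [co_w]; exact (Pre.bd_pos β).2.1) (by rw [co_p]; exact one_pos)
    fun j h h' => by rw [co_o _ _ _ _ h h']; exact (Pre.bd_pos β).1
  C_ip β := S.co_p _ _ _
  T_ip β := S.co_p _ _ _
  D_ip β := S.co_p _ _ _
  C_le β := S.emb_le (Pre.bd_y S.p_le β).1 (Pre.bd_w β).1
  T_le β j := by
    refine le_trans (le_of_eq ?_) (S.emb_le (x := ⟨(S.bd β).tu, (S.bd β).ta, _, _⟩)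
      (Pre.bd_y S.p_le β).2 (Pre.bd_w β).2 j)
    congr 1
    unfold co
    split_ifs <;> ring
  lev_mem β := by
    have : ((Fintype.equivFin S.Bx β : ℕ) : ℝ) ≤ Fintype.card S.Bx := by
      exact_mod_cast (Fintype.equivFin S.Bx β).2.le
    refine ⟨by have := S.rp_pos; positivity, ?_⟩
    rw [rp, mul_comm 4, mul_assoc, inv_mul_le_iff₀ (by positivity)]
    linarith
  lev_sep β β' h := by
    have h0 := S.rp_pos
    rw [co_p, co_p, ← mul_sub, abs_mul, abs_of_pos (by positivity)] at h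
    exact (Fintype.equivFin S.Bx).injective (Fin.ext (nat_close (by nlinarith)))
  C_sep β β' h := by
    obtain ⟨h1, h2, h3, h4⟩ := S.emb_sep (x := ⟨_, _, _, _⟩) (x' := ⟨_, _, _, _⟩) (b := 0)
      (add_nonneg (Pre.bd_pos β).2.2.1 (Pre.bd_pos β').2.2.1) (S.bd_zero β).1 (S.bd_zero β').1
      (Pre.bd_w β).1 (Pre.bd_w β').1 (fun j hj => (h j hj).trans (le_of_eq (by
        unfold co
        rw [if_neg hj, if_neg hj, if_neg hj]
        split_ifs <;> ring))) rfl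
    exact Pre.src_sep h1 h2 h3 h4
  T_sep β β' h := by
    obtain ⟨h1, h2, h3, h4⟩ := S.emb_sep (x := ⟨_, _, _, _⟩) (x' := ⟨_, _, _, _⟩) (b := 0)
      (add_nonneg (mul_nonneg (Pre.bd_pos β).1.le (Pre.bd_pos β).2.2.1)
        (mul_nonneg (Pre.bd_pos β').1.le (Pre.bd_pos β').2.2.1)) (S.bd_zero β).2 (S.bd_zero β').2
      (Pre.bd_w β).2 (Pre.bd_w β').2 (fun j hj => (h j hj).trans (le_of_eq (by
        unfold co
        simp only [if_neg hj]
        split_ifs <;> ring))) rfl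
    exact Pre.tgt_sep h1 h2 h3 h4

variable {S}

theorem emb_mem {β : S.Bx} {x : Cfg α (E d)} (h : S.In β x) : S.emb x ∈ S.G.box β S.G.μ := by
  have hs := sc_pos (α := α)
  have h1 : S.G.μ ≤ sc α * (S.ρ / 4) := min_le_left _ _
  have h2 : S.G.μ ≤ S.rp := min_le_right _ _
  refine S.cases3 ?_ ?_ fun j hj hj' => ?_
  · simp only [G, emb, co_w, h.1, h.2.1] at h1 ⊢
    rw [← mul_sub, abs_mul, abs_of_pos hs, add_sub_add_left_eq_sub]
    nlinarith [h.2.2.2]
  · simp only [G, emb, co_p, sub_zero, abs_zero] at h2 ⊢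
    linarith
  · simp only [G, emb, co_o _ _ _ _ hj hj', Pi.smul_apply, smul_eq_mul] at h1 ⊢
    rw [← mul_sub, abs_mul, abs_of_pos hs]
    have : |x.y j - (S.bd β).yc j| ≤ _ := (norm_le_pi_norm (x.y - (S.bd β).yc) j).trans h.2.2.1
    nlinarith

theorem emb_map {β : S.Bx} {x : Cfg α (E d)} (h : S.In β x) :
    S.G.map β (S.emb x) = S.emb (S.nxt β x) + ic (S.em S.e β) := by
  funext j
  revert j
  refine S.cases3 ?_ ?_ fun j hj hj' => ?_
  · simp only [Boxes.map, G, emb, co_w, h.1, h.2.1, Pre.nxt, Pi.add_apply, ic]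
    ring
  · simp only [Boxes.map, G, emb, co_p, Pi.add_apply, ic]
    ring
  · simp only [Boxes.map, G, emb, co_o _ _ _ _ hj hj', Pre.nxt, Pi.add_apply, ic, Pi.smul_apply,
      Pi.sub_apply, smul_eq_mul]
    ring

variable (S) in
/-- The configuration of a point, given the state. -/
noncomputable def dec (u : Bool) (a : α) (ξ : E d) : Cfg α (E d) :=
  ⟨u, a, S.co 0 0 ((sc α)⁻¹ • ξ), (sc α)⁻¹ * ξ S.iw - off u a⟩

theorem abs_div_le {a b : ℝ} (h : |a| ≤ sc α * b) : |(sc α)⁻¹ * a| ≤ b := by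
  rwa [abs_mul, abs_of_pos (inv_pos.2 sc_pos), inv_mul_le_iff₀ sc_pos]

theorem dec_mem {β : S.Bx} {ξ : E d} (h : ξ ∈ S.G.box β 0) :
    ‖(S.dec (S.bd β).su (S.bd β).sa ξ).y - (S.bd β).yc‖ ≤ (S.bd β).ry ∧
      |(S.dec (S.bd β).su (S.bd β).sa ξ).w - (S.bd β).wc| ≤ (S.bd β).rw := by
  have hs := (sc_pos (α := α)).ne'
  have h0 := (Pre.bd_pos β).2.2.1
  refine ⟨(pi_norm_le_iff_of_nonneg h0).2 (S.cases3 ?_ ?_ fun j hj hj' => ?_), ?_⟩
  · simpa [dec, co_w, (S.bd_zero β).1.1] using h0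
  · simpa [dec, co_p, (S.bd_zero β).1.2] using h0
  · have := h j
    simp only [G, emb, co_o _ _ _ _ hj hj', sub_zero, Pi.smul_apply, smul_eq_mul] at this
    rw [Real.norm_eq_abs]
    convert abs_div_le this using 2
    simp only [dec, co_o _ _ _ _ hj hj', Pi.sub_apply, Pi.smul_apply, smul_eq_mul]
    field_simp
  · have := h S.iw
    simp only [G, emb, co_w, sub_zero] at this
    convert abs_div_le this using 2
    simp only [dec]
    field_simp
    ring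

theorem dec_map {β : S.Bx} {ξ ξ' : E d} {ε : ℝ} (hε : 0 ≤ ε)
    (h : ‖ξ' + ic (S.em S.e β) - S.G.map β ξ‖ ≤ sc α * ε) :
    ‖(S.dec (S.bd β).tu (S.bd β).ta ξ').y - ((S.bd β).yt + (S.bd β).dy •
      ((S.dec (S.bd β).su (S.bd β).sa ξ).y - (S.bd β).yc))‖ ≤ ε ∧
    |(S.dec (S.bd β).tu (S.bd β).ta ξ').w - ((S.bd β).wt + (S.bd β).dw *
      ((S.dec (S.bd β).su (S.bd β).sa ξ).w - (S.bd β).wc))| ≤ ε := by
  have hs := (sc_pos (α := α)).ne'
  have k : ∀ j, |(ξ' + ic (S.em S.e β) - S.G.map β ξ) j| ≤ sc α * ε := fun j =>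
    (norm_le_pi_norm _ j).trans h
  refine ⟨(pi_norm_le_iff_of_nonneg hε).2 (S.cases3 ?_ ?_ fun j hj hj' => ?_), ?_⟩
  · simpa [dec, co_w, (S.bd_zero β).1.1, (S.bd_zero β).2.1] using hε
  · simpa [dec, co_p, (S.bd_zero β).1.2, (S.bd_zero β).2.2] using hε
  · rw [Real.norm_eq_abs]
    convert abs_div_le (k j) using 2
    simp only [Boxes.map, G, emb, dec, co_o _ _ _ _ hj hj', Pi.sub_apply, Pi.add_apply,
      Pi.smul_apply, smul_eq_mul, ic]
    field_simp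
    ring
  · convert abs_div_le (k S.iw) using 2
    simp only [Boxes.map, G, emb, dec, co_w, Pi.sub_apply, Pi.add_apply, ic]
    field_simp
    ring

theorem state_eq {β β' : S.Bx} {ξ ξ' : E d} {ε : ℝ} (hε : 0 ≤ ε) (hε' : ε ≤ 1)
    (h : ‖ξ' + ic (S.em S.e β) - S.G.map β ξ‖ ≤ sc α * ε) (h1 : ξ ∈ S.G.box β 0)
    (h2 : ξ' ∈ S.G.box β' 0) : (S.bd β').su = (S.bd β).tu ∧ (S.bd β').sa = (S.bd β).ta := by
  have k1 := abs_le.1 (dec_map hε h).2
  have k2 := abs_le.1 (dec_mem h2).2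
  have k3 := mul_le_mul_of_nonneg_left (dec_mem h1).2 (Pre.bd_pos β).2.1.le
  rw [← abs_of_pos (Pre.bd_pos β).2.1, ← abs_mul, abs_of_pos (Pre.bd_pos β).2.1, abs_le] at k3
  have k4 := (Pre.bd_w β).2
  have k5 := (Pre.bd_w β').1
  simp only [dec] at k1 k2 k3
  exact off_inj (abs_lt.2 ⟨by
    linarith [k1.1, k1.2, k2.1, k2.2, k3.1, k3.2, le_abs_self ((S.bd β').wc - 1 / 2),
      neg_abs_le ((S.bd β).wt - 1 / 2)], by
    linarith [k1.1, k1.2, k2.1, k2.2, k3.1, k3.2, neg_abs_le ((S.bd β').wc - 1 / 2),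
      le_abs_self ((S.bd β).wt - 1 / 2)]⟩)

end Sys

end Pool.Agent.Lib.MP_ce3247_an.Sm
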