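import Mathlib

/-! A reversible two-stack machine that runs the odometer of a substitution, and a bound for the
sum emitted along its pseudo-orbits. -/

open Finset

namespace Pool.Agent.Lib.MP_ce3247_an.Sm

/-- The substitution and the cells of the stack. -/
structure Pre (α Y : Type) [NormedAddCommGroup Y] where
  len : α → ℕ
  w : α → ℕ → α
  p : α → ℕ → Y
  ρ : ℝ
  len_pos : ∀ b, 0 < len b
  ρ_pos : 0 < ρ
  ρ_le : ρ ≤ 1 / 8
  sep : ∀ b i b' i', i < len b → i' < len b' → ‖p b i - p b' i'‖ < 3 * ρ → b = b' ∧ i = i'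

/-- The data of the machine. -/
structure Mach (α Y : Type) [NormedAddCommGroup Y] extends Pre α Y where
  θ : ℝ
  c : α → ℝ
  lam : ℝ
  Lm : ℝ
  Cj : ℝ
  len_le : ∀ b, (len b : ℝ) ≤ Lm
  θ_pos : 0 < θ
  θ_le : θ ≤ ρ / 8
  left : ∀ b, ∑ i ∈ range (len b), c (w b i) = lam * c b
  c_le : ∀ a, |c a| ≤ Cj
  one_le : 1 ≤ Lm
  Cj_nonneg : 0 ≤ Cj
  small : |lam| * (8 * Lm / ρ ^ 2) ≤ 1

/-- A configuration: mode, letter, stack and depth counter. -/
structure Cfg (α Y : Type) where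
  up : Bool
  a : α
  y : Y
  w : ℝ

theorem engel {m δ η : ℝ} (hm : 0 < m) : (δ + η) ^ 2 / (m + 1) ≤ δ ^ 2 / m + η ^ 2 := by
  rw [div_add' _ _ _ hm.ne', div_le_div_iff₀ (by linarith) hm]
  nlinarith [sq_nonneg (δ - m * η)]

namespace Mach

variable {α Y : Type} [NormedAddCommGroup Y] [NormedSpace ℝ Y] (M : Mach α Y)

/-- One step with emitted value `s` and error `ε`. -/
inductive Step : Cfg α Y → Cfg α Y → ℝ → ℝ → Prop
  | E (a y w y' w' ε) : |w - 1| ≤ 1 / 8 → ‖y' - y‖ ≤ ε → |w' - w| ≤ ε →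
      Step ⟨true, a, y, w⟩ ⟨false, a, y', w'⟩ (M.c a) ε
  | P (a y w y' w' ε) : w ≤ 3 / 8 → ‖y‖ ≤ 1 → ‖y' - (M.p a 0 + M.ρ • y)‖ ≤ ε → |w' - 4 * w| ≤ ε →
      Step ⟨true, a, y, w⟩ ⟨true, M.w a 0, y', w'⟩ 0 ε
  | I (b i y w y' w' ε) : i + 1 < M.len b → ‖y - M.p b i‖ ≤ M.ρ →
      ‖y' - (y - M.p b i + M.p b (i + 1))‖ ≤ ε → |w' - w| ≤ ε →
      Step ⟨false, M.w b i, y, w⟩ ⟨true, M.w b (i + 1), y', w'⟩ 0 ε
  | O (b i y w y' w' ε) : i + 1 = M.len b → ‖y - M.p b i‖ ≤ M.ρ →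
      ‖y' - M.ρ⁻¹ • (y - M.p b i)‖ ≤ ε → |w' - w / 4| ≤ ε →
      Step ⟨false, M.w b i, y, w⟩ ⟨false, b, y', w'⟩ 0 ε
  | J (x x' s ε) : M.θ ≤ ε → |s| ≤ M.Cj * (1 + ε ^ 2) → Step x x' s ε

/-- A pseudo-orbit with `n` steps, emitted sum `S` and sum `E` of the squared errors; when `f`
holds all errors are small. -/
inductive Run (f : Prop) : Cfg α Y → ℕ → ℝ → ℝ → Prop
  | nil (x) : Run f x 0 0 0
  | cons {x x' s ε n S E} : M.Step x x' s ε → (f → ε < M.θ) → Run f x' n S E →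
      Run f x (n + 1) (s + S) (ε ^ 2 + E)

variable {M}

theorem Run.nonneg {f x n S E} (h : M.Run f x n S E) : 0 ≤ E := by
  induction h with
  | nil => exact le_rfl
  | cons _ _ _ ih => positivity

theorem Run.weaken {x n S E} (h : M.Run True x n S E) : M.Run False x n S E := by
  induction h with
  | nil x => exact Run.nil x
  | cons hs _ _ ih => exact Run.cons hs False.elim ih

theorem Step.abs_le {x x' s ε} (h : M.Step x x' s ε) : |s| ≤ M.Cj * (1 + ε ^ 2) := by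
  have h0 := M.Cj_nonneg
  have h1 : 0 ≤ M.Cj * (1 + ε ^ 2) := by positivity
  cases h with
  | E a => exact (M.c_le a).trans (by nlinarith [sq_nonneg ε])
  | P => simpa using h1
  | I => simpa using h1
  | O => simpa using h1
  | J _ _ _ _ _ h => exact h

theorem Run.split {x n S E} (h : M.Run False x n S E) : M.Run True x n S E ∨
    ∃ n₁ S₁ E₁ s ε x₂ n₂ S₂ E₂, M.Run True x n₁ S₁ E₁ ∧ M.θ ≤ ε ∧ |s| ≤ M.Cj * (1 + ε ^ 2) ∧
      M.Run False x₂ n₂ S₂ E₂ ∧ n₁ < n ∧ n₂ < n ∧ S = S₁ + s + S₂ ∧ E = E₁ + ε ^ 2 + E₂ := by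
  induction h with
  | nil x => exact Or.inl (Run.nil x)
  | @cons x x' s ε n S E hs _ ht ih =>
    by_cases hε : ε < M.θ
    · rcases ih with ih | ⟨n₁, S₁, E₁, s', ε', x₂, n₂, S₂, E₂, h1, h2, h3, h4, h5, h6, h7, h8⟩
      · exact Or.inl (Run.cons hs (fun _ => hε) ih)
      · exact Or.inr ⟨n₁ + 1, s + S₁, ε ^ 2 + E₁, s', ε', x₂, n₂, S₂, E₂,
          Run.cons hs (fun _ => hε) h1, h2, h3, h4, by omega, by omega, by rw [h7]; ring,
          by rw [h8]; ring⟩
    · exact Or.inr ⟨0, 0, 0, s, ε, x', n, S, E, Run.nil x, not_lt.1 hε, hs.abs_le, ht, by omega,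
        by omega, by ring, by ring⟩

theorem Run.first {a y w n S E} (h : M.Run True ⟨true, a, y, w⟩ n S E) :
    (n = 0 ∧ S = 0) ∨ |w - 1| ≤ 1 / 8 ∨ w ≤ 3 / 8 := by
  cases h with
  | nil => exact Or.inl ⟨rfl, rfl⟩
  | cons hs hε _ =>
    cases hs with
    | E _ _ _ _ _ _ h => exact Or.inr (Or.inl h)
    | P _ _ _ _ _ _ h => exact Or.inr (Or.inr h)
    | J _ _ _ _ h => exact absurd (hε trivial) (not_lt.2 h)

variable (M) in
/-- The amplification of the squared errors under renormalisation. -/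
noncomputable def A : ℝ := 8 * M.Lm / M.ρ ^ 2

omit [NormedSpace ℝ Y] in
theorem sum_le (b : α) (i : ℕ) : |∑ j ∈ Ico i (M.len b), M.c (M.w b j)| ≤ M.Lm * M.Cj := by
  refine (abs_sum_le_sum_abs _ _).trans ((sum_le_card_nsmul _ _ M.Cj fun j _ => M.c_le _).trans ?_)
  rw [nsmul_eq_mul, Nat.card_Ico]
  refine mul_le_mul_of_nonneg_right (le_trans ?_ (M.len_le b)) M.Cj_nonneg
  exact_mod_cast Nat.sub_le _ _

omit [NormedSpace ℝ Y] in
theorem inv_ge : 8 ≤ M.ρ⁻¹ := by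
  rw [le_inv_comm₀ (by norm_num) M.ρ_pos]
  linarith [M.ρ_le]

omit [NormedSpace ℝ Y] in
theorem A_eq : M.A = 8 * M.Lm * M.ρ⁻¹ ^ 2 := by rw [A, div_eq_mul_inv, inv_pow]

theorem norm_inv_smul {u v : Y} {ε : ℝ} (h : ‖u - v‖ ≤ ε) :
    ‖M.ρ⁻¹ • u - M.ρ⁻¹ • v‖ ≤ M.ρ⁻¹ * ε := by
  have := M.ρ_pos
  rw [← smul_sub, norm_smul, Real.norm_of_nonneg (by positivity)]
  exact mul_le_mul_of_nonneg_left h (by positivity)

variable (M) in
/-- The renormalised run of a run that starts with an up move below the top level. -/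
def RU (a : α) (y : Y) (w : ℝ) (n : ℕ) (S E : ℝ) : Prop :=
  ∃ w' n' S' E', M.Run False ⟨true, a, y, w'⟩ n' S' E' ∧ E' + 2 * (w' - 4 * w) ^ 2 ≤ M.A * E ∧
    |S - M.lam * S'| ≤ M.Lm * M.Cj ∧ n' ≤ n

variable (M) in
/-- The renormalised run of a run that starts with a down move below the top level. -/
def RD (a : α) (y : Y) (w : ℝ) (n : ℕ) (S E : ℝ) : Prop :=
  ∃ n' S' E', M.Run False ⟨false, a, y, 4 * w⟩ n' S' E' ∧ E' ≤ M.A * E ∧
    |S - M.lam * S'| ≤ M.Lm * M.Cj ∧ n' ≤ n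

variable (M) in
/-- The renormalised run of a run that starts at the top level inside the word of `b`. -/
def RT (b : α) (i j : ℕ) (m : ℝ) (y : Y) (w : ℝ) (n : ℕ) (S E : ℝ) : Prop :=
  ∃ y' w' δ n' S' E', M.Run False ⟨false, b, y', w'⟩ n' S' E' ∧
    ‖y' - M.ρ⁻¹ • (y - M.p b i)‖ ≤ δ ∧ |w' - w| ≤ δ ∧ E' + 4 * M.Lm * (δ ^ 2 / m) ≤ M.A * E ∧
    |S - M.lam * S' - ∑ l ∈ Ico j (M.len b), M.c (M.w b l)| ≤ M.Lm * M.Cj ∧ n' ≤ n

theorem RT.step {b i j i' j' m y w n S E y₀ w₀ s ε} (h : M.RT b i j m y w n S E) (hm : 0 < m)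
    (hy : ‖(y - M.p b i) - (y₀ - M.p b i')‖ ≤ ε) (hw : |w - w₀| ≤ ε)
    (hs : ∑ l ∈ Ico j' (M.len b), M.c (M.w b l) = s + ∑ l ∈ Ico j (M.len b), M.c (M.w b l)) :
    M.RT b i' j' (m + 1) y₀ w₀ (n + 1) (s + S) (ε ^ 2 + E) := by
  obtain ⟨y', w', δ, n', S', E', h1, h2, h3, h4, h5, h6⟩ := h
  have hε : 0 ≤ ε := (abs_nonneg _).trans hw
  have hi := M.inv_ge
  have hL := M.one_le
  refine ⟨y', w', δ + M.ρ⁻¹ * ε, n', S', E', h1, ?_, ?_, ?_, ?_, by omega⟩
  · exact (norm_sub_le_norm_sub_add_norm_sub _ _ _).trans (add_le_add h2 (M.norm_inv_smul hy))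
  · have := abs_sub_le w' w w₀
    nlinarith
  · have h7 := mul_le_mul_of_nonneg_left (engel (δ := δ) (η := M.ρ⁻¹ * ε) hm)
      (show 0 ≤ 4 * M.Lm by linarith)
    have h8 : 0 ≤ M.Lm * (M.ρ⁻¹ * ε) ^ 2 := by positivity
    rw [A_eq] at h4 ⊢
    nlinarith
  · rw [hs]
    convert h5 using 2
    ring

theorem renorm {x n S E} (h : M.Run True x n S E) :
    (∀ a y w, x = ⟨true, a, y, w⟩ → w ≤ 5 / 8 → M.RU a y w n S E) ∧
    (∀ a y w, x = ⟨false, a, y, w⟩ → w ≤ 1 / 2 → M.RD a y w n S E) ∧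
    (∀ b i y w, x = ⟨true, M.w b i, y, w⟩ → i < M.len b → 5 / 8 ≤ w →
      ‖y - M.p b i‖ ≤ M.ρ + M.θ → M.RT b i i (2 * ((M.len b : ℝ) - i)) y w n S E) ∧
    ∀ b i y w, x = ⟨false, M.w b i, y, w⟩ → i < M.len b → |w - 1| ≤ 1 / 8 + M.θ →
      ‖y - M.p b i‖ ≤ M.ρ + 2 * M.θ →
        M.RT b i (i + 1) (2 * ((M.len b : ℝ) - i) - 1) y w n S E := by
  have hC : 0 ≤ M.Lm * M.Cj := mul_nonneg (by linarith [M.one_le]) M.Cj_nonneg
  have hρ := M.ρ_pos
  have hρ' := M.ρ_le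
  have hθ := M.θ_pos
  have hθ' := M.θ_le
  have hi := M.inv_ge
  have hL := M.one_le
  have hA : 64 * M.Lm ≤ M.A := by
    have : 64 ≤ M.ρ⁻¹ ^ 2 := by nlinarith
    rw [A_eq]; nlinarith
  induction h with
  | nil x =>
    refine ⟨fun a y w _ _ => ⟨4 * w, 0, 0, 0, Run.nil _, by simp, by simpa using hC, le_rfl⟩,
      fun a y w _ _ => ⟨0, 0, 0, Run.nil _, by simp, by simpa using hC, le_rfl⟩,
      fun b i y w _ _ _ _ => ⟨_, w, 0, 0, 0, 0, Run.nil _, by rw [sub_self, norm_zero], by simp,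
        by simp, by simpa using M.sum_le b i, le_rfl⟩,
      fun b i y w _ _ _ _ => ⟨_, w, 0, 0, 0, 0, Run.nil _, by rw [sub_self, norm_zero], by simp,
        by simp, by simpa using M.sum_le b (i + 1), le_rfl⟩⟩
  | @cons x x' s ε n S E hs hε ht ih =>
    replace hε := hε trivial
    obtain ⟨ih1, ih2, ih3, ih4⟩ := ih
    have hE := ht.nonneg
    have hε2 := sq_nonneg ε
    cases hs with
    | J _ _ _ _ h => exact absurd hε (not_lt.2 h)
    | E a y w y₁ w₁ _ h1 h2 h3 =>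
      refine ⟨fun a' y' w' e hw => ?_, fun _ _ _ e => (by cases e), fun b i y' w' e hb hw hy => ?_,
        fun _ _ _ _ e => by cases e⟩
      · cases e
        linarith [(abs_le.1 h1).1]
      · cases e
        have hb' : (i : ℝ) + 1 ≤ M.len b := by exact_mod_cast hb
        have := (ih4 b i y₁ w₁ rfl hb (by linarith [abs_sub_le w₁ w 1])
          (by linarith [norm_sub_le_norm_sub_add_norm_sub y₁ y (M.p b i)])).step (i' := i)
          (j' := i) (y₀ := y) (s := M.c (M.w b i)) (by linarith) (by simpa using h2) h3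
          (sum_eq_sum_Ico_succ_bot hb _)
        simpa using this
    | P a y w y₁ w₁ _ h1 h2 h3 h4 =>
      refine ⟨fun a' y' w' e hw => ?_, fun _ _ _ e => (by cases e), fun b i y' w' e hb hw hy => ?_,
        fun _ _ _ _ e => by cases e⟩
      · cases e
        have hε0 : 0 ≤ ε := (abs_nonneg _).trans h4
        have h5 : (w₁ - 4 * w) ^ 2 ≤ ε ^ 2 := by
          rw [← sq_abs]; exact pow_le_pow_left₀ (abs_nonneg _) h4 2
        rcases ht.first with ⟨rfl, rfl⟩ | h6 | h6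
        · exact ⟨4 * w, 0, 0, 0, Run.nil _, by simp; nlinarith, by simpa using hC, by omega⟩
        · have h7 : ‖y₁ - M.p a 0‖ ≤ M.ρ + M.θ := by
            have e : y₁ - M.p a 0 = (y₁ - (M.p a 0 + M.ρ • y)) + M.ρ • y := by abel
            have h8 : ‖M.ρ • y‖ ≤ M.ρ := by
              rw [norm_smul, Real.norm_of_nonneg hρ.le]; nlinarith
            rw [e]
            linarith [norm_add_le (y₁ - (M.p a 0 + M.ρ • y)) (M.ρ • y)]
          obtain ⟨y', w', δ, n', S', E', k1, k2, k3, k4, k5, k6⟩ :=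
            ih3 a 0 y₁ w₁ rfl (M.len_pos a) (by linarith [(abs_le.1 h6).1]) h7
          have hδ : 0 ≤ δ := (abs_nonneg _).trans k3
          have k7 : ‖M.ρ⁻¹ • (y₁ - M.p a 0) - y‖ ≤ M.ρ⁻¹ * ε := by
            have := M.norm_inv_smul (u := y₁ - M.p a 0) (v := M.ρ • y) (ε := ε)
              (by rwa [sub_sub])
            rwa [smul_smul, inv_mul_cancel₀ hρ.ne', one_smul] at this
          refine ⟨w₁, n' + 1, M.c a + S', (δ + M.ρ⁻¹ * ε) ^ 2 + E', Run.cons (Step.E a y w₁ y' w' _ h6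
            ((norm_sub_le_norm_sub_add_norm_sub _ _ _).trans (add_le_add k2 k7)) (by nlinarith))
            False.elim k1, ?_, ?_, by omega⟩
          · have hl : (0 : ℝ) < M.len a := by exact_mod_cast M.len_pos a
            have k8 : 2 * δ ^ 2 ≤ 4 * M.Lm * (δ ^ 2 / (2 * ((M.len a : ℝ) - (0 : ℕ)))) := by
              rw [Nat.cast_zero, sub_zero, ← mul_div_assoc, le_div_iff₀ (by positivity)]
              nlinarith [M.len_le a, sq_nonneg δ]
            have k9 : 0 ≤ (M.Lm - 1) * (M.ρ⁻¹ * ε) ^ 2 := mul_nonneg (by linarith) (sq_nonneg _)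
            have k10 : ε ^ 2 ≤ (M.ρ⁻¹ * ε) ^ 2 := pow_le_pow_left₀ hε0 (by nlinarith) 2
            rw [A_eq] at k4 ⊢
            nlinarith [sq_nonneg (δ - M.ρ⁻¹ * ε)]
          · rw [← range_eq_Ico, M.left] at k5
            convert k5 using 2
            ring
        · obtain ⟨w', n', S', E', k1, k2, k3, k4⟩ := ih1 _ y₁ w₁ rfl (by linarith)
          refine ⟨w₁, n' + 1, 0 + S', (ε + |w' - 4 * w₁|) ^ 2 + E', Run.cons (Step.P a y w₁ y₁ w' _ h6
            h2 (by linarith [abs_nonneg (w' - 4 * w₁)]) (by linarith)) False.elim k1, ?_,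
            by simpa using k3, by omega⟩
          nlinarith [sq_nonneg (ε - |w' - 4 * w₁|), sq_abs (w' - 4 * w₁)]
      · obtain ⟨-, -, rfl, rfl⟩ := Cfg.mk.injEq .. ▸ e
        linarith
    | I b i y w y₁ w₁ _ h1 h2 h3 h4 =>
      refine ⟨fun _ _ _ e => (by cases e), fun a' y' w' e hw => ?_, fun _ _ _ _ e => (by cases e),
        fun b' i' y' w' e hb hw hy => ?_⟩
      · cases e
        have hε0 : 0 ≤ ε := (abs_nonneg _).trans h4
        obtain ⟨w', n', S', E', k1, k2, k3, k4⟩ := ih1 _ y₁ w₁ rfl (by linarith [(abs_le.1 h4).2])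
        refine ⟨n' + 1, 0 + S', (4 * ε + |w' - 4 * w₁|) ^ 2 + E', Run.cons
          (Step.I b i y (4 * w) y₁ w' _ h1 h2 (by linarith [abs_nonneg (w' - 4 * w₁)]) ?_)
          False.elim k1, ?_, by simpa using k3, by omega⟩
        · rw [abs_le] at h4 ⊢
          constructor <;> linarith [le_abs_self (w' - 4 * w₁), neg_abs_le (w' - 4 * w₁), h4.1, h4.2]
        · nlinarith [sq_nonneg (4 * ε - |w' - 4 * w₁|), sq_abs (w' - 4 * w₁)]
      · obtain ⟨-, -, rfl, rfl⟩ := Cfg.mk.injEq .. ▸ e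
        obtain ⟨rfl, rfl⟩ := M.sep b i b' i' (by omega) hb (by
          have := norm_sub_le_norm_sub_add_norm_sub (M.p b i) y (M.p b' i')
          rw [norm_sub_rev (M.p b i) y] at this
          linarith)
        have hb' : (i : ℝ) + 1 + 1 ≤ M.len b := by exact_mod_cast h1
        have e1 : y₁ - M.p b (i + 1) - (y - M.p b i) = y₁ - (y - M.p b i + M.p b (i + 1)) := by abel
        have := (ih3 b (i + 1) y₁ w₁ rfl h1 (by linarith [(abs_le.1 h4).1, (abs_le.1 hw).1]) (by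
          linarith [norm_sub_norm_le (y₁ - M.p b (i + 1)) (y - M.p b i), e1 ▸ h3])).step (i' := i)
          (j' := i + 1) (y₀ := y) (s := 0) (by push_cast; linarith) (e1 ▸ h3) h4 (zero_add _).symm
        convert this using 1
        push_cast
        ring
    | O b i y w y₁ w₁ _ h1 h2 h3 h4 =>
      have hε0 : 0 ≤ ε := (abs_nonneg _).trans h4
      have h5 : |4 * w₁ - w| ≤ 4 * ε := by
        rw [abs_le] at h4 ⊢
        constructor <;> linarith [h4.1, h4.2]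
      refine ⟨fun _ _ _ e => (by cases e), fun a' y' w' e hw => ?_, fun _ _ _ _ e => (by cases e),
        fun b' i' y' w' e hb hw hy => ?_⟩
      · cases e
        obtain ⟨n', S', E', k1, k2, k3, k4⟩ := ih2 _ y₁ w₁ rfl (by linarith [(abs_le.1 h4).2])
        refine ⟨n' + 1, 0 + S', (4 * ε) ^ 2 + E', Run.cons
          (Step.O b i y (4 * w) y₁ (4 * w₁) _ h1 h2 (by linarith) (by simpa using h5))
          False.elim k1, by nlinarith, by simpa using k3, by omega⟩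
      · obtain ⟨-, -, rfl, rfl⟩ := Cfg.mk.injEq .. ▸ e
        obtain ⟨rfl, rfl⟩ := M.sep b i b' i' (by omega) hb (by
          have := norm_sub_le_norm_sub_add_norm_sub (M.p b i) y (M.p b' i')
          rw [norm_sub_rev (M.p b i) y] at this
          linarith)
        obtain ⟨n', S', E', k1, k2, k3, k4⟩ := ih2 _ y₁ w₁ rfl
          (by linarith [(abs_le.1 h4).2, (abs_le.1 hw).2])
        have hb' : (M.len b : ℝ) = i + 1 := by exact_mod_cast h1.symm
        refine ⟨y₁, 4 * w₁, 4 * ε, n', S', E', k1, by linarith, h5, ?_, ?_, by omega⟩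
        · rw [hb', show 2 * ((i : ℝ) + 1 - i) - 1 = 1 by ring, div_one]
          nlinarith
        · rw [h1]
          simpa using k3

theorem Run.start {x n S E} (h : M.Run True x n S E) : |S| ≤ M.Cj ∨
    ∃ b i y w n₁ S₁ E₁, M.Run True ⟨false, M.w b i, y, w⟩ n₁ S₁ E₁ ∧ i < M.len b ∧
      |w - 1| ≤ 1 / 8 + M.θ ∧ ‖y - M.p b i‖ ≤ M.ρ ∧ n₁ < n ∧ |S - S₁| ≤ M.Cj ∧ E₁ ≤ E := by
  induction h with
  | nil => exact Or.inl (by simpa using M.Cj_nonneg)
  | @cons x x' s ε n S E hs hε ht ih =>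
    replace hε := hε trivial
    have key : s = 0 → |s + S| ≤ M.Cj ∨
        ∃ b i y w n₁ S₁ E₁, M.Run True ⟨false, M.w b i, y, w⟩ n₁ S₁ E₁ ∧ i < M.len b ∧
          |w - 1| ≤ 1 / 8 + M.θ ∧ ‖y - M.p b i‖ ≤ M.ρ ∧ n₁ < n + 1 ∧ |s + S - S₁| ≤ M.Cj ∧
          E₁ ≤ ε ^ 2 + E := by
      rintro rfl
      rcases ih with ih | ⟨b, i, y, w, n₁, S₁, E₁, h1, h2, h3, h4, h5, h6, h7⟩
      · exact Or.inl (by simpa using ih)
      · exact Or.inr ⟨b, i, y, w, n₁, S₁, E₁, h1, h2, h3, h4, by omega, by simpa using h6,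
          by linarith [sq_nonneg ε]⟩
    cases hs with
    | J _ _ _ _ h => exact absurd hε (not_lt.2 h)
    | P => exact key rfl
    | I => exact key rfl
    | O => exact key rfl
    | E a y w y₁ w₁ _ h1 h2 h3 =>
      have h4 : |w₁ - 1| ≤ 1 / 8 + M.θ := by linarith [abs_sub_le w₁ w 1]
      have ht' := ht
      cases ht with
      | nil => exact Or.inl (by simpa using M.c_le a)
      | cons hs' hε' _ =>
        cases hs' with
        | J _ _ _ _ h => exact absurd (hε' trivial) (not_lt.2 h)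
        | I b i _ _ _ _ _ k1 k2 =>
          exact Or.inr ⟨b, i, _, _, _, _, _, ht', by omega, h4, k2, by omega,
            by simpa using M.c_le _, by linarith [sq_nonneg ε]⟩
        | O b i _ _ _ _ _ k1 k2 =>
          exact Or.inr ⟨_, i, _, _, _, _, _, ht', by omega, h4, k2, by omega,
            by simpa using M.c_le _, by linarith [sq_nonneg ε]⟩

variable (M) in
/-- The emitted sum of a pseudo-orbit is bounded by the sum of the squared errors. -/
theorem bound : ∃ C K : ℝ, 0 ≤ C ∧ 0 ≤ K ∧ ∀ x n S E, M.Run False x n S E → |S| ≤ C + K * E := by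
  have hL := M.one_le
  have hC := M.Cj_nonneg
  have hθ := M.θ_pos
  have hi := M.inv_ge
  set C := 2 * (M.Cj + 2 * (M.Lm * M.Cj)) with hCd
  have hLC : 0 ≤ M.Lm * M.Cj := by positivity
  have hC0 : 0 ≤ C := by positivity
  set K := M.Cj + (C + M.Cj) / M.θ ^ 2 with hKd
  have hK0 : 0 ≤ K := by positivity
  have hA : |M.lam| * M.A ≤ 1 := M.small
  have hA2 : 2 ≤ M.A := by rw [A_eq]; nlinarith
  have hl : |M.lam| ≤ 1 / 2 := by nlinarith [abs_nonneg M.lam]
  refine ⟨C, K, hC0, hK0, fun x n => ?_⟩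
  induction n using Nat.strong_induction_on generalizing x with
  | _ n ih =>
    intro S E h
    have hE := h.nonneg
    rcases h.split with h | ⟨n₁, S₁, E₁, s, ε, x₂, n₂, S₂, E₂, h1, h2, h3, h4, h5, h6, rfl, rfl⟩
    · rcases h.start with h | ⟨b, i, y, w, n₁, S₁, E₁, h1, h2, h3, h4, h5, h6, h7⟩
      · nlinarith
      · obtain ⟨y', w', δ, n', S', E', k1, -, -, k4, k5, k6⟩ :=
          (renorm h1).2.2.2 b i y w rfl h2 h3 (by linarith)
        have k7 := ih n' (by omega) _ S' E' k1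
        have hb' : (i : ℝ) + 1 ≤ M.len b := by exact_mod_cast h2
        have k8 : 0 ≤ 4 * M.Lm * (δ ^ 2 / (2 * ((M.len b : ℝ) - i) - 1)) :=
          mul_nonneg (by linarith) (div_nonneg (sq_nonneg _) (by linarith))
        have k9 : |M.lam| * E' ≤ E := by
          have := mul_le_mul_of_nonneg_left (show E' ≤ M.A * E₁ by linarith) (abs_nonneg M.lam)
          nlinarith [h1.nonneg]
        have k10 : |M.lam * S'| ≤ C / 2 + K * E := by
          rw [abs_mul]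
          have := mul_le_mul_of_nonneg_left k7 (abs_nonneg M.lam)
          nlinarith
        have k11 := M.sum_le b (i + 1)
        rw [abs_le] at h6 k5 k10 k11 ⊢
        constructor <;> linarith [h6.1, h6.2, k5.1, k5.2, k10.1, k10.2, k11.1, k11.2]
    · have k1 := ih n₁ h5 _ S₁ E₁ h1.weaken
      have k2 := ih n₂ h6 _ S₂ E₂ h4
      have k3 : C + M.Cj ≤ (C + M.Cj) / M.θ ^ 2 * ε ^ 2 := by
        rw [div_mul_eq_mul_div, le_div_iff₀ (by positivity)]
        exact mul_le_mul_of_nonneg_left (pow_le_pow_left₀ hθ.le h2 2) (by positivity)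
      have k4 : K * ε ^ 2 = M.Cj * ε ^ 2 + (C + M.Cj) / M.θ ^ 2 * ε ^ 2 := by rw [hKd]; ring
      rw [abs_le] at k1 k2 h3 ⊢
      constructor <;> nlinarith [k1.1, k1.2, k2.1, k2.2, h3.1, h3.2]

end Mach

end Pool.Agent.Lib.MP_ce3247_an.Sm
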