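import Pool.Agent.Lib.MP_ce3247_an.Sm.Link

/-! The action of every curve dominates a multiple of its displacement in the direction of the
contracting eigenvector. -/

open MeasureTheory Filter Topology Set

namespace Pool.Agent.Lib.MP_ce3247_an.Sm

variable {d : ℕ} {α : Type} [Fintype α]

theorem lin_le (l u : E d) : |∑ j, l j * u j| ≤ (∑ j, |l j|) * ‖u‖ := by
  rw [Finset.sum_mul]
  refine (Finset.abs_sum_le_sum_abs _ _).trans (Finset.sum_le_sum fun j _ => ?_)
  rw [abs_mul]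
  exact mul_le_mul_of_nonneg_left (norm_le_pi_norm u j) (abs_nonneg _)

theorem round_le (x : E d) : ‖x - ic fun j => round (x j)‖ ≤ 1 / 2 :=
  (pi_norm_le_iff_of_nonneg (by norm_num)).2 fun j => abs_sub_round (x j)

namespace Sys

variable {S : Sys d α}

theorem seq_bound (a₀ : α) {c : α → ℝ} {lam Lm : ℝ} (hlen : ∀ b, (S.len b : ℝ) ≤ Lm)
    (left : ∀ b, ∑ i ∈ Finset.range (S.len b), c (S.w b i) = lam * c b) (hL : 1 ≤ Lm)
    (small : |lam| * (8 * Lm / S.ρ ^ 2) ≤ 1) {l : E d} (hl : ∀ a, ∑ j, l j * S.e a j = c a)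
    {K C : ℝ} (hK : 0 < K) (hC : 0 ≤ C) : ∃ C' K' : ℝ, 0 ≤ K' ∧ ∀ (x : ℕ → E d) (a : ℕ → ℝ),
      (∀ n, ∃ U : ℝ, 0 ≤ U ∧ U ^ 2 ≤ 2 * a n ∧ ‖x (n + 1) - x n‖ ≤ C + U ∧
        (∀ β z, x n - ic z ∈ S.G.box β 0 →
          ‖x (n + 1) - ic z - S.G.map β (x n - ic z)‖ ≤ K * U) ∧
        ((∀ β z, x n - ic z ∉ S.G.box β 0) → K * U ≤ S.G.μ / 2 → 1 / 8 ≤ a n)) →
      ∀ N, ∑ j, l j * (x N j - x 0 j) ≤ C' + K' * ∑ n ∈ Finset.range N, a n := by
  have hρ := S.ρ_pos
  have hρ' := S.ρ_le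
  have hσ := sc_pos (α := α)
  have hσ' := sc_le (α := α)
  have hμ := S.G.μ_pos
  set L1 := ∑ j, |l j| with hL1
  have hL0 : 0 ≤ L1 := Finset.sum_nonneg fun j _ => abs_nonneg _
  have hc0 : 0 ≤ ∑ a, |c a| := Finset.sum_nonneg fun a _ => abs_nonneg _
  let M : Mach α (E d) :=
    { toPre := S.toPre, θ := S.ρ / 8, c := c, lam := lam, Lm := Lm
      Cj := ∑ a, |c a| + L1 * (C + 2), len_le := hlen, θ_pos := by positivity, θ_le := le_rfl
      left := left, one_le := hL, Cj_nonneg := by positivity, small := small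
      c_le := fun a => le_add_of_le_of_nonneg (Finset.single_le_sum (f := fun a => |c a|)
        (fun a _ => abs_nonneg _) (Finset.mem_univ a)) (by positivity) }
  obtain ⟨C0, K0, -, hK0, hM⟩ := M.bound
  set a1 := min (1 / 8) (min ((sc α * (S.ρ / 8) / K) ^ 2 / 2) ((S.G.μ / 2 / K) ^ 2 / 2)) with ha1
  have ha0 : 0 < a1 := lt_min (by norm_num) (lt_min (by positivity) (by positivity))
  set K1 := 2 * (K / sc α) ^ 2 + (2 / a1 + 4) with hK1
  have hK10 : 0 ≤ K1 := by positivity
  refine ⟨C0 + L1, K0 * K1, by positivity, fun x a hx N => ?_⟩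
  set z : ℕ → Fin d → ℤ := fun n j => round (x n j) with hz
  have hr : ∀ n, ‖x n - ic (z n)‖ ≤ 1 / 2 := fun n => round_le (x n)
  have hr' : ∀ n j, |x n j - z n j| ≤ 1 / 2 := fun n j => abs_sub_round (x n j)
  have init : ∀ n, ∃ u b, ∀ β, x n - ic (z n) ∈ S.G.box β 0 →
      (S.bd β).su = u ∧ (S.bd β).sa = b := fun n => by
    by_cases h : ∃ β, x n - ic (z n) ∈ S.G.box β 0
    · obtain ⟨β, hβ⟩ := h
      exact ⟨_, _, fun β' hβ' => by rw [Boxes.box_unique hβ' hβ]; exact ⟨rfl, rfl⟩⟩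
    · exact ⟨true, a₀, fun β hβ => absurd ⟨β, hβ⟩ h⟩
  have key : ∀ m n u b, (∀ β, x n - ic (z n) ∈ S.G.box β 0 →
      (S.bd β).su = u ∧ (S.bd β).sa = b) → ∃ E', M.Run False (S.dec u b (x n - ic (z n))) m
        (∑ j, l j * (ic (z (n + m)) - ic (z n)) j) E' ∧
        E' ≤ K1 * ∑ i ∈ Finset.range m, a (n + i) := by
    intro m
    induction m with
    | zero => intro n u b _; exact ⟨0, by simpa using Mach.Run.nil _, by simp⟩
    | succ m ih =>
      intro n u b hb
      obtain ⟨U, h1, h2, h3, h4, h5⟩ := hx n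
      have han : 0 ≤ a n := by nlinarith [sq_nonneg U]
      have fin : ∀ u' b' ε, (∀ β, x (n + 1) - ic (z (n + 1)) ∈ S.G.box β 0 →
          (S.bd β).su = u' ∧ (S.bd β).sa = b') → M.Step (S.dec u b (x n - ic (z n)))
            (S.dec u' b' (x (n + 1) - ic (z (n + 1)))) (∑ j, l j * (ic (z (n + 1)) - ic (z n)) j) ε →
          ε ^ 2 ≤ K1 * a n → ∃ E', M.Run False (S.dec u b (x n - ic (z n))) (m + 1)
            (∑ j, l j * (ic (z (n + (m + 1))) - ic (z n)) j) E' ∧
            E' ≤ K1 * ∑ i ∈ Finset.range (m + 1), a (n + i) := by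
        intro u' b' ε k1 k2 k3
        obtain ⟨E', k4, k5⟩ := ih (n + 1) u' b' k1
        refine ⟨ε ^ 2 + E', ?_, ?_⟩
        · convert Mach.Run.cons k2 False.elim k4 using 1
          rw [← Finset.sum_add_distrib, show n + 1 + m = n + (m + 1) by ring]
          exact Finset.sum_congr rfl fun j _ => by simp only [Pi.sub_apply]; ring
        · rw [Finset.sum_range_succ', mul_add]
          have e : ∑ i ∈ Finset.range m, a (n + (i + 1)) = ∑ i ∈ Finset.range m, a (n + 1 + i) :=
            Finset.sum_congr rfl fun i _ => by rw [show n + (i + 1) = n + 1 + i by ring]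
          rw [e, add_zero]
          linarith
      by_cases hg : (∃ β, x n - ic (z n) ∈ S.G.box β 0) ∧ K * U ≤ sc α * (S.ρ / 8)
      · obtain ⟨⟨β, hβ⟩, hU⟩ := hg
        obtain ⟨rfl, rfl⟩ := hb β hβ
        have k1 := h4 β _ hβ
        have k2 : z (n + 1) = z n + S.em S.e β := funext fun j => sub_eq_zero.1 (int_small (by
          have q1 := abs_le.1 ((norm_le_pi_norm _ j).trans k1)
          have q2 := abs_le.1 (Boxes.map_abs hβ j)
          have q3 := abs_le.1 (hr' (n + 1) j)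
          have q4 : sc α * (S.ρ / 8) ≤ 1 / 8 := by nlinarith
          have q5 : S.G.disp β j = S.em S.e β j := rfl
          simp only [Pi.sub_apply, ic, q5, Pi.add_apply] at q1 q2 ⊢
          push_cast
          exact abs_lt.2 ⟨by linarith [q1.1, q1.2, q2.1, q2.2, q3.1, q3.2],
            by linarith [q1.1, q1.2, q2.1, q2.2, q3.1, q3.2]⟩))
        have hε : 0 ≤ K * U / sc α := by positivity
        have k3 : ‖x (n + 1) - ic (z (n + 1)) + ic (S.em S.e β) - S.G.map β (x n - ic (z n))‖ ≤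
            sc α * (K * U / sc α) := by
          rw [mul_div_cancel₀ _ hσ.ne', k2, ic_add]
          convert k1 using 3
          abel
        refine fin _ _ (K * U / sc α) (fun β' hβ' => state_eq hε ?_ k3 hβ hβ') ?_ ?_
        · rw [div_le_iff₀ hσ]
          nlinarith
        · have k4 : ∑ j, l j * (ic (z (n + 1)) - ic (z n)) j = M.em M.c β := by
            rw [k2, ic_add, add_sub_cancel_left]
            rcases β with b | β
            · exact hl b
            · simp [Pre.em, ic]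
          rw [k4]
          exact M.step_of β (dec_mem hβ).1 (dec_mem hβ).2 (dec_map hε k3).1 (dec_map hε k3).2
        · have : (K * U / sc α) ^ 2 = (K / sc α) ^ 2 * U ^ 2 := by ring
          have k5 : 0 ≤ (2 / a1 + 4) * a n := by positivity
          nlinarith [sq_nonneg (K / sc α)]
      · obtain ⟨u', b', hb'⟩ := init (n + 1)
        have sq : ∀ t : ℝ, 0 ≤ t → t ≤ K * U → (t / K) ^ 2 / 2 ≤ a n := fun t ht h => by
          have := pow_le_pow_left₀ (by positivity) ((div_le_iff₀' hK).2 h) 2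
          linarith
        have k1 : a1 ≤ a n := by
          by_cases hU : K * U ≤ sc α * (S.ρ / 8)
          · by_cases hU' : K * U ≤ S.G.μ / 2
            · refine (min_le_left _ _).trans (h5 (fun β z' hz' => hg ⟨⟨β, ?_⟩, hU⟩) hU')
              have : z' = z n := funext fun j => sub_eq_zero.1 (int_small (by
                have q1 := abs_le.1 (Boxes.box_abs hz' j)
                have q3 := abs_le.1 (hr' n j)
                simp only [Pi.sub_apply, ic] at q1
                push_cast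
                exact abs_lt.2 ⟨by linarith [q1.2, q3.1], by linarith [q1.1, q3.2]⟩))
              rwa [← this]
            · exact ((min_le_right _ _).trans (min_le_right _ _)).trans
                (sq _ (by positivity) (not_le.1 hU').le)
          · exact ((min_le_right _ _).trans (min_le_left _ _)).trans
              (sq _ (by positivity) (not_le.1 hU).le)
        refine fin u' b' (S.ρ / 8 + U) hb' (.J _ _ _ _ (le_add_of_nonneg_right h1) ?_) ?_
        · have q1 : ‖ic (z (n + 1)) - ic (z n)‖ ≤ C + U + 1 := by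
            have e : ic (z (n + 1)) - ic (z n) =
              x (n + 1) - x n + (x n - ic (z n)) - (x (n + 1) - ic (z (n + 1))) := by abel
            rw [e]
            linarith [norm_sub_le (x (n + 1) - x n + (x n - ic (z n))) (x (n + 1) - ic (z (n + 1))),
              norm_add_le (x (n + 1) - x n) (x n - ic (z n)), hr n, hr (n + 1)]
          have q2 : C + U + 1 ≤ (C + 2) * (1 + (S.ρ / 8 + U) ^ 2) := by
            nlinarith [sq_nonneg (U - 1), mul_nonneg hC (sq_nonneg (S.ρ / 8 + U)),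
              mul_nonneg hρ.le h1, sq_nonneg S.ρ]
          refine (lin_le _ _).trans ((mul_le_mul_of_nonneg_left (q1.trans q2) hL0).trans ?_)
          show _ ≤ (∑ a, |c a| + L1 * (C + 2)) * _
          rw [← mul_assoc]
          exact mul_le_mul_of_nonneg_right (le_add_of_nonneg_left hc0) (by positivity)
        · have q1 : 2 ≤ 2 / a1 * a n := by
            rw [div_mul_eq_mul_div, le_div_iff₀ ha0]
            linarith
          have q2 : 0 ≤ 2 * (K / sc α) ^ 2 * a n := by positivity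
          nlinarith [sq_nonneg (S.ρ / 8 - U)]
  obtain ⟨u, b, hb⟩ := init 0
  obtain ⟨E', k1, k2⟩ := key N 0 u b hb
  have k3 := (abs_le.1 (hM _ _ _ _ k1)).2
  have k4 := (abs_le.1 (lin_le l (x N - ic (z N) - (x 0 - ic (z 0))))).2
  have k5 : ‖x N - ic (z N) - (x 0 - ic (z 0))‖ ≤ 1 := by
    linarith [norm_sub_le (x N - ic (z N)) (x 0 - ic (z 0)), hr N, hr 0]
  have k6 : ∑ j, l j * (x N j - x 0 j) = ∑ j, l j * (ic (z N) - ic (z 0)) j +
      ∑ j, l j * (x N - ic (z N) - (x 0 - ic (z 0))) j := by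
    rw [← Finset.sum_add_distrib]
    exact Finset.sum_congr rfl fun j _ => by simp only [Pi.sub_apply]; ring
  simp only [zero_add] at k2 k3
  nlinarith [mul_le_mul_of_nonneg_left k2 hK0, mul_le_mul_of_nonneg_left k5 hL0]

theorem curve_bound {D : Dat d} (h : S.G.Fit D.X D.P) (a₀ : α) {c : α → ℝ} {lam Lm : ℝ}
    (hlen : ∀ b, (S.len b : ℝ) ≤ Lm)
    (left : ∀ b, ∑ i ∈ Finset.range (S.len b), c (S.w b i) = lam * c b) (hL : 1 ≤ Lm)
    (small : |lam| * (8 * Lm / S.ρ ^ 2) ≤ 1) {l : E d} (hl : ∀ a, ∑ j, l j * S.e a j = c a) :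
    ∃ ε C : ℝ, 0 < ε ∧ ∀ x v, Curve x v → ∀ N : ℕ,
      ∑ j, (ε • l) j * (x N j - x 0 j) ≤ C + ∫ t in (0 : ℝ)..N, D.lag x v t := by
  obtain ⟨K, C, hK, hC, h1⟩ := Boxes.one_step h
  obtain ⟨C', K', hK', h2⟩ := seq_bound a₀ hlen left hL small hl hK hC
  refine ⟨(K' + 1)⁻¹, (K' + 1)⁻¹ * C', by positivity, fun x v hc N => ?_⟩
  have k := h2 (fun n => x n) (fun n => ∫ t in (n : ℝ)..(n + 1 : ℕ), D.lag x v t) (h1 x v hc) N
  rw [intervalIntegral.sum_integral_adjacent_intervals (a := fun n : ℕ => (n : ℝ))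
    fun n _ => (Dat.lag_cont hc).intervalIntegrable _ _] at k
  have k0 : 0 ≤ ∫ t in (0 : ℝ)..N, D.lag x v t :=
    intervalIntegral.integral_nonneg (Nat.cast_nonneg N) fun t _ => Dat.lag_nonneg t
  simp only [Nat.cast_zero] at k
  simp only [Pi.smul_apply, smul_eq_mul, mul_assoc, ← Finset.mul_sum]
  rw [← sub_le_iff_le_add', ← mul_sub, inv_mul_le_iff₀ (by positivity)]
  nlinarith

theorem curve_of_orbit {X : E d × ℝ → E d} {P : E d × ℝ → ℝ} (h : S.G.Fit X P) {β : ℕ → S.Bx}
    {x : ℕ → Cfg α (E d)} (h1 : ∀ n, S.In (β n) (x n)) (h2 : ∀ n, x (n + 1) = S.nxt (β n) (x n)) :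
    ∃ γ : ℝ → E d, (∀ t, 0 < t → HasDerivAt γ (X (γ t, t)) t) ∧ (∀ t, 0 < t → P (γ t, t) = 0) ∧
      ∀ n : ℕ, ‖γ n - ic (∑ i ∈ Finset.range n, S.em S.e (β i))‖ ≤ 1 / 4 := by
  obtain ⟨γ, k1, k2, k3⟩ := Boxes.curve_of_seq h (β := β) (ξ := fun n => S.emb (x n))
    (z := fun n => ∑ i ∈ Finset.range n, S.em S.e (β i)) (fun n => emb_mem (h1 n)) fun n => by
      rw [emb_map (h1 n), h2, Finset.sum_range_succ, ic_add]
      abel
  refine ⟨γ, k1, k2, fun n => ?_⟩
  rw [k3, add_sub_cancel_right]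
  exact (pi_norm_le_iff_of_nonneg (by norm_num)).2
    (Boxes.box_abs (Boxes.box_mono S.G.μ_pos.le (emb_mem (h1 n))))

end Sys

end Pool.Agent.Lib.MP_ce3247_an.Sm
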