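import Pool.Agent.Lib.MP_ce3247_an.Sm.Alg
import Pool.Agent.Lib.MP_ce3247_an.Sm.Seq
import Pool.Agent.Lib.MP_ce3247_an.Sm.KB
import Pool.Agent.Lib.MP_ce3247_an.Kron

/-! The smooth Lagrangian, a segment of zeros of beta and its subgradients. -/

open MeasureTheory Filter Topology Set
open scoped ContDiff

namespace Pool.Agent.Lib.MP_ce3247_an.Sm

variable {d : ℕ}

theorem flow_unique {r : ℕ} {L : Phase d → ℝ} {Φ Φ' : ℝ → Phase d → Phase d} (h : Tonelli r L Φ)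
    (h' : Tonelli r L Φ') : Φ = Φ' := by
  funext s z
  obtain ⟨⟨x₀, v₀, t⟩, rfl⟩ := (isOpenQuotientMap_proj (d := d)).surjective z
  obtain ⟨x, v, h1, rfl, rfl⟩ := h.complete x₀ v₀ t
  exact (h.flow t x v h1 s).trans (h'.flow t x v h1 s).symm

theorem Minv_comb {L : Phase d → ℝ} (hL : Continuous L) {Φ : ℝ → Phase d → Phase d} {h : E d}
    {μ ν : Measure (Phase d)} (hμ : μ ∈ Minv Φ h) (hν : ν ∈ Minv Φ 0) (h1 : ∫ z, L z ∂μ = 0)
    (h2 : ∫ z, L z ∂ν = 0) {θ : ℝ} (k0 : 0 ≤ θ) (k1 : θ ≤ 1) :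
    ∃ η ∈ Minv Φ (θ • h), ∫ z, L z ∂η = 0 := by
  obtain ⟨p1, ⟨K, hK, hK0⟩, i1, r1⟩ := hμ
  obtain ⟨p2, ⟨K', hK', hK0'⟩, i2, r2⟩ := hν
  have key : ∀ {F : Type} [NormedAddCommGroup F] [NormedSpace ℝ F] {f : Phase d → F},
      Continuous f → ∫ z, f z ∂(ENNReal.ofReal θ • μ + ENNReal.ofReal (1 - θ) • ν) =
        θ • ∫ z, f z ∂μ + (1 - θ) • ∫ z, f z ∂ν := by
    intro F _ _ f hf
    rw [integral_add_measure ((Sub_integrable hK hK0 hf).smul_measure ENNReal.ofReal_ne_top)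
      ((Sub_integrable hK' hK0' hf).smul_measure ENNReal.ofReal_ne_top), integral_smul_measure,
      integral_smul_measure, ENNReal.toReal_ofReal k0, ENNReal.toReal_ofReal (by linarith)]
  refine ⟨ENNReal.ofReal θ • μ + ENNReal.ofReal (1 - θ) • ν, ⟨⟨?_⟩, ⟨K ∪ K', hK.union hK', ?_⟩,
    fun s => ⟨(i1 s).measurable, ?_⟩, ?_⟩, ?_⟩
  · simp only [Measure.add_apply, Measure.smul_apply, measure_univ, smul_eq_mul, mul_one]
    rw [← ENNReal.ofReal_add k0 (by linarith)]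
    simp
  · simp only [Measure.add_apply, Measure.smul_apply, compl_union]
    rw [measure_mono_null inter_subset_left hK0, measure_mono_null inter_subset_right hK0']
    simp
  · rw [Measure.map_add _ _ (i1 s).measurable, Measure.map_smul, Measure.map_smul, (i1 s).map_eq,
      (i2 s).map_eq]
  · rw [key (by fun_prop), r1, r2, smul_zero, add_zero]
  · rw [key hL, h1, h2, smul_zero, smul_zero, add_zero]

theorem exists_gen (F : E d) {s₀ : ℝ} (h : 0 < s₀) : ∃ s, 0 < s ∧ s < s₀ ∧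
    ∀ (q : Fin d → ℤ) (m : ℤ), ∑ j, (q j : ℝ) * (s • F) j = m → ∑ j, (q j : ℝ) * F j = 0 := by
  obtain ⟨s, h1, h2, h3⟩ := ((countable_range fun g : (Fin d → ℤ) × ℤ =>
    (g.2 : ℝ) / ∑ j, (g.1 j : ℝ) * F j).dense_compl ℝ).exists_between h
  refine ⟨s, h2, h3, fun q m hq => by_contra fun h0 => h1 ⟨(q, m), ?_⟩⟩
  simp only
  rw [div_eq_iff h0, ← hq, Finset.mul_sum]
  exact Finset.sum_congr rfl fun j _ => by simp only [Pi.smul_apply, smul_eq_mul]; ring

theorem rot_of {γ : ℝ → E d} {T : ℕ → ℕ} (hT : Tendsto T atTop atTop) {z : ℕ → E d} {h : E d}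
    (h1 : ∀ n, ‖γ (T n) - z n‖ ≤ 1 / 4) (h2 : Tendsto (fun n => (T n : ℝ)⁻¹ • z n) atTop (𝓝 h)) :
    ∃ T : ℕ → ℝ, Tendsto T atTop atTop ∧ Tendsto (fun n => (T n)⁻¹ • γ (T n)) atTop (𝓝 h) := by
  have k := tendsto_natCast_atTop_atTop (R := ℝ).comp hT
  refine ⟨fun n => T n, k, ?_⟩
  have k1 : Tendsto (fun n => (T n : ℝ)⁻¹ • (γ (T n) - z n)) atTop (𝓝 0) :=
    (tendsto_inv_atTop_zero.comp k).zero_smul_isBoundedUnder_le
      ⟨1 / 4, eventually_map.2 (Eventually.of_forall h1)⟩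
  simpa [smul_sub] using k1.add h2

/-- The two orbits of the machine give a segment of classes with measures of action zero. -/
theorem Sys.exists_zero {α : Type} [Fintype α] (S : Sys d α) (h2 : ∀ b, 2 ≤ S.len b) {a : α}
    (ha : S.w a 0 = a) {F : E d}
    (hF : Tendsto (fun n => ((S.ks (fun _ => 1) n a : ℕ) : ℝ)⁻¹ • ic (S.ks S.e n a)) atTop (𝓝 F)) :
    ∃ (D : Dat d) (Φ : ℝ → Phase d → Phase d) (s₀ : ℝ), S.G.Fit D.X D.P ∧
      (∀ r, Tonelli r D.Lag Φ) ∧ (Continuous fun q : ℝ × Phase d => Φ q.1 q.2) ∧ 0 < s₀ ∧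
      ∀ s, 0 ≤ s → s ≤ s₀ → ∃ η ∈ Minv Φ (s • F), ∫ z, D.Lag z ∂η = 0 := by
  obtain ⟨X, hX, hX1, hX2, hX3⟩ := S.G.exists_field
  obtain ⟨P, hP, hP1, hP2, hP3, hP4⟩ := S.G.exists_pot
  have fit : S.G.Fit X P := ⟨hX1, hP1, hX2, hX3, hP3, hP4⟩
  obtain ⟨x, x₀, k1, k2, k3, k4⟩ := Pre.exists_orbit (e := S.e) S.p_le h2 ha
  obtain ⟨γ, g1, g2, g3⟩ := Sys.curve_of_orbit fit k1 (Pre.it_succ x)
  obtain ⟨γ₀, g4, g5, g6⟩ := Sys.curve_of_orbit fit (β := fun _ => .inr (.inl a))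
    (x := fun _ => x₀) (fun _ => k3) fun _ => k4.symm
  set T : ℕ → ℕ := fun n => S.tm n a - n with hT
  set N : ℕ → ℕ := fun n => S.ks (fun _ => 1) n a with hN
  have t1 : ∀ n, N n ≤ T n := fun n => Nat.le_sub_of_add_le (Pre.tm_ge n a)
  have t2 : ∀ n, T n ≤ 4 * N n := fun n => by
    have := (Pre.tm_le h2 n a).1
    simp only [hT, hN]
    omega
  have t3 : ∀ n, n + 1 ≤ N n := fun n => (Pre.tm_le h2 n a).2
  have t4 : ∀ n, (0 : ℝ) < N n := fun n => by exact_mod_cast (Nat.succ_pos n).trans_le (t3 n)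
  have t5 : ∀ n, (0 : ℝ) < T n := fun n => (t4 n).trans_le (by exact_mod_cast t1 n)
  obtain ⟨s₀, hs, φ, hφ, hl⟩ := (isCompact_Icc (a := (1 / 4 : ℝ)) (b := 1)).tendsto_subseq
    (x := fun n => (N n : ℝ) / T n) fun n =>
      ⟨by rw [le_div_iff₀ (t5 n)]; linarith [show (T n : ℝ) ≤ 4 * N n by exact_mod_cast t2 n],
        by rw [div_le_one (t5 n)]; exact_mod_cast t1 n⟩
  let D : Dat d := ⟨X, P, γ, s₀ • F, hX, hP, hX1, hP1, hP2, g1, g2, rot_of (T := fun n => T (φ n))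
    (tendsto_atTop_mono (fun n => by linarith [t1 (φ n), t3 (φ n)]) hφ.tendsto_atTop)
    (z := fun n => ic (S.ks S.e (φ n) a)) (fun n => by rw [← k2]; exact g3 _)
    ((hl.smul (hF.comp hφ.tendsto_atTop)).congr fun n => by
      have := (t4 (φ n)).ne'
      simp only [Function.comp, smul_smul]
      congr 1
      change (N (φ n) : ℝ) / T (φ n) * (N (φ n) : ℝ)⁻¹ = _
      field_simp)⟩
  let D₀ : Dat d := ⟨X, P, γ₀, 0, hX, hP, hX1, hP1, hP2, g4, g5, rot_of (T := id) tendsto_id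
    (z := fun _ => 0) (fun n => by simpa [Pre.em, ic_zero] using g6 n) (by simp)⟩
  obtain ⟨Φ, a1, a2, a3⟩ := D.exists_flow
  obtain ⟨Φ₀, b1, b2, b3⟩ := D₀.exists_flow
  obtain rfl : Φ = Φ₀ := flow_unique (a1 0) (b1 0)
  obtain ⟨μ, hμ, m1⟩ := D.exists_measure a2 a3
  obtain ⟨ν, hν, m2⟩ := D₀.exists_measure b2 b3
  have h0 : 0 < s₀ := by linarith [hs.1]
  refine ⟨D, Φ, s₀, fit, a1, a2, h0, fun s s1 s2 => ?_⟩
  have := Minv_comb D.Lag_cont hμ hν m1 m2 (θ := s / s₀) (by positivity) ((div_le_one h0).2 s2)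
  rwa [show D.h = s₀ • F from rfl, smul_smul, div_mul_cancel₀ _ h0.ne'] at this

/-- Independent forms on the torus that extend the forms `c` on the letters. -/
theorem exists_ext {k s j : ℕ} (hkd : k ≤ d) (hs : 1 ≤ s) (hj : j + s = k)
    {c : Fin s → Fin k → ℝ} (hc : LinearIndependent ℝ c) :
    ∃ (l : Fin (d - j) → E d) (σ : Fin (d - j) → Fin s),
      (∀ i a, l i (Fin.castLE hkd a) = c (σ i) a) ∧
      ∀ ε : Fin (d - j) → ℝ, (∀ i, 0 < ε i) → LinearIndependent ℝ fun i => ε i • l i := by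
  let e : Fin (d - j) ≃ Fin s ⊕ Fin (d - k) := (finCongr (by omega)).trans finSumFinEquiv.symm
  let σ : Fin s ⊕ Fin (d - k) → Fin s := Sum.elim id fun _ => ⟨0, hs⟩
  let l : Fin s ⊕ Fin (d - k) → E d := fun i t => if h : t.val < k then c (σ i) ⟨t, h⟩ else
    Sum.elim (fun _ => 0) (fun i : Fin (d - k) => if t.val = k + i.val then 1 else 0) i
  have h1 : ∀ i a, l i (Fin.castLE hkd a) = c (σ i) a := fun i a => dif_pos a.2
  have h2 : LinearIndependent ℝ l := Fintype.linearIndependent_iff.2 fun g hg => by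
    rw [Fintype.sum_sum_type] at hg
    have q1 : ∀ i, g (.inr i) = 0 := fun i => by
      have := congrFun hg ⟨k + i, by omega⟩
      simpa [l, Fin.val_inj] using this
    simp only [q1, zero_smul, Finset.sum_const_zero, add_zero] at hg
    rintro (i | i)
    · refine Fintype.linearIndependent_iff.1 hc (fun i => g (.inl i)) (funext fun a => ?_) i
      simpa [h1, σ] using congrFun hg (Fin.castLE hkd a)
    · exact q1 i
  exact ⟨l ∘ e, σ ∘ e, fun i a => h1 _ a, fun ε hε => Fintype.linearIndependent_iff.2 fun g hg i =>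
    (mul_eq_zero.1 (Fintype.linearIndependent_iff.1 (h2.comp e e.injective) (fun i => g i * ε i)
      (by simpa only [smul_smul] using hg) i)).resolve_right (hε i).ne'⟩

theorem main {k d j : ℕ} (hk : j < k) (hkd : k ≤ d) (hd : (k - j) * d < j * (d - 2)) :
    ∃ (D : Dat d) (Φ : ℝ → Phase d → Phase d) (h : E d) (c : Fin (d - j) → E d),
      (∀ r, Tonelli r D.Lag Φ) ∧ (∀ j : Fin d, k ≤ j.val → h j = 0) ∧
      (∀ (q : Fin d → ℤ) (m : ℤ), ∑ j, (q j : ℝ) * h j = m → ∀ j : Fin d, j.val < k → q j = 0) ∧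
      (∃ η ∈ Minv Φ h, ∫ z, D.Lag z ∂η = 0) ∧ LinearIndependent ℝ c ∧
      ∀ i h', ∀ μ ∈ Minv Φ h', ∑ j, c i j * (h' j - h j) ≤ ∫ z, D.Lag z ∂μ := by
  obtain ⟨k, rfl⟩ : ∃ n, k = n + 1 := ⟨k - 1, by omega⟩
  have hj0 : j ≠ 0 := by
    rintro rfl
    simp at hd
  have hd2 : d - 2 ≠ 0 := fun h => by simp [h] at hd
  obtain ⟨m, rfl⟩ : ∃ n, d = n + 2 := ⟨d - 2, by omega⟩
  set e : Fin (k + 1) → Fin (m + 2) → ℤ := fun a => Pi.single (Fin.castLE hkd a) 1 with he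
  obtain ⟨S, c, f, lam, Lm, e1, h2, hw, hlen, left, hL, small, ci, orth, ind, hF⟩ :=
    exists_sys (k := k) (m := m) (s := k + 1 - j) (by omega) (by omega)
      (by rwa [Nat.sub_sub_self hk.le]) e
  set F := ∑ a, f a • ic (e a) with hFd
  have dot : ∀ (l : E (m + 2)) a, ∑ j, l j * (e a j : ℝ) = l (Fin.castLE hkd a) := fun l a => by
    simp [he, Pi.single_apply]
  have dotF : ∀ l : E (m + 2), ∑ j, l j * F j = ∑ a, l (Fin.castLE hkd a) * f a := fun l => by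
    simp only [hFd, Finset.sum_apply, Pi.smul_apply, smul_eq_mul, Finset.mul_sum, ← dot, ic,
      Finset.sum_mul]
    rw [Finset.sum_comm]
    exact Finset.sum_congr rfl fun a _ => Finset.sum_congr rfl fun j _ => by ring
  obtain ⟨D, Φ, s₀, fit, hT, hc, h0, hz⟩ := S.exists_zero h2 hw (e1.symm ▸ hF)
  obtain ⟨s, s1, s2, s3⟩ := exists_gen F h0
  obtain ⟨l, σ, hl1, hl2⟩ := exists_ext (j := j) hkd (by omega) (by omega) ci
  choose ε C hε hC using fun i => Sys.curve_bound fit 0 hlen (left (σ i)) hL (small _) (l := l i)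
    fun a => by rw [e1, dot, hl1]
  refine ⟨D, Φ, s • F, fun i => ε i • l i, hT, fun j hj => ?_, fun q n hq j hj => ?_,
    hz s s1.le s2.le, hl2 ε hε, fun i h' μ hμ => ?_⟩
  · have := dotF (Pi.single j 1)
    simp only [Pi.single_apply, ite_mul, one_mul, zero_mul, Finset.sum_ite_eq', Finset.mem_univ,
      if_true] at this
    rw [Pi.smul_apply, this, Finset.sum_eq_zero fun a _ => if_neg fun h => by
      have := congrArg Fin.val h
      have := a.2
      simp only [Fin.val_castLE] at *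
      omega, smul_zero]
  · have := s3 q n hq
    rw [dotF fun j => q j] at this
    exact congrFun (ind (fun a => q (Fin.castLE hkd a)) this) ⟨j, hj⟩
  · refine le_trans (le_of_eq ?_) (D.sub_le (hT 0) hc (hC i) hμ)
    have := dotF (l i)
    simp only [hl1, orth] at this
    simp only [mul_sub, Finset.sum_sub_distrib, Pi.smul_apply, smul_eq_mul, sub_eq_self]
    rw [← mul_zero (ε i * s), ← this, Finset.mul_sum]
    exact Finset.sum_congr rfl fun j _ => by ring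

end Pool.Agent.Lib.MP_ce3247_an.Sm
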