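import Pool.Agent.Lib.MP_ce3247_an.Sm.Act
import Pool.Agent.Lib.MP_ce3247_an.Sm.Box

/-! Curves on unit time intervals follow the maps of the boxes; sequences of boxes give orbits. -/

open MeasureTheory Filter Topology Set

namespace Pool.Agent.Lib.MP_ce3247_an.Sm.Boxes

variable {d : ℕ} {B : Type} (G : Boxes d B)

/-- The properties of the vector field and of the potential. -/
structure Fit (X : E d × ℝ → E d) (P : E d × ℝ → ℝ) : Prop where
  X_per : ∀ z m y, X (shift z m y) = X y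
  P_per : ∀ z m y, P (shift z m y) = P y
  flow : ∀ β, ∀ x ∈ G.box β 0, ∀ t ∈ Icc (0 : ℝ) 1, HasDerivAt (G.path β x) (X (G.path β x t, t)) t
  rest : ∀ x, ∀ t ∈ Icc (0 : ℝ) (3 / 16), X (x, t) = 0
  zero : ∀ β, ∀ x ∈ G.box β G.μ, ∀ t ∈ Icc (0 : ℝ) 1, P (G.path β x t, t) = 0
  one : ∀ x, ∀ t ∈ Icc (1 / 16 : ℝ) (3 / 16), (∀ β z, x - ic z ∉ G.box β (G.μ / 2)) → P (x, t) = 1

variable {G}

theorem box_mono {β : B} {s s' : ℝ} (h : s ≤ s') : G.box β s' ⊆ G.box β s :=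
  fun _ hx j => (hx j).trans (by linarith)

theorem box_unique {β β' : B} {x : E d} (h : x ∈ G.box β 0) (h' : x ∈ G.box β' 0) : β = β' :=
  G.C_sep β β' fun j _ => by
    have k := abs_le.1 (h j)
    have k' := abs_le.1 (h' j)
    exact abs_le.2 ⟨by linarith, by linarith⟩

theorem box_abs {β : B} {x : E d} (h : x ∈ G.box β 0) (j : Fin d) : |x j| ≤ 1 / 4 := by
  have := abs_sub_abs_le_abs_sub (x j) (G.C β j)
  linarith [h j, G.C_le β j]

theorem map_abs {β : B} {x : E d} (h : x ∈ G.box β 0) (j : Fin d) :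
    |G.map β x j - G.disp β j| ≤ 1 / 4 := by
  have k : |G.D β j * (x j - G.C β j)| ≤ G.D β j * G.r β j := by
    rw [abs_mul, abs_of_pos (G.D_pos β j)]
    exact mul_le_mul_of_nonneg_left (by simpa using h j) (G.D_pos β j).le
  have := abs_add_le (G.T β j) (G.D β j * (x j - G.C β j))
  rw [map, show G.T β j + G.disp β j + G.D β j * (x j - G.C β j) - G.disp β j =
    G.T β j + G.D β j * (x j - G.C β j) by ring]
  linarith [G.T_le β j]

theorem one_step {D : Dat d} (h : G.Fit D.X D.P) : ∃ K C : ℝ, 0 < K ∧ 0 ≤ C ∧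
    ∀ x v, Curve x v → ∀ n : ℕ, ∃ U : ℝ, 0 ≤ U ∧
      U ^ 2 ≤ 2 * ∫ t in (n : ℝ)..(n + 1 : ℕ), D.lag x v t ∧ ‖x (n + 1 : ℕ) - x n‖ ≤ C + U ∧
      (∀ β z, x n - ic z ∈ G.box β 0 → ‖x (n + 1 : ℕ) - ic z - G.map β (x n - ic z)‖ ≤ K * U) ∧
      ((∀ β z, x n - ic z ∉ G.box β 0) → K * U ≤ G.μ / 2 →
        1 / 8 ≤ ∫ t in (n : ℝ)..(n + 1 : ℕ), D.lag x v t) := by
  obtain ⟨K, hK0, hK⟩ := D.exists_lip
  obtain ⟨C, hC0, hC⟩ := bdd_of_per D.X_smooth.continuous D.X_per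
  refine ⟨Real.exp K, C, Real.exp_pos K, hC0, fun x v hc n => ?_⟩
  have hs : ∀ z : Fin d → ℤ, Curve (fun t => x (t + (n : ℤ)) - ic z) fun t => v (t + (n : ℤ)) :=
    fun z => hc.shift _ _
  have hd : ∀ z : Fin d → ℤ, D.dev (fun t => x (t + (n : ℤ)) - ic z) (fun t => v (t + (n : ℤ))) =
      D.dev (fun t => x (t + (n : ℤ)) - ic 0) fun t => v (t + (n : ℤ)) := fun z => by
    refine intervalIntegral.integral_congr fun t _ => ?_
    have := D.X_per z 0 (x (t + (n : ℤ)) - ic z, t)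
    simp only [shift, sub_add_cancel, Int.cast_zero, add_zero] at this
    simp only [ic_zero, sub_zero, this]
  have ha : ∫ t in (0 : ℝ)..1, D.lag (fun t => x (t + (n : ℤ)) - ic 0) (fun t => v (t + (n : ℤ))) t =
      ∫ t in (n : ℝ)..(n + 1 : ℕ), D.lag x v t := by
    simp only [Dat.lag_shift]
    rw [intervalIntegral.integral_comp_add_right (D.lag x v)]
    simp [add_comm]
  have e0 : (0 : ℝ) + ((n : ℤ) : ℝ) = n := by simp
  have e1 : (1 : ℝ) + ((n : ℤ) : ℝ) = (n + 1 : ℕ) := by push_cast; ring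
  refine ⟨_, Dat.dev_nonneg, ha ▸ Dat.dev_sq (hs 0), ?_, fun β z hz => ?_, fun hz hU => ?_⟩
  · have := Dat.move_le hC (hs 0)
    simpa only [e0, e1, sub_sub_sub_cancel_right] using this
  · have := Dat.shadow hK0 hK (hs z) le_rfl (h.flow β _ hz)
      (by rw [G.path_lo _ _ (by norm_num), e0]) 1 ⟨zero_le_one, le_rfl⟩
    rwa [G.path_hi _ _ (by norm_num), e1, hd] at this
  · rw [← ha]
    refine Dat.act_ge (hs 0) fun t ht => h.one _ t ht fun β z hz' => hz β z fun j => ?_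
    have := Dat.shadow hK0 hK (hs 0) (τ := 3 / 16) (g := fun _ => x n - ic 0) (by norm_num)
      (fun t ht => by rw [h.rest _ t ht]; exact hasDerivAt_const _ _) (by rw [e0]) t
      ⟨by linarith [ht.1], ht.2⟩
    have k1 := abs_le.1 ((norm_le_pi_norm _ j).trans (this.trans hU))
    have k2 := abs_le.1 (hz' j)
    simp only [ic_zero, sub_zero, Pi.sub_apply] at k1 k2 ⊢
    exact abs_le.2 ⟨by linarith [k1.2, k2.1], by linarith [k1.1, k2.2]⟩

theorem curve_of_seq {X : E d × ℝ → E d} {P : E d × ℝ → ℝ} (h : G.Fit X P) {β : ℕ → B}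
    {ξ : ℕ → E d} {z : ℕ → Fin d → ℤ} (h1 : ∀ n, ξ n ∈ G.box (β n) G.μ)
    (h2 : ∀ n, ξ (n + 1) + ic (z (n + 1)) = G.map (β n) (ξ n) + ic (z n)) :
    ∃ γ : ℝ → E d, (∀ t, 0 < t → HasDerivAt γ (X (γ t, t)) t) ∧ (∀ t, 0 < t → P (γ t, t) = 0) ∧
      ∀ n : ℕ, γ n = ξ n + ic (z n) := by
  set g : ℕ → ℝ → E d := fun n t => G.path (β n) (ξ n) (t - n) + ic (z n) with hg
  have hf : ∀ t : ℝ, 0 < t → t - ⌊t⌋₊ ∈ Icc (0 : ℝ) 1 := fun t ht =>
    ⟨by linarith [Nat.floor_le ht.le], by linarith [Nat.lt_floor_add_one t]⟩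
  have hsh : ∀ (n : ℕ) (t : ℝ), (g n t, t) = shift (z n) n (G.path (β n) (ξ n) (t - n), t - n) :=
    fun n t => by simp [hg, shift]
  refine ⟨fun t => g ⌊t⌋₊ t, fun t ht => ?_, fun t ht => ?_, fun n => ?_⟩
  · have k : HasDerivAt (g ⌊t⌋₊) (X (g ⌊t⌋₊ t, t)) t := by
      rw [hsh, h.X_per]
      exact ((h.flow _ _ (box_mono G.μ_pos.le (h1 _)) _ (hf t ht)).comp_sub_const t _).add_const _
    refine k.congr_of_eventuallyEq ?_
    filter_upwards [Ioo_mem_nhds (show max 0 ((⌊t⌋₊ : ℝ) - 1 / 4) < t from max_lt ht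
      (by linarith [Nat.floor_le ht.le])) (Nat.lt_floor_add_one t)] with s hs
    have hs0 : 0 < s := (le_max_left _ _).trans_lt hs.1
    have hs1 : (⌊t⌋₊ : ℝ) - 1 / 4 < s := (le_max_right _ _).trans_lt hs.1
    rcases le_or_gt (⌊t⌋₊ : ℝ) s with k1 | k1
    · rw [(Nat.floor_eq_iff hs0.le).2 ⟨k1, hs.2⟩]
    · obtain ⟨m, hm⟩ : ∃ m, ⌊t⌋₊ = m + 1 := Nat.exists_eq_succ_of_ne_zero fun h0 => by
        rw [h0, Nat.cast_zero] at k1
        linarith
      rw [hm] at hs1 k1 ⊢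
      push_cast at hs1 k1
      rw [(Nat.floor_eq_iff hs0.le).2 ⟨show (m : ℝ) ≤ s by linarith, k1⟩]
      simp only [hg]
      rw [G.path_hi _ _ (by linarith), G.path_lo _ _ (by push_cast; linarith), h2]
  · rw [hsh, h.P_per]
    exact h.zero _ _ (h1 _) _ (hf t ht)
  · simp only [hg, Nat.floor_natCast, sub_self]
    rw [G.path_lo _ _ (by norm_num)]

end Pool.Agent.Lib.MP_ce3247_an.Sm.Boxes
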